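import Mathlib

open Polynomial MeasureTheory Filter Topology

namespace Pool.Agent.Helper93

/-- `p` is the system of orthonormal polynomials for the weight `w` on the real line
(`p n` of degree `n` with positive leading coefficient), and `a n` (`n ≥ 1`), `b n` (`n ≥ 0`) are
its Jacobi recurrence coefficients:
`x p_n = a_{n+1} p_{n+1} + b_n p_n + a_n p_{n-1}` for `n ≥ 0`, with `p_{-1} = 0`. -/
structure IsJacobi (w : ℝ → ℝ) (p : ℕ → ℝ[X]) (a b : ℕ → ℝ) : Prop where
  natDegree_eq : ∀ n, (p n).natDegree = n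
  leadingCoeff_pos : ∀ n, 0 < (p n).leadingCoeff
  orthonormal : ∀ m n, ∫ x, (p m).eval x * (p n).eval x * w x = if m = n then 1 else 0
  a_pos : ∀ n, 1 ≤ n → 0 < a n
  rec_zero : X * p 0 = C (a 1) * p 1 + C (b 0) * p 0
  rec_succ : ∀ n, X * p (n + 1) =
    C (a (n + 2)) * p (n + 2) + C (b (n + 1)) * p (n + 1) + C (a (n + 1)) * p n

/-- `L : (0, ∞) → (0, ∞)` is measurable and slowly varying: `L(tx)/L(x) → 1` as `x → ∞` for every
`t > 0` (the values of `L` outside `(0, ∞)` play no role). -/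
structure SlowlyVarying (L : ℝ → ℝ) : Prop where
  measurable : Measurable (fun x : Set.Ioi (0 : ℝ) => L x)
  pos : ∀ x, 0 < x → 0 < L x
  tendsto_one : ∀ t, 0 < t → Tendsto (fun x => L (t * x) / L x) atTop (𝓝 1)

/-- `Lstar` is a de Bruijn conjugate of `L`: it is slowly varying and
`Lstar(x) L(x Lstar(x)) → 1` as `x → ∞`. -/
structure IsDeBruijnConjugate (L Lstar : ℝ → ℝ) : Prop where
  slowlyVarying : SlowlyVarying Lstar
  tendsto_one : Tendsto (fun x => Lstar x * L (x * Lstar x)) atTop (𝓝 1)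

/-- Hypothesis (H) for `Q` with parameters `α, A, B, L`: `Q` is measurable, `exp(-2Q)` has finite
moments of all orders, `Q(x) ~ A x^α L(x)^α` as `x → +∞` and `Q(x) ~ B |x|^α L(|x|)^α` as
`x → -∞`. -/
structure HypH (α A B : ℝ) (L Q : ℝ → ℝ) : Prop where
  measurable : Measurable Q
  moments : ∀ n : ℕ, Integrable (fun x => x ^ n * Real.exp (-(2 * Q x)))
  right : Tendsto (fun x => Q x / (A * x ^ α * L x ^ α)) atTop (𝓝 1)
  left : Tendsto (fun x => Q x / (B * |x| ^ α * L |x| ^ α)) atBot (𝓝 1)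

/-- The normalisation `c_n = n^{1/α} Lstar(n^{1/α})`. -/
noncomputable def scale (α : ℝ) (Lstar : ℝ → ℝ) (n : ℕ) : ℝ :=
  (n : ℝ) ^ (1 / α) * Lstar ((n : ℝ) ^ (1 / α))

end Pool.Agent.Helper93
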