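import Mathlib
import Pool.Agent.Helper93.FreudDefs

open Polynomial MeasureTheory Filter Topology

namespace Pool.Agent.Helper93

/-- Admissible weights: positive, measurable, all moments finite. -/
structure AdmW (w : ℝ → ℝ) : Prop where
  pos : ∀ x, 0 < w x
  meas : Measurable w
  mom : ∀ n : ℕ, Integrable (fun x => x ^ n * w x)

/-- The inner product of two polynomials with respect to the weight `w`. -/
noncomputable def ip (w : ℝ → ℝ) (P Q : ℝ[X]) : ℝ := ∫ x, P.eval x * Q.eval x * w x

namespace AdmW

variable {w : ℝ → ℝ}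

theorem integrable_poly (hw : AdmW w) (P : ℝ[X]) : Integrable (fun x => P.eval x * w x) := by
  have h : (fun x => P.eval x * w x) =
      fun x => ∑ i ∈ Finset.range (P.natDegree + 1), P.coeff i * (x ^ i * w x) := by
    funext x
    rw [Polynomial.eval_eq_sum_range, Finset.sum_mul]
    exact Finset.sum_congr rfl fun i _ => by ring
  rw [h]
  exact integrable_finsetSum _ fun i _ => (hw.mom i).const_mul _

theorem integrable_mul (hw : AdmW w) (P Q : ℝ[X]) :
    Integrable (fun x => P.eval x * Q.eval x * w x) := by
  simpa using hw.integrable_poly (P * Q)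

theorem integrable_sq (hw : AdmW w) (P : ℝ[X]) :
    Integrable (fun x => P.eval x ^ 2 * w x) := by
  simpa [sq] using hw.integrable_mul P P

end AdmW

variable {w : ℝ → ℝ}

theorem ip_comm (P Q : ℝ[X]) : ip w P Q = ip w Q P := by
  unfold ip; congr 1; funext x; ring

theorem ip_add_left (hw : AdmW w) (P Q R : ℝ[X]) : ip w (P + Q) R = ip w P R + ip w Q R := by
  unfold ip
  rw [← integral_add (hw.integrable_mul _ _) (hw.integrable_mul _ _)]
  congr 1; funext x; simp; ring

theorem ip_add_right (hw : AdmW w) (P Q R : ℝ[X]) : ip w P (Q + R) = ip w P Q + ip w P R := by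
  rw [ip_comm, ip_add_left hw, ip_comm Q, ip_comm R]

theorem ip_sub_left (hw : AdmW w) (P Q R : ℝ[X]) : ip w (P - Q) R = ip w P R - ip w Q R := by
  unfold ip
  rw [← integral_sub (hw.integrable_mul _ _) (hw.integrable_mul _ _)]
  congr 1; funext x; simp; ring

theorem ip_sub_right (hw : AdmW w) (P Q R : ℝ[X]) : ip w P (Q - R) = ip w P Q - ip w P R := by
  rw [ip_comm, ip_sub_left hw, ip_comm Q, ip_comm R]

theorem ip_C_mul_left (c : ℝ) (P Q : ℝ[X]) : ip w (C c * P) Q = c * ip w P Q := by
  unfold ip
  rw [← integral_const_mul]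
  congr 1; funext x; simp; ring

theorem ip_C_mul_right (c : ℝ) (P Q : ℝ[X]) : ip w P (C c * Q) = c * ip w P Q := by
  rw [ip_comm, ip_C_mul_left, ip_comm]

theorem ip_X_mul (P Q : ℝ[X]) : ip w (X * P) Q = ip w P (X * Q) := by
  unfold ip; congr 1; funext x; simp only [eval_mul, eval_X]; ring

theorem ip_self_pos (hw : AdmW w) {P : ℝ[X]} (hP : P ≠ 0) : 0 < ip w P P := by
  unfold ip
  have hi := hw.integrable_mul P P
  rw [integral_pos_iff_support_of_nonneg (fun x => by
    have := (hw.pos x).le
    have h2 := mul_self_nonneg (P.eval x)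
    exact mul_nonneg h2 this) hi]
  have : Function.support (fun x => P.eval x * P.eval x * w x) = {x | P.IsRoot x}ᶜ := by
    ext x
    have := (hw.pos x).ne'
    simp [Function.mem_support, this, Polynomial.IsRoot]
  rw [this]
  have hfin : Set.Finite {x | P.IsRoot x} := by
    exact Polynomial.finite_setOfPred_isRoot hP
  have h0 : volume {x | P.IsRoot x} = 0 := hfin.measure_zero _
  rw [measure_compl hfin.measurableSet (by rw [h0]; simp), h0]
  simp

/-- Monic orthogonal polynomials defined by the three term recurrence. -/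
noncomputable def mop (w : ℝ → ℝ) : ℕ → ℝ[X]
  | 0 => 1
  | 1 => X - C (ip w (X * 1) 1 / ip w 1 1)
  | (n + 2) => (X - C (ip w (X * mop w (n + 1)) (mop w (n + 1)) /
        ip w (mop w (n + 1)) (mop w (n + 1)))) * mop w (n + 1) -
      C (ip w (mop w (n + 1)) (mop w (n + 1)) / ip w (mop w n) (mop w n)) * mop w n

theorem mop_monic_natDegree (w : ℝ → ℝ) (n : ℕ) :
    (mop w n).Monic ∧ (mop w n).natDegree = n := by
  induction n using Nat.strong_induction_on with
  | _ n ih =>
    match n, ih with
    | 0, _ => simp [mop]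
    | 1, _ =>
      rw [mop]
      exact ⟨monic_X_sub_C _, natDegree_X_sub_C _⟩
    | (n + 2), ih =>
      obtain ⟨h1, h1'⟩ := ih (n + 1) (by omega)
      obtain ⟨h0, h0'⟩ := ih n (by omega)
      set c1 := ip w (X * mop w (n + 1)) (mop w (n + 1)) /
        ip w (mop w (n + 1)) (mop w (n + 1))
      set c2 := ip w (mop w (n + 1)) (mop w (n + 1)) / ip w (mop w n) (mop w n)
      have hm : ((X - C c1) * mop w (n + 1)).Monic := (monic_X_sub_C _).mul h1
      have hd : ((X - C c1) * mop w (n + 1)).natDegree = n + 2 := by
        rw [(monic_X_sub_C c1).natDegree_mul h1, natDegree_X_sub_C, h1']; ring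
      have hlt : (C c2 * mop w n).degree < ((X - C c1) * mop w (n + 1)).degree := by
        rw [degree_eq_natDegree hm.ne_zero, hd]
        calc (C c2 * mop w n).degree ≤ (mop w n).degree := by
              by_cases hc : c2 = 0
              · simp [hc]
              · rw [degree_C_mul hc]
          _ = (n : WithBot ℕ) := by rw [degree_eq_natDegree h0.ne_zero, h0']
          _ < _ := by exact_mod_cast (by omega : n < n + 2)
      constructor
      · rw [mop]
        exact hm.sub_of_left hlt
      · rw [mop]
        rw [natDegree_sub_eq_left_of_natDegree_lt, hd]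
        rw [hd]
        calc (C c2 * mop w n).natDegree ≤ (mop w n).natDegree := natDegree_C_mul_le _ _
          _ = n := h0'
          _ < n + 2 := by omega

theorem mop_monic (w : ℝ → ℝ) (n : ℕ) : (mop w n).Monic := (mop_monic_natDegree w n).1
theorem mop_natDegree (w : ℝ → ℝ) (n : ℕ) : (mop w n).natDegree = n := (mop_monic_natDegree w n).2

theorem ip_mop_pos (hw : AdmW w) (n : ℕ) : 0 < ip w (mop w n) (mop w n) :=
  ip_self_pos hw (mop_monic w n).ne_zero

/-- The monic recurrence coefficient `b_n`. -/
noncomputable def jb (w : ℝ → ℝ) (n : ℕ) : ℝ :=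
  ip w (X * mop w n) (mop w n) / ip w (mop w n) (mop w n)

theorem mop_zero_rec (w : ℝ → ℝ) : X * mop w 0 = mop w 1 + C (jb w 0) * mop w 0 := by
  simp [mop, jb]

theorem mop_succ_rec (w : ℝ → ℝ) (n : ℕ) : X * mop w (n + 1) =
    mop w (n + 2) + C (jb w (n + 1)) * mop w (n + 1) +
      C (ip w (mop w (n + 1)) (mop w (n + 1)) / ip w (mop w n) (mop w n)) * mop w n := by
  conv_rhs => rw [mop]
  simp only [jb]
  ring

theorem mop_orth (hw : AdmW w) (n : ℕ) : ∀ m < n, ip w (mop w m) (mop w n) = 0 := by
  induction n using Nat.strong_induction_on with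
  | _ n ih =>
    match n, ih with
    | 0, _ => intro m hm; omega
    | 1, _ =>
      intro m hm
      have : m = 0 := by omega
      subst this
      have h1 : mop w 1 = X * mop w 0 - C (jb w 0) * mop w 0 := by rw [mop_zero_rec]; ring
      rw [h1, ip_sub_right hw, ip_C_mul_right, ip_comm _ (X * _), jb,
        div_mul_cancel₀ _ (ip_mop_pos hw 0).ne']
      ring
    | (n + 2), ih =>
      intro m hm
      have hrec : mop w (n + 2) = X * mop w (n + 1) - C (jb w (n + 1)) * mop w (n + 1) -
          C (ip w (mop w (n + 1)) (mop w (n + 1)) / ip w (mop w n) (mop w n)) * mop w n := by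
        rw [mop_succ_rec]; ring
      rw [hrec, ip_sub_right hw, ip_sub_right hw, ip_C_mul_right, ip_C_mul_right]
      rcases Nat.lt_or_ge m (n + 1) with h | h
      · rcases Nat.lt_or_ge m n with h' | h'
        · -- m < n
          rw [ih n (by omega) m h', ih (n + 1) (by omega) m (by omega)]
          have : ip w (mop w m) (X * mop w (n + 1)) = 0 := by
            rw [← ip_X_mul]
            rcases m with _ | m
            · rw [mop_zero_rec, ip_add_left hw, ip_C_mul_left,
                ih (n + 1) (by omega) 1 (by omega), ih (n + 1) (by omega) 0 (by omega)]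
              ring
            · rw [mop_succ_rec, ip_add_left hw, ip_add_left hw, ip_C_mul_left, ip_C_mul_left,
                ih (n + 1) (by omega) (m + 2) (by omega),
                ih (n + 1) (by omega) (m + 1) (by omega), ih (n + 1) (by omega) m (by omega)]
              ring
          rw [this]; ring
        · -- m = n
          have : m = n := by omega
          subst this
          rw [ih (m + 1) (by omega) m (by omega), div_mul_cancel₀ _ (ip_mop_pos hw m).ne']
          have : ip w (mop w m) (X * mop w (m + 1)) = ip w (mop w (m + 1)) (mop w (m + 1)) := by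
            rw [← ip_X_mul]
            rcases m with _ | m
            · rw [mop_zero_rec, ip_add_left hw, ip_C_mul_left,
                ih (0 + 1) (by omega) 0 (by omega)]
              simp
            · rw [mop_succ_rec, ip_add_left hw, ip_add_left hw, ip_C_mul_left, ip_C_mul_left,
                ih (m + 2) (by omega) (m + 1) (by omega), ih (m + 2) (by omega) m (by omega)]
              ring
          rw [this]; ring
      · -- m = n + 1
        have : m = n + 1 := by omega
        subst this
        rw [ip_comm (mop w (n + 1)) (mop w n), ih (n + 1) (by omega) n (by omega),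
          ip_comm (mop w (n + 1)) (X * mop w (n + 1)), jb,
          div_mul_cancel₀ _ (ip_mop_pos hw (n + 1)).ne']
        ring

/-- The norm of the monic orthogonal polynomial. -/
noncomputable def nrm (w : ℝ → ℝ) (n : ℕ) : ℝ := Real.sqrt (ip w (mop w n) (mop w n))

theorem nrm_pos (hw : AdmW w) (n : ℕ) : 0 < nrm w n := Real.sqrt_pos.2 (ip_mop_pos hw n)

theorem nrm_sq (hw : AdmW w) (n : ℕ) : nrm w n ^ 2 = ip w (mop w n) (mop w n) :=
  Real.sq_sqrt (ip_mop_pos hw n).le

/-- orthonormal polynomials -/
noncomputable def onp (w : ℝ → ℝ) (n : ℕ) : ℝ[X] := C (nrm w n)⁻¹ * mop w n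

/-- Jacobi coefficient `a_n`. -/
noncomputable def ja (w : ℝ → ℝ) (n : ℕ) : ℝ := nrm w n / nrm w (n - 1)

theorem exists_isJacobi (hw : AdmW w) : IsJacobi w (onp w) (ja w) (jb w) where
  natDegree_eq n := by
    rw [onp, natDegree_C_mul (inv_ne_zero (nrm_pos hw n).ne'), mop_natDegree]
  leadingCoeff_pos n := by
    rw [onp, leadingCoeff_mul, leadingCoeff_C, (mop_monic w n).leadingCoeff, mul_one]
    exact inv_pos.2 (nrm_pos hw n)
  orthonormal m n := by
    change ip w (onp w m) (onp w n) = _
    rw [onp, onp, ip_C_mul_left, ip_C_mul_right]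
    rcases lt_trichotomy m n with h | h | h
    · rw [mop_orth hw n m h, if_neg h.ne]; simp
    · subst h
      rw [if_pos rfl, ← nrm_sq hw m]
      have := (nrm_pos hw m).ne'
      field_simp
    · rw [ip_comm, mop_orth hw m n h, if_neg h.ne']; simp
  a_pos n _ := div_pos (nrm_pos hw _) (nrm_pos hw _)
  rec_zero := by
    have h0 := (nrm_pos hw 0).ne'
    have h1 := (nrm_pos hw 1).ne'
    have e : C (ja w 1) * onp w 1 = C (nrm w 0)⁻¹ * mop w 1 := by
      rw [onp, ja, ← mul_assoc, ← C_mul]
      congr 2
      simp
      field_simp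
    rw [e]
    calc X * onp w 0 = C (nrm w 0)⁻¹ * (X * mop w 0) := by rw [onp]; ring
      _ = _ := by rw [mop_zero_rec, onp]; ring
  rec_succ n := by
    have h0 := (nrm_pos hw n).ne'
    have h1 := (nrm_pos hw (n + 1)).ne'
    have h2 := (nrm_pos hw (n + 2)).ne'
    have e : C (ja w (n + 2)) * onp w (n + 2) = C (nrm w (n + 1))⁻¹ * mop w (n + 2) := by
      rw [onp, ja, ← mul_assoc, ← C_mul]
      congr 2
      simp
      field_simp
    have e2 : C (ja w (n + 1)) * onp w n = C (nrm w (n + 1))⁻¹ *
        (C (ip w (mop w (n + 1)) (mop w (n + 1)) / ip w (mop w n) (mop w n)) * mop w n) := by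
      rw [onp, ja, ← mul_assoc, ← mul_assoc, ← C_mul, ← C_mul, ← nrm_sq hw, ← nrm_sq hw]
      congr 2
      simp
      field_simp
    rw [e, e2]
    calc X * onp w (n + 1) = C (nrm w (n + 1))⁻¹ * (X * mop w (n + 1)) := by rw [onp]; ring
      _ = _ := by rw [mop_succ_rec, onp]; ring

end Pool.Agent.Helper93
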