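import Mathlib
import Pool.Agent.Helper93.OP

open Polynomial MeasureTheory Filter Topology

namespace Pool.Agent.Helper93

/-- Cauchy-Schwarz in a pointwise form. -/
theorem cs_pointwise {u v F : ℝ → ℝ} {μ : Measure ℝ} (hu : Integrable u μ) (hv : Integrable v μ)
    (hu0 : ∀ x, 0 ≤ u x) (hv0 : ∀ x, 0 ≤ v x) (h : ∀ x, F x ^ 2 ≤ u x * v x) :
    (∫ x, F x ∂μ) ^ 2 ≤ (∫ x, u x ∂μ) * ∫ x, v x ∂μ := by
  have key : ∀ t : ℝ, 0 < t → 2 * |∫ x, F x ∂μ| ≤ t * (∫ x, u x ∂μ) + t⁻¹ * ∫ x, v x ∂μ := by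
    intro t ht
    have h1 : ‖∫ x, F x ∂μ‖ ≤ ∫ x, (t * u x + t⁻¹ * v x) / 2 ∂μ := by
      apply norm_integral_le_of_norm_le
      · exact ((hu.const_mul t).add (hv.const_mul t⁻¹)).div_const 2
      · refine Eventually.of_forall fun x => ?_
        rw [Real.norm_eq_abs]
        apply abs_le_of_sq_le_sq
        · have := h x
          have h2 : u x * v x = (t * u x) * (t⁻¹ * v x) := by field_simp
          rw [h2] at this
          nlinarith [sq_nonneg (t * u x - t⁻¹ * v x)]
        · have := hu0 x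
          have := hv0 x
          positivity
    rw [integral_div, integral_add (hu.const_mul t) (hv.const_mul t⁻¹), integral_const_mul,
      integral_const_mul, Real.norm_eq_abs] at h1
    linarith
  set A := ∫ x, u x ∂μ
  set B := ∫ x, v x ∂μ
  set I := ∫ x, F x ∂μ
  have hA : 0 ≤ A := integral_nonneg hu0
  have hB : 0 ≤ B := integral_nonneg hv0
  have hd : discrim A (-(2 * |I|)) B ≤ 0 := by
    apply discrim_le_zero
    intro t
    rcases le_or_gt t 0 with ht | ht
    · have h1 : 0 ≤ A * (t * t) := mul_nonneg hA (mul_self_nonneg t)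
      have h2 : 0 ≤ -(2 * |I|) * t := by
        have := abs_nonneg I
        nlinarith
      linarith
    · have := key t ht
      have h2 : 2 * |I| * t ≤ (t * A + t⁻¹ * B) * t := mul_le_mul_of_nonneg_right this ht.le
      have h3 : (t * A + t⁻¹ * B) * t = A * (t * t) + B := by field_simp
      rw [h3] at h2
      linarith
  unfold discrim at hd
  have : (|I|) ^ 2 = I ^ 2 := sq_abs I
  nlinarith

namespace IsJacobi

variable {w : ℝ → ℝ} {p : ℕ → ℝ[X]} {a b : ℕ → ℝ}

theorem ip_eq (h : IsJacobi w p a b) (m n : ℕ) : ip w (p m) (p n) = if m = n then 1 else 0 :=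
  h.orthonormal m n

theorem ip_self (h : IsJacobi w p a b) (n : ℕ) : ip w (p n) (p n) = 1 := by
  rw [h.ip_eq, if_pos rfl]

theorem ip_ne (h : IsJacobi w p a b) {m n : ℕ} (hmn : m ≠ n) : ip w (p m) (p n) = 0 := by
  rw [h.ip_eq, if_neg hmn]

theorem ne_zero (h : IsJacobi w p a b) (n : ℕ) : p n ≠ 0 := by
  intro h0
  have := h.leadingCoeff_pos n
  rw [h0] at this
  simp at this

theorem ip_low (h : IsJacobi w p a b) (hw : AdmW w) (n : ℕ) :
    ∀ k ≤ n, ∀ q : ℝ[X], q.degree < (k : WithBot ℕ) → ip w q (p n) = 0 := by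
  intro k
  induction k with
  | zero =>
    intro _ q hq
    have : q = 0 := by
      rw [← degree_eq_bot]
      exact Nat.WithBot.lt_zero_iff.1 hq
    rw [this]
    simp [ip]
  | succ k ih =>
    intro hk q hq
    set c := q.coeff k / (p k).leadingCoeff with hc
    have hlc := (h.leadingCoeff_pos k).ne'
    have hdeg : (q - C c * p k).degree < (k : WithBot ℕ) := by
      rw [degree_lt_iff_coeff_zero]
      intro m hm
      rcases Nat.lt_or_ge k m with hm' | hm'
      · have h1 : q.coeff m = 0 := by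
          apply coeff_eq_zero_of_degree_lt
          refine lt_of_lt_of_le hq ?_
          exact_mod_cast hm'
        have h2 : (p k).coeff m = 0 := by
          apply coeff_eq_zero_of_natDegree_lt
          rw [h.natDegree_eq]; exact hm'
        simp [h1, h2]
      · have : m = k := by omega
        subst this
        have h3 : (p m).coeff m = (p m).leadingCoeff := by
          rw [leadingCoeff, h.natDegree_eq]
        simp [h3, hc, hlc]
    have h0 := ih (by omega) _ hdeg
    rw [ip_sub_left hw, ip_C_mul_left, h.ip_ne (by omega : k ≠ n)] at h0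
    linarith

theorem ip_top (h : IsJacobi w p a b) (hw : AdmW w) (n : ℕ) (q : ℝ[X]) (hq : q.natDegree ≤ n) :
    ip w q (p n) = q.coeff n / (p n).leadingCoeff := by
  set c := q.coeff n / (p n).leadingCoeff with hc
  have hlc := (h.leadingCoeff_pos n).ne'
  have hdeg : (q - C c * p n).degree < (n : WithBot ℕ) := by
    rw [degree_lt_iff_coeff_zero]
    intro m hm
    rcases Nat.lt_or_ge n m with hm' | hm'
    · have h1 : q.coeff m = 0 := coeff_eq_zero_of_natDegree_lt (by omega)
      have h2 : (p n).coeff m = 0 := by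
        apply coeff_eq_zero_of_natDegree_lt
        rw [h.natDegree_eq]; exact hm'
      simp [h1, h2]
    · have : m = n := by omega
      subst this
      have h3 : (p m).coeff m = (p m).leadingCoeff := by
        rw [leadingCoeff, h.natDegree_eq]
      simp [h3, hc, hlc]
  have h0 := h.ip_low hw n n le_rfl _ hdeg
  rw [ip_sub_left hw, ip_C_mul_left, h.ip_self] at h0
  linarith

theorem a_eq (h : IsJacobi w p a b) (n : ℕ) :
    a (n + 1) = (p n).leadingCoeff / (p (n + 1)).leadingCoeff := by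
  have h0 : ∀ k, (p k).coeff k = (p k).leadingCoeff := fun k => by
    rw [leadingCoeff, h.natDegree_eq]
  have hz : ∀ k m, k < m → (p k).coeff m = 0 := fun k m hkm =>
    coeff_eq_zero_of_natDegree_lt (by rw [h.natDegree_eq]; exact hkm)
  have hl : ∀ k, (X * p k).coeff (k + 1) = (p k).leadingCoeff := fun k => by
    rw [coeff_X_mul, h0]
  have hlc := (h.leadingCoeff_pos (n + 1)).ne'
  rw [eq_div_iff hlc]
  rcases n with _ | n
  · have := hl 0
    rw [h.rec_zero] at this
    simp only [coeff_add, coeff_C_mul, zero_add] at this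
    rw [hz 0 1 (by omega), h0] at this
    simpa using this
  · have := hl (n + 1)
    rw [h.rec_succ] at this
    simp only [coeff_add, coeff_C_mul] at this
    rw [hz (n + 1) (n + 1 + 1) (by omega), hz n (n + 1 + 1) (by omega), h0] at this
    simpa using this

end IsJacobi

/-- multiplying an admissible weight by a measurable function between two positive constants -/
theorem AdmW.mul {w φ : ℝ → ℝ} (hw : AdmW w) (hφ : Measurable φ) {M : ℝ}
    (h0 : ∀ x, 0 < φ x) (h1 : ∀ x, φ x ≤ M) : AdmW (fun x => φ x * w x) where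
  pos x := mul_pos (h0 x) (hw.pos x)
  meas := hφ.mul hw.meas
  mom n := by
    have : Integrable (fun x => φ x * (x ^ n * w x)) := by
      apply (hw.mom n).bdd_mul (c := M) hφ.aestronglyMeasurable
      refine Eventually.of_forall fun x => ?_
      rw [Real.norm_eq_abs, abs_of_pos (h0 x)]
      exact h1 x
    refine this.congr (Eventually.of_forall fun x => ?_)
    simp only
    ring

theorem AdmW.integrable_phi {w φ : ℝ → ℝ} (hw : AdmW w) (hφ : Measurable φ) {M : ℝ}
    (h0 : ∀ x, 0 < φ x) (h1 : ∀ x, φ x ≤ M) (P : ℝ[X]) :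
    Integrable (fun x => φ x * P.eval x ^ 2 * w x) := by
  have := (hw.mul hφ h0 h1).integrable_sq P
  refine this.congr (Eventually.of_forall fun x => ?_)
  simp only
  ring

section compare

variable {w φ : ℝ → ℝ} {p p' : ℕ → ℝ[X]} {a b a' b' : ℕ → ℝ}

theorem compare_one (hw : AdmW w) (hφ : Measurable φ) {M : ℝ} (h0 : ∀ x, 0 < φ x)
    (h1 : ∀ x, φ x ≤ M) (h : IsJacobi w p a b) (h' : IsJacobi (fun x => φ x * w x) p' a' b')
    (n : ℕ) : ((p n).leadingCoeff / (p' n).leadingCoeff) ^ 2 ≤
      ∫ x, φ x * (p n).eval x ^ 2 * w x := by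
  have hw' := hw.mul hφ h0 h1
  have e := h'.ip_top hw' n (p n) (by rw [h.natDegree_eq])
  have e2 : (p n).coeff n = (p n).leadingCoeff := by rw [leadingCoeff, h.natDegree_eq]
  rw [e2] at e
  rw [← e]
  have hself := h'.ip_self n
  unfold ip at hself ⊢
  have := cs_pointwise (μ := volume) (F := fun x => (p n).eval x * (p' n).eval x * (φ x * w x))
    (hw'.integrable_sq (p n)) (hw'.integrable_sq (p' n))
    (fun x => mul_nonneg (sq_nonneg _) (hw'.pos x).le)
    (fun x => mul_nonneg (sq_nonneg _) (hw'.pos x).le) (fun x => by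
      apply le_of_eq; ring)
  refine this.trans ?_
  have e3 : ∫ x, (p' n).eval x ^ 2 * (φ x * w x) = 1 := by
    rw [← hself]; congr 1; funext x; ring
  rw [e3, mul_one]
  apply le_of_eq
  congr 1; funext x; ring

theorem compare_two (hw : AdmW w) (hφ : Measurable φ) {M m : ℝ} (hm : 0 < m) (h0 : ∀ x, m ≤ φ x)
    (h1 : ∀ x, φ x ≤ M) (h : IsJacobi w p a b) (h' : IsJacobi (fun x => φ x * w x) p' a' b')
    (n : ℕ) : ((p' n).leadingCoeff / (p n).leadingCoeff) ^ 2 ≤
      ∫ x, (φ x)⁻¹ * (p n).eval x ^ 2 * w x := by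
  have hpos : ∀ x, 0 < φ x := fun x => lt_of_lt_of_le hm (h0 x)
  have hw' := hw.mul hφ hpos h1
  have e := h.ip_top hw n (p' n) (by rw [h'.natDegree_eq])
  have e2 : (p' n).coeff n = (p' n).leadingCoeff := by rw [leadingCoeff, h'.natDegree_eq]
  rw [e2] at e
  rw [← e]
  have hself := h'.ip_self n
  unfold ip at hself ⊢
  have hinv : ∀ x, (φ x)⁻¹ ≤ m⁻¹ := fun x => inv_anti₀ hm (h0 x)
  have hmi : Measurable (fun x => (φ x)⁻¹) := hφ.inv
  have := cs_pointwise (μ := volume) (F := fun x => (p' n).eval x * (p n).eval x * w x)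
    (hw'.integrable_sq (p' n))
    (hw.integrable_phi hmi (fun x => inv_pos.2 (hpos x)) hinv (p n))
    (fun x => mul_nonneg (sq_nonneg _) (hw'.pos x).le)
    (fun x => mul_nonneg (mul_nonneg (inv_pos.2 (hpos x)).le (sq_nonneg _)) (hw.pos x).le)
    (fun x => by
      apply le_of_eq
      have := (hpos x).ne'
      field_simp)
  refine this.trans ?_
  have e3 : ∫ x, (p' n).eval x ^ 2 * (φ x * w x) = 1 := by
    rw [← hself]; congr 1; funext x; ring
  rw [e3, one_mul]

/-- Upper bound for the perturbed recurrence coefficient. -/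
theorem ratio_upper (hw : AdmW w) (hφ : Measurable φ) {M m : ℝ} (hm : 0 < m) (h0 : ∀ x, m ≤ φ x)
    (h1 : ∀ x, φ x ≤ M) (h : IsJacobi w p a b) (h' : IsJacobi (fun x => φ x * w x) p' a' b')
    (n : ℕ) : (a' (n + 1) / a (n + 1)) ^ 2 ≤
      (∫ x, φ x * (p (n + 1)).eval x ^ 2 * w x) * ∫ x, (φ x)⁻¹ * (p n).eval x ^ 2 * w x := by
  have hpos : ∀ x, 0 < φ x := fun x => lt_of_lt_of_le hm (h0 x)
  have c1 := compare_one hw hφ hpos h1 h h' (n + 1)
  have c2 := compare_two hw hφ hm h0 h1 h h' n
  rw [h.a_eq, h'.a_eq]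
  have l1 := h.leadingCoeff_pos n
  have l2 := h.leadingCoeff_pos (n + 1)
  have l3 := h'.leadingCoeff_pos n
  have l4 := h'.leadingCoeff_pos (n + 1)
  have : ((p' n).leadingCoeff / (p' (n + 1)).leadingCoeff /
      ((p n).leadingCoeff / (p (n + 1)).leadingCoeff)) ^ 2 =
      ((p (n + 1)).leadingCoeff / (p' (n + 1)).leadingCoeff) ^ 2 *
      ((p' n).leadingCoeff / (p n).leadingCoeff) ^ 2 := by
    field_simp
  rw [this]
  exact mul_le_mul c1 c2 (sq_nonneg _) ((sq_nonneg _).trans c1)

/-- Lower bound for the perturbed recurrence coefficient. -/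
theorem ratio_lower (hw : AdmW w) (hφ : Measurable φ) {M m : ℝ} (hm : 0 < m) (h0 : ∀ x, m ≤ φ x)
    (h1 : ∀ x, φ x ≤ M) (h : IsJacobi w p a b) (h' : IsJacobi (fun x => φ x * w x) p' a' b')
    (n : ℕ) : (a (n + 1) / a' (n + 1)) ^ 2 ≤
      (∫ x, (φ x)⁻¹ * (p (n + 1)).eval x ^ 2 * w x) * ∫ x, φ x * (p n).eval x ^ 2 * w x := by
  have hpos : ∀ x, 0 < φ x := fun x => lt_of_lt_of_le hm (h0 x)
  have c1 := compare_two hw hφ hm h0 h1 h h' (n + 1)
  have c2 := compare_one hw hφ hpos h1 h h' n
  rw [h.a_eq, h'.a_eq]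
  have l1 := h.leadingCoeff_pos n
  have l2 := h.leadingCoeff_pos (n + 1)
  have l3 := h'.leadingCoeff_pos n
  have l4 := h'.leadingCoeff_pos (n + 1)
  have : ((p n).leadingCoeff / (p (n + 1)).leadingCoeff /
      ((p' n).leadingCoeff / (p' (n + 1)).leadingCoeff)) ^ 2 =
      ((p' (n + 1)).leadingCoeff / (p (n + 1)).leadingCoeff) ^ 2 *
      ((p n).leadingCoeff / (p' n).leadingCoeff) ^ 2 := by
    field_simp
  rw [this]
  exact mul_le_mul c1 c2 (sq_nonneg _) ((sq_nonneg _).trans c1)

end compare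

end Pool.Agent.Helper93
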