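import Mathlib
import Pool.Agent.Helper93.Ratio

open Polynomial MeasureTheory Filter Topology

namespace Pool.Agent.Helper93

/-- The Chebyshev values `T_j(y)` are not square summable. -/
theorem cheb_sum_atTop (y : ℝ) :
    Tendsto (fun N : ℕ => ∑ j ∈ Finset.range N, ((Chebyshev.T ℝ (j : ℤ)).eval y) ^ 2)
      atTop atTop := by
  rw [← not_summable_iff_tendsto_nat_atTop_of_nonneg (fun _ => sq_nonneg _)]
  intro hs
  have h0 := hs.tendsto_atTop_zero
  have h1 : Tendsto (fun j : ℕ => (Chebyshev.T ℝ (j : ℤ)).eval y) atTop (𝓝 0) := by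
    have := h0.sqrt
    simp only [Real.sqrt_zero, Real.sqrt_sq_eq_abs] at this
    exact (tendsto_zero_iff_abs_tendsto_zero _).2 this
  have h2 : Tendsto (fun j : ℕ => (Chebyshev.T ℝ ((2 * j : ℕ) : ℤ)).eval y) atTop (𝓝 0) :=
    h1.comp (tendsto_id.const_mul_atTop' (by norm_num : 0 < 2))
  have h3 : (fun j : ℕ => (Chebyshev.T ℝ ((2 * j : ℕ) : ℤ)).eval y) =
      fun j : ℕ => 2 * ((Chebyshev.T ℝ (j : ℤ)).eval y) ^ 2 - 1 := by
    funext j
    have := congrArg (Polynomial.eval y) (Chebyshev.T_mul_T ℝ (j : ℤ) (j : ℤ))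
    simp only [eval_mul, eval_add, sub_self, Chebyshev.T_zero, eval_one, eval_ofNat] at this
    have e : ((2 * j : ℕ) : ℤ) = (j : ℤ) + j := by push_cast; ring
    rw [e]
    nlinarith
  rw [h3] at h2
  have h4 : Tendsto (fun j : ℕ => 2 * ((Chebyshev.T ℝ (j : ℤ)).eval y) ^ 2 - 1) atTop
      (𝓝 (2 * 0 - 1)) := (h0.const_mul 2).sub_const 1
  have := tendsto_nhds_unique h2 h4
  norm_num at this

variable {w : ℝ → ℝ} {p : ℕ → ℝ[X]} {a b : ℕ → ℝ}

theorem ip_sum_left (hw : AdmW w) (s : Finset ℕ) (f : ℕ → ℝ[X]) (Q : ℝ[X]) :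
    ip w (∑ i ∈ s, f i) Q = ∑ i ∈ s, ip w (f i) Q := by
  classical
  induction s using Finset.induction_on with
  | empty => simp [ip]
  | insert i s hi ih => rw [Finset.sum_insert hi, Finset.sum_insert hi, ip_add_left hw, ih]

theorem IsJacobi.ip_sum_sq (h : IsJacobi w p a b) (hw : AdmW w) (s : Finset ℕ) (c : ℕ → ℝ) :
    ip w (∑ i ∈ s, C (c i) * p i) (∑ i ∈ s, C (c i) * p i) = ∑ i ∈ s, c i ^ 2 := by
  classical
  rw [ip_sum_left hw]
  refine Finset.sum_congr rfl fun i hi => ?_
  rw [ip_C_mul_left, ip_comm, ip_sum_left hw, Finset.sum_eq_single i]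
  · rw [ip_C_mul_left, h.ip_self]; ring
  · intro j _ hj
    rw [ip_C_mul_left, h.ip_ne hj]; ring
  · intro hi'; exact absurd hi hi'

/-- localized Gram matrix -/
noncomputable def G (w : ℝ → ℝ) (p : ℕ → ℝ[X]) (R : ℝ) (n m : ℕ) : ℝ :=
  ∫ x in Set.Icc (-R) R, (p n).eval x * (p m).eval x * w x

theorem G_self_nonneg (hw : AdmW w) (R : ℝ) (n : ℕ) : 0 ≤ G w p R n n := by
  apply integral_nonneg
  intro x
  exact mul_nonneg (mul_self_nonneg _) (hw.pos x).le

theorem G_self_le_one (hw : AdmW w) (h : IsJacobi w p a b) (R : ℝ) (n : ℕ) :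
    G w p R n n ≤ 1 := by
  rw [← h.ip_self n]
  apply setIntegral_le_integral (hw.integrable_mul _ _)
  exact Eventually.of_forall fun x => mul_nonneg (mul_self_nonneg _) (hw.pos x).le

theorem E_sq_le (hw : AdmW w) (h : IsJacobi w p a b) {R : ℝ} (hR : 0 ≤ R) (g : ℝ → ℝ)
    (hg : ∀ x ∈ Set.Icc (-R) R, |g x| ≤ R) (n m : ℕ) :
    |∫ x in Set.Icc (-R) R, g x * ((p n).eval x * (p m).eval x * w x)| ≤ R := by
  have key := cs_pointwise (μ := volume.restrict (Set.Icc (-R) R))
    (u := fun x => R * ((p n).eval x ^ 2 * w x)) (v := fun x => R * ((p m).eval x ^ 2 * w x))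
    (F := fun x => (Set.Icc (-R) R).indicator
      (fun x => g x * ((p n).eval x * (p m).eval x * w x)) x)
    ((hw.integrable_sq (p n)).restrict.const_mul R) ((hw.integrable_sq (p m)).restrict.const_mul R)
    (fun x => mul_nonneg hR (mul_nonneg (sq_nonneg _) (hw.pos x).le))
    (fun x => mul_nonneg hR (mul_nonneg (sq_nonneg _) (hw.pos x).le))
    (fun x => by
      by_cases hx : x ∈ Set.Icc (-R) R
      · rw [Set.indicator_of_mem hx]
        have h1 : g x ^ 2 ≤ R ^ 2 := sq_le_sq' (by linarith [(abs_le.1 (hg x hx)).1])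
          (abs_le.1 (hg x hx)).2
        have h2 : 0 ≤ ((p n).eval x * (p m).eval x * w x) ^ 2 := sq_nonneg _
        calc (g x * ((p n).eval x * (p m).eval x * w x)) ^ 2
            = g x ^ 2 * ((p n).eval x * (p m).eval x * w x) ^ 2 := by ring
          _ ≤ R ^ 2 * ((p n).eval x * (p m).eval x * w x) ^ 2 :=
              mul_le_mul_of_nonneg_right h1 h2
          _ = _ := by ring
      · rw [Set.indicator_of_notMem hx]
        have : 0 ≤ R * ((p n).eval x ^ 2 * w x) * (R * ((p m).eval x ^ 2 * w x)) :=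
          mul_nonneg (mul_nonneg hR (mul_nonneg (sq_nonneg _) (hw.pos x).le))
            (mul_nonneg hR (mul_nonneg (sq_nonneg _) (hw.pos x).le))
        simpa using this)
  have e1 : ∫ x in Set.Icc (-R) R, (Set.Icc (-R) R).indicator
      (fun x => g x * ((p n).eval x * (p m).eval x * w x)) x =
      ∫ x in Set.Icc (-R) R, g x * ((p n).eval x * (p m).eval x * w x) := by
    rw [setIntegral_indicator measurableSet_Icc, Set.inter_self]
  rw [e1, integral_const_mul, integral_const_mul] at key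
  have b1 : ∀ k, ∫ x in Set.Icc (-R) R, (p k).eval x ^ 2 * w x ≤ 1 := fun k => by
    have := G_self_le_one hw h R k
    unfold G at this
    simpa [sq] using this
  have b0 : ∀ k, 0 ≤ ∫ x in Set.Icc (-R) R, (p k).eval x ^ 2 * w x := fun k => by
    apply integral_nonneg
    intro x
    exact mul_nonneg (sq_nonneg _) (hw.pos x).le
  apply abs_le_of_sq_le_sq _ hR
  refine key.trans ?_
  have h3 : R * (∫ x in Set.Icc (-R) R, (p n).eval x ^ 2 * w x) ≤ R * 1 :=
    mul_le_mul_of_nonneg_left (b1 n) hR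
  have h4 : R * (∫ x in Set.Icc (-R) R, (p m).eval x ^ 2 * w x) ≤ R * 1 :=
    mul_le_mul_of_nonneg_left (b1 m) hR
  calc _ ≤ (R * 1) * (R * 1) := mul_le_mul h3 h4 (mul_nonneg hR (b0 m)) (by linarith)
    _ = R ^ 2 := by ring

theorem bessel (hw : AdmW w) (h : IsJacobi w p a b) (R : ℝ) (n : ℕ) (s : Finset ℕ) :
    ∑ m ∈ s, G w p R n m ^ 2 ≤ G w p R n n := by
  set q : ℝ[X] := ∑ m ∈ s, C (G w p R n m) * p m with hq
  have h1 : ip w q q = ∑ m ∈ s, G w p R n m ^ 2 := h.ip_sum_sq hw s _
  have h2 : ∫ x in Set.Icc (-R) R, (p n).eval x * q.eval x * w x =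
      ∑ m ∈ s, G w p R n m ^ 2 := by
    have : (fun x => (p n).eval x * q.eval x * w x) =
        fun x => ∑ m ∈ s, G w p R n m * ((p n).eval x * (p m).eval x * w x) := by
      funext x
      rw [hq, eval_finsetSum, Finset.mul_sum, Finset.sum_mul]
      refine Finset.sum_congr rfl fun m _ => ?_
      simp only [eval_mul, eval_C]
      ring
    rw [this, integral_finsetSum]
    · refine Finset.sum_congr rfl fun m _ => ?_
      rw [integral_const_mul, G, sq]
    · intro m _
      exact (hw.integrable_mul _ _).restrict.const_mul _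
  have key := cs_pointwise (μ := volume.restrict (Set.Icc (-R) R))
    (u := fun x => (p n).eval x ^ 2 * w x) (v := fun x => q.eval x ^ 2 * w x)
    (F := fun x => (p n).eval x * q.eval x * w x)
    (hw.integrable_sq (p n)).restrict (hw.integrable_sq q).restrict
    (fun x => (mul_nonneg (sq_nonneg _) (hw.pos x).le))
    (fun x => (mul_nonneg (sq_nonneg _) (hw.pos x).le))
    (fun x => by apply le_of_eq; ring)
  rw [h2] at key
  have h3 : ∫ x in Set.Icc (-R) R, q.eval x ^ 2 * w x ≤ ∑ m ∈ s, G w p R n m ^ 2 := by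
    rw [← h1]
    have := setIntegral_le_integral (s := Set.Icc (-R) R) (hw.integrable_sq q)
      (Eventually.of_forall fun x => mul_nonneg (sq_nonneg _) (hw.pos x).le)
    refine this.trans (le_of_eq ?_)
    unfold ip
    congr 1; funext x; ring
  have h4 : ∫ x in Set.Icc (-R) R, (p n).eval x ^ 2 * w x = G w p R n n := by
    unfold G; congr 1; funext x; ring
  rw [h4] at key
  set S := ∑ m ∈ s, G w p R n m ^ 2
  have hS : 0 ≤ S := Finset.sum_nonneg fun _ _ => sq_nonneg _
  have hG := G_self_nonneg (p := p) hw R n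
  rcases hS.eq_or_lt with h0 | h0
  · rw [← h0]; exact hG
  · have : S ^ 2 ≤ G w p R n n * S := key.trans (mul_le_mul_of_nonneg_left h3 hG)
    nlinarith

theorem G_abs_le_one (hw : AdmW w) (h : IsJacobi w p a b) (R : ℝ) (n m : ℕ) :
    |G w p R n m| ≤ 1 := by
  have := bessel hw h R n {m}
  rw [Finset.sum_singleton] at this
  have h1 := G_self_le_one hw h R n
  apply abs_le_of_sq_le_sq _ zero_le_one
  nlinarith

theorem G_rec (hw : AdmW w) (h : IsJacobi w p a b) (R : ℝ) (n m : ℕ) :
    a (m + 2) * G w p R n (m + 2) + b (m + 1) * G w p R n (m + 1) + a (m + 1) * G w p R n m =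
      ∫ x in Set.Icc (-R) R, x * ((p n).eval x * (p (m + 1)).eval x * w x) := by
  unfold G
  rw [← integral_const_mul, ← integral_const_mul, ← integral_const_mul, ← integral_add,
    ← integral_add]
  · congr 1
    funext x
    have := congrArg (Polynomial.eval x) (h.rec_succ m)
    simp only [eval_mul, eval_X, eval_add, eval_C] at this
    calc _ = (p n).eval x * w x * (a (m + 2) * (p (m + 2)).eval x +
          b (m + 1) * (p (m + 1)).eval x + a (m + 1) * (p m).eval x) := by ring
      _ = _ := by rw [← this]; ring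
  · exact ((hw.integrable_mul _ _).restrict.const_mul _).add
      ((hw.integrable_mul _ _).restrict.const_mul _)
  · exact ((hw.integrable_mul _ _).restrict.const_mul _)
  · exact ((hw.integrable_mul _ _).restrict.const_mul _)
  · exact ((hw.integrable_mul _ _).restrict.const_mul _)

end Pool.Agent.Helper93
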