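import Mathlib
import Pool.Agent.Helper93.Mass

open Polynomial MeasureTheory Filter Topology

namespace Pool.Agent.Helper93

variable {w : ℝ → ℝ} {p : ℕ → ℝ[X]} {a b : ℕ → ℝ} {β : ℝ}

/-- shifted index -/
def sh (n : ℕ) (j : ℤ) : ℕ := ((n : ℤ) + j).toNat

theorem tendsto_sh (j : ℤ) : Tendsto (fun n => sh n j) atTop atTop := by
  rw [tendsto_atTop]
  intro B
  filter_upwards [eventually_ge_atTop (B + j.natAbs)] with n hn
  unfold sh
  omega

theorem tendsto_shift (ha : Tendsto a atTop atTop)
    (ha1 : Tendsto (fun n => a (n + 1) / a n) atTop (𝓝 1)) (j : ℤ) :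
    Tendsto (fun n => a (sh n j) / a n) atTop (𝓝 1) := by
  have hpos : ∀ᶠ n in atTop, 0 < a n := ha.eventually_gt_atTop 0
  have nat : ∀ k : ℕ, Tendsto (fun n => a (n + k) / a n) atTop (𝓝 1) := by
    intro k
    induction k with
    | zero =>
      have : ∀ᶠ n in atTop, a (n + 0) / a n = 1 := by
        filter_upwards [hpos] with n hn
        simp [hn.ne']
      exact (tendsto_congr' this).2 tendsto_const_nhds
    | succ k ih =>
      have h1 : Tendsto (fun n => a (n + k + 1) / a (n + k)) atTop (𝓝 1) :=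
        ha1.comp (tendsto_add_atTop_nat k)
      have h2 := h1.mul ih
      rw [one_mul] at h2
      refine h2.congr' ?_
      have hpos' : ∀ᶠ n in atTop, 0 < a (n + k) := (tendsto_add_atTop_nat k).eventually hpos
      filter_upwards [hpos, hpos'] with n hn hn'
      rw [← add_assoc]
      field_simp
  rcases Int.eq_nat_or_neg j with ⟨k, hk | hk⟩
  · refine (nat k).congr fun n => ?_
    have : sh n j = n + k := by unfold sh; omega
    rw [this]
  · have h1 : Tendsto (fun n => (a (n + k) / a n)⁻¹) atTop (𝓝 1) := by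
      simpa using (nat k).inv₀ one_ne_zero
    have h2 := h1.comp (tendsto_sh j)
    refine h2.congr' ?_
    filter_upwards [eventually_ge_atTop k] with n hn
    have : sh n j + k = n := by unfold sh; omega
    simp only [Function.comp]
    rw [this, inv_div]

theorem approx_rec (hw : AdmW w) (h : IsJacobi w p a b) (ha : Tendsto a atTop atTop)
    (ha1 : Tendsto (fun n => a (n + 1) / a n) atTop (𝓝 1))
    (hb : Tendsto (fun n => b n / a n) atTop (𝓝 β)) {R : ℝ} (hR : 0 ≤ R) (j : ℤ) :
    Tendsto (fun n => G w p R n (sh n (j + 1)) + β * G w p R n (sh n j) +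
      G w p R n (sh n (j - 1))) atTop (𝓝 0) := by
  have hpos : ∀ᶠ n in atTop, 0 < a n := ha.eventually_gt_atTop 0
  -- E / a n → 0
  have hE : Tendsto (fun n => (∫ x in Set.Icc (-R) R,
      x * ((p n).eval x * (p (sh n j)).eval x * w x)) / a n) atTop (𝓝 0) := by
    have : Tendsto (fun n => R / a n) atTop (𝓝 0) := tendsto_const_nhds.div_atTop ha
    refine squeeze_zero_norm' ?_ this
    filter_upwards [hpos] with n hn
    rw [norm_div, Real.norm_eq_abs, Real.norm_eq_abs, abs_of_pos hn]
    apply div_le_div_of_nonneg_right _ hn.le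
    exact E_sq_le hw h hR (fun x => x) (fun x hx => abs_le.2 ⟨hx.1, hx.2⟩) n _
  have bdd : ∀ i : ℤ, ∀ f : ℕ → ℝ, Tendsto f atTop (𝓝 0) →
      Tendsto (fun n => f n * G w p R n (sh n i)) atTop (𝓝 0) := by
    intro i f hf
    refine squeeze_zero_norm' (a := fun n => |f n|) ?_ (by simpa using hf.abs)
    refine Eventually.of_forall fun n => ?_
    rw [norm_mul, Real.norm_eq_abs, Real.norm_eq_abs]
    have := G_abs_le_one hw h R n (sh n i)
    nlinarith [abs_nonneg (f n)]
  have A1 : Tendsto (fun n => a (sh n (j + 1)) / a n - 1) atTop (𝓝 0) := by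
    simpa using (tendsto_shift ha ha1 (j + 1)).sub_const 1
  have A0 : Tendsto (fun n => a (sh n j) / a n - 1) atTop (𝓝 0) := by
    simpa using (tendsto_shift ha ha1 j).sub_const 1
  have B0 : Tendsto (fun n => b (sh n j) / a n - β) atTop (𝓝 0) := by
    have h1 := (hb.comp (tendsto_sh j)).mul (tendsto_shift ha ha1 j)
    have h2 : Tendsto (fun n => b (sh n j) / a n) atTop (𝓝 (β * 1)) := by
      refine h1.congr' ?_
      filter_upwards [hpos, (tendsto_sh j).eventually hpos] with n hn hn'
      simp only [Function.comp]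
      field_simp
    simpa using h2.sub_const β
  have := ((hE.sub (bdd (j + 1) _ A1)).sub (bdd j _ B0)).sub (bdd (j - 1) _ A0)
  simp only [sub_zero] at this
  refine this.congr' ?_
  filter_upwards [hpos, eventually_ge_atTop (j.natAbs + 2)] with n hn hn2
  obtain ⟨m, hm⟩ : ∃ m, sh n (j - 1) = m := ⟨_, rfl⟩
  have hm1 : sh n j = m + 1 := by unfold sh at *; omega
  have hm2 : sh n (j + 1) = m + 2 := by unfold sh at *; omega
  rw [hm, hm1, hm2, ← G_rec hw h R n m]
  field_simp
  ring

theorem cheb_limit (hw : AdmW w) (h : IsJacobi w p a b) (ha : Tendsto a atTop atTop)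
    (ha1 : Tendsto (fun n => a (n + 1) / a n) atTop (𝓝 1))
    (hb : Tendsto (fun n => b n / a n) atTop (𝓝 β)) {R : ℝ} (hR : 0 ≤ R) (j : ℕ) :
    Tendsto (fun n => G w p R n (sh n j) + G w p R n (sh n (-j)) -
      (Chebyshev.T ℝ (j : ℤ)).eval (-β / 2) * (2 * G w p R n n)) atTop (𝓝 0) := by
  set s : ℤ → ℕ → ℝ := fun j n => G w p R n (sh n j) + G w p R n (sh n (-j)) with hs
  have hs0 : ∀ n, s 0 n = 2 * G w p R n n := by
    intro n
    have : sh n 0 = n := by unfold sh; omega
    simp only [hs, neg_zero, this]; ring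
  have hsneg : ∀ j n, s (-j) n = s j n := by
    intro j n; simp only [hs, neg_neg]; ring
  have hrec : ∀ j : ℤ, Tendsto (fun n => s (j + 1) n + β * s j n + s (j - 1) n) atTop (𝓝 0) := by
    intro j
    have h1 := approx_rec hw h ha ha1 hb hR j
    have h2 := approx_rec hw h ha ha1 hb hR (-j)
    have := h1.add h2
    rw [add_zero] at this
    refine this.congr fun n => ?_
    have e1 : -j + 1 = -(j - 1) := by ring
    have e2 : -j - 1 = -(j + 1) := by ring
    rw [e1, e2]
    simp only [hs]
    ring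
  have main : ∀ j : ℕ, Tendsto (fun n => s j n - (Chebyshev.T ℝ (j : ℤ)).eval (-β / 2) * s 0 n)
      atTop (𝓝 0) ∧ Tendsto (fun n => s (j + 1) n -
        (Chebyshev.T ℝ ((j : ℤ) + 1)).eval (-β / 2) * s 0 n) atTop (𝓝 0) := by
    intro j
    induction j with
    | zero =>
      constructor
      · simp
      · have h0 := hrec 0
        have : (fun n => s (0 + 1) n + β * s 0 n + s (0 - 1) n) =
            fun n => 2 * (s (0 + 1) n - (-β / 2) * s 0 n) := by
          funext n
          have e : (0 : ℤ) - 1 = -(0 + 1) := by ring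
          rw [e, hsneg]
          ring
        rw [this] at h0
        have h1 := h0.const_mul (1 / 2)
        simp only [mul_zero] at h1
        refine h1.congr fun n => ?_
        simp
    | succ j ih =>
      refine ⟨by simpa using ih.2, ?_⟩
      have h0 := hrec (j + 1)
      have h1 := (h0.sub (ih.2.const_mul β)).sub ih.1
      simp only [mul_zero, sub_zero] at h1
      refine h1.congr fun n => ?_
      have e1 : (j : ℤ) + 1 + 1 = j + 2 := by ring
      have e2 : (j : ℤ) + 1 - 1 = j := by ring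
      push_cast
      rw [e1, e2, Chebyshev.T_add_two]
      simp only [eval_sub, eval_mul, eval_ofNat, eval_X]
      ring
  have := (main j).1
  refine this.congr fun n => ?_
  rw [hs0]

/-- Mass escapes from compact sets. -/
theorem mass_escape (hw : AdmW w) (h : IsJacobi w p a b) (ha : Tendsto a atTop atTop)
    (ha1 : Tendsto (fun n => a (n + 1) / a n) atTop (𝓝 1))
    (hb : Tendsto (fun n => b n / a n) atTop (𝓝 β)) {R : ℝ} (hR : 0 ≤ R) :
    Tendsto (fun n => G w p R n n) atTop (𝓝 0) := by
  rw [Metric.tendsto_atTop]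
  intro ε hε
  set T : ℕ → ℝ := fun j => (Chebyshev.T ℝ (j : ℤ)).eval (-β / 2) with hT
  obtain ⟨N, hN⟩ := ((cheb_sum_atTop (-β / 2)).eventually_gt_atTop (10 / (4 * ε ^ 2))).exists
  have hsum : Tendsto (fun n => ∑ j ∈ Finset.range N,
      (G w p R n (sh n j) + G w p R n (sh n (-j)) - T j * (2 * G w p R n n)) ^ 2)
      atTop (𝓝 0) := by
    have : Tendsto (fun n => ∑ j ∈ Finset.range N,
      (G w p R n (sh n j) + G w p R n (sh n (-j)) - T j * (2 * G w p R n n)) ^ 2)
      atTop (𝓝 (∑ j ∈ Finset.range N, (0 : ℝ) ^ 2)) :=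
      tendsto_finsetSum _ fun j _ => (cheb_limit hw h ha ha1 hb hR j).pow 2
    simpa using this
  have hev := (hsum.eventually_lt_const zero_lt_one).and (eventually_ge_atTop N)
  obtain ⟨n0, hn0⟩ := eventually_atTop.1 hev
  refine ⟨n0, fun n hn => ?_⟩
  obtain ⟨h1, h2⟩ := hn0 n hn
  have hG0 := G_self_nonneg (p := p) hw R n
  have hG1 := G_self_le_one hw h R n
  rw [Real.dist_eq, sub_zero, abs_of_nonneg hG0]
  -- Bessel for both sides
  have bp : ∑ j ∈ Finset.range N, G w p R n (sh n j) ^ 2 ≤ G w p R n n := by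
    have := bessel hw h R n ((Finset.range N).image (fun j : ℕ => sh n j))
    rwa [Finset.sum_image] at this
    intro i _ j _ hij
    simp only [sh] at hij
    omega
  have bm : ∑ j ∈ Finset.range N, G w p R n (sh n (-j)) ^ 2 ≤ G w p R n n := by
    have := bessel hw h R n ((Finset.range N).image (fun j : ℕ => sh n (-j)))
    rwa [Finset.sum_image] at this
    intro i hi j hj hij
    simp only [sh] at hij
    simp only [Finset.coe_range, Set.mem_Iio] at hi hj
    omega
  have hle : ∑ j ∈ Finset.range N, (T j * (2 * G w p R n n)) ^ 2 ≤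
      ∑ j ∈ Finset.range N, (4 * G w p R n (sh n j) ^ 2 + 4 * G w p R n (sh n (-j)) ^ 2 +
        2 * (G w p R n (sh n j) + G w p R n (sh n (-j)) - T j * (2 * G w p R n n)) ^ 2) := by
    refine Finset.sum_le_sum fun j _ => ?_
    set u := G w p R n (sh n j)
    set v := G w p R n (sh n (-j))
    set t := T j * (2 * G w p R n n)
    nlinarith [sq_nonneg (u - v), sq_nonneg (2 * (u + v) - t)]
  rw [Finset.sum_add_distrib, Finset.sum_add_distrib, ← Finset.mul_sum, ← Finset.mul_sum,
    ← Finset.mul_sum] at hle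
  have hl2 : ∑ j ∈ Finset.range N, (T j * (2 * G w p R n n)) ^ 2 =
      4 * G w p R n n ^ 2 * ∑ j ∈ Finset.range N, T j ^ 2 := by
    rw [Finset.mul_sum]
    refine Finset.sum_congr rfl fun j _ => ?_
    ring
  rw [hl2] at hle
  by_contra hcon
  push Not at hcon
  have h3 : 4 * ε ^ 2 * (10 / (4 * ε ^ 2)) < 4 * G w p R n n ^ 2 *
      ∑ j ∈ Finset.range N, T j ^ 2 := by
    have hsq : ε ^ 2 ≤ G w p R n n ^ 2 := by nlinarith
    have hS : 0 ≤ ∑ j ∈ Finset.range N, T j ^ 2 := Finset.sum_nonneg fun _ _ => sq_nonneg _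
    calc 4 * ε ^ 2 * (10 / (4 * ε ^ 2)) < 4 * ε ^ 2 * ∑ j ∈ Finset.range N, T j ^ 2 :=
          mul_lt_mul_of_pos_left hN (by positivity)
      _ ≤ _ := mul_le_mul_of_nonneg_right (by linarith) hS
  have h4 : 4 * ε ^ 2 * (10 / (4 * ε ^ 2)) = 10 := by field_simp
  rw [h4] at h3
  linarith

end Pool.Agent.Helper93
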