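import Mathlib
import Pool.Agent.Helper93.Mass2

open Polynomial MeasureTheory Filter Topology

namespace Pool.Agent.Helper93

variable {w : ℝ → ℝ} {p : ℕ → ℝ[X]} {a b : ℕ → ℝ} {β : ℝ}

/-- The `L²` distance between `|p_{n+1}|` and `|p_n|`. -/
noncomputable def Dv (w : ℝ → ℝ) (p : ℕ → ℝ[X]) (n : ℕ) : ℝ :=
  ∫ x, (|(p (n + 1)).eval x| - |(p n).eval x|) ^ 2 * w x

theorem Dv_nonneg (hw : AdmW w) (n : ℕ) : 0 ≤ Dv w p n :=
  integral_nonneg fun x => mul_nonneg (sq_nonneg _) (hw.pos x).le

theorem integrable_abs_mul (hw : AdmW w) (P Q : ℝ[X]) :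
    Integrable (fun x => |P.eval x| * |Q.eval x| * w x) := by
  have := (hw.integrable_mul P Q).abs
  refine this.congr (Eventually.of_forall fun x => ?_)
  simp only [abs_mul, abs_of_pos (hw.pos x)]

theorem integrable_Dv (hw : AdmW w) (P Q : ℝ[X]) :
    Integrable (fun x => (|P.eval x| - |Q.eval x|) ^ 2 * w x) := by
  have := ((hw.integrable_sq P).add (hw.integrable_sq Q)).sub
    ((integrable_abs_mul hw P Q).const_mul 2)
  refine this.congr (Eventually.of_forall fun x => ?_)
  simp only [Pi.add_apply, Pi.sub_apply]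
  have h1 := sq_abs (P.eval x)
  have h2 := sq_abs (Q.eval x)
  rw [← h1, ← h2]
  ring

theorem pointwise_bound (P U V Y A0 A1 : ℝ) (h0 : 0 < A0) (h1 : 0 < A1)
    (hrec : Y * P = A1 * U + A0 * V) :
    Y ^ 2 * ((A0 + A1) ^ 2 - Y ^ 2) * P ^ 2 ≤ 2 * (A0 + A1) ^ 3 *
      (|P| * (A1 * |(|U| - |P|)| + A0 * |(|V| - |P|)| + |A1 - A0| * |P|)) := by
  set S := A0 + A1 with hS
  have hSpos : 0 < S := by positivity
  have hR : 0 ≤ 2 * S ^ 3 *
      (|P| * (A1 * |(|U| - |P|)| + A0 * |(|V| - |P|)| + |A1 - A0| * |P|)) := by positivity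
  rcases lt_or_ge S |Y| with hY | hY
  · have : S ^ 2 - Y ^ 2 < 0 := by
      rw [← sq_abs Y]; nlinarith
    have h2 : Y ^ 2 * (S ^ 2 - Y ^ 2) * P ^ 2 ≤ 0 := by
      have h3 : 0 ≤ Y ^ 2 * P ^ 2 := by positivity
      nlinarith
    linarith
  · set E := A1 * |(|U| - |P|)| + A0 * |(|V| - |P|)| with hE
    have hE0 : 0 ≤ E := by positivity
    have hYP : |Y| * |P| = |A1 * U + A0 * V| := by rw [← hrec, abs_mul]
    have u1 := le_abs_self (|U| - |P|)
    have u2 := neg_abs_le (|U| - |P|)
    have v1 := le_abs_self (|V| - |P|)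
    have v2 := neg_abs_le (|V| - |P|)
    have hP0 := abs_nonneg P
    have hY0 := abs_nonneg Y
    have e1 : Y ^ 2 * (S ^ 2 - Y ^ 2) * P ^ 2 =
        |Y| * (S + |Y|) * |P| * (|Y| * ((S - |Y|) * |P|)) := by
      rw [← sq_abs Y, ← sq_abs P]; ring
    rcases le_or_gt 0 (U * V) with hUV | hUV
    · -- same sign
      have h2 : |A1 * U + A0 * V| = A1 * |U| + A0 * |V| := by
        rcases le_total 0 U with hU | hU
        · rcases hU.eq_or_lt with hU0 | hU0
          · rw [← hU0]; simp [abs_mul, abs_of_pos h0]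
          · have hV : 0 ≤ V := nonneg_of_mul_nonneg_right hUV hU0
            rw [abs_of_nonneg hU, abs_of_nonneg hV, abs_of_nonneg (by positivity)]
        · rcases hU.eq_or_lt with hU0 | hU0
          · rw [hU0]; simp [abs_mul, abs_of_pos h0]
          · have hV : V ≤ 0 := by
              by_contra hV
              push Not at hV
              nlinarith
            rw [abs_of_nonpos hU, abs_of_nonpos hV, abs_of_nonpos (by nlinarith)]
            ring
      have h3 : (S - |Y|) * |P| ≤ E := by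
        have : (S - |Y|) * |P| = -(A1 * (|U| - |P|) + A0 * (|V| - |P|)) := by
          rw [sub_mul, hYP, h2, hS]; ring
        rw [this, hE]
        nlinarith
      have h4 : |Y| * ((S - |Y|) * |P|) ≤ S * E := by
        have : 0 ≤ (S - |Y|) * |P| := mul_nonneg (by linarith) hP0
        exact mul_le_mul hY h3 this hSpos.le
      have h5 : |Y| * (S + |Y|) * |P| ≤ S * (S + S) * |P| := by
        apply mul_le_mul_of_nonneg_right _ hP0
        exact mul_le_mul hY (by linarith) (by positivity) hSpos.le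
      rw [e1]
      calc |Y| * (S + |Y|) * |P| * (|Y| * ((S - |Y|) * |P|))
          ≤ (S * (S + S) * |P|) * (S * E) :=
            mul_le_mul h5 h4 (mul_nonneg hY0 (mul_nonneg (by linarith) hP0)) (by positivity)
        _ = 2 * S ^ 3 * (|P| * E) := by ring
        _ ≤ 2 * S ^ 3 * (|P| * (E + |A1 - A0| * |P|)) := by
            apply mul_le_mul_of_nonneg_left _ (by positivity)
            apply mul_le_mul_of_nonneg_left _ hP0
            have : 0 ≤ |A1 - A0| * |P| := by positivity
            linarith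
    · -- opposite sign
      have h2 : |A1 * U + A0 * V| ≤ |A1 - A0| * |P| + E := by
        have h21 : |A1 * U + A0 * V| = |(A1 * |U| - A0 * |V|)| := by
          rcases lt_or_ge U 0 with hU | hU
          · have hV : 0 < V := by
              by_contra hV
              push Not at hV
              nlinarith
            rw [abs_of_neg hU, abs_of_pos hV, ← abs_neg]
            congr 1; ring
          · have hV : V < 0 := by
              by_contra hV
              push Not at hV
              nlinarith [mul_nonneg hU hV]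
            rw [abs_of_nonneg hU, abs_of_neg hV]
            congr 1; ring
        rw [h21]
        have h22 : A1 * |U| - A0 * |V| =
            (A1 - A0) * |P| + (A1 * (|U| - |P|) + -(A0 * (|V| - |P|))) := by ring
        rw [h22]
        calc |((A1 - A0) * |P| + (A1 * (|U| - |P|) + -(A0 * (|V| - |P|))))|
            ≤ |((A1 - A0) * |P|)| + |(A1 * (|U| - |P|) + -(A0 * (|V| - |P|)))| := abs_add_le _ _
          _ ≤ |((A1 - A0) * |P|)| + (|(A1 * (|U| - |P|))| + |(-(A0 * (|V| - |P|)))|) := by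
              gcongr; exact abs_add_le _ _
          _ = _ := by
              rw [abs_neg, abs_mul, abs_mul, abs_mul, abs_abs, abs_of_pos h0, abs_of_pos h1]
      rw [← hYP] at h2
      have e2 : Y ^ 2 * (S ^ 2 - Y ^ 2) * P ^ 2 ≤ S ^ 3 * (|P| * (|Y| * |P|)) := by
        have h6 : Y ^ 2 * (S ^ 2 - Y ^ 2) * P ^ 2 ≤ Y ^ 2 * S ^ 2 * P ^ 2 := by
          have : 0 ≤ Y ^ 2 * Y ^ 2 * P ^ 2 := by positivity
          nlinarith
        have h7 : Y ^ 2 * S ^ 2 * P ^ 2 = S ^ 2 * (|P| * (|Y| * |P|)) * |Y| := by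
          rw [← sq_abs Y, ← sq_abs P]; ring
        have h8 : S ^ 2 * (|P| * (|Y| * |P|)) * |Y| ≤ S ^ 2 * (|P| * (|Y| * |P|)) * S :=
          mul_le_mul_of_nonneg_left hY (by positivity)
        calc _ ≤ _ := h6
          _ = _ := h7
          _ ≤ _ := h8
          _ = _ := by ring
      refine e2.trans ?_
      have h9 : |P| * (|Y| * |P|) ≤ |P| * (E + |A1 - A0| * |P|) :=
        mul_le_mul_of_nonneg_left (by linarith) hP0
      have h10 : 0 ≤ |P| * (E + |A1 - A0| * |P|) := by positivity
      have hS3 : 0 < S ^ 3 := by positivity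
      calc S ^ 3 * (|P| * (|Y| * |P|)) ≤ S ^ 3 * (|P| * (E + |A1 - A0| * |P|)) :=
            mul_le_mul_of_nonneg_left h9 hS3.le
        _ ≤ 2 * S ^ 3 * (|P| * (E + |A1 - A0| * |P|)) := by nlinarith

theorem abs_cs (hw : AdmW w) (h : IsJacobi w p a b) (n : ℕ) (g : ℝ → ℝ)
    (hg : Integrable (fun x => g x ^ 2 * w x)) :
    ∫ x, |(p n).eval x| * |g x| * w x ≤ Real.sqrt (∫ x, g x ^ 2 * w x) := by
  have key := cs_pointwise (μ := volume) (u := fun x => (p n).eval x ^ 2 * w x)
    (v := fun x => g x ^ 2 * w x) (F := fun x => |(p n).eval x| * |g x| * w x)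
    (hw.integrable_sq (p n)) hg
    (fun x => mul_nonneg (sq_nonneg _) (hw.pos x).le)
    (fun x => mul_nonneg (sq_nonneg _) (hw.pos x).le)
    (fun x => by
      apply le_of_eq
      rw [mul_pow, mul_pow, sq_abs, sq_abs]; ring)
  have e : ∫ x, (p n).eval x ^ 2 * w x = 1 := by
    rw [← h.ip_self n]; unfold ip; congr 1; funext x; ring
  rw [e, one_mul] at key
  exact Real.le_sqrt_of_sq_le key

theorem moment_bound (hw : AdmW w) (h : IsJacobi w p a b) (n : ℕ) :
    (a (n + 2) + a (n + 3)) ^ 2 * (a (n + 3) ^ 2 + a (n + 2) ^ 2) -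
      ((a (n + 3) * a (n + 4)) ^ 2 + (a (n + 3) * (b (n + 3) - b (n + 2))) ^ 2 +
        (a (n + 3) ^ 2 + a (n + 2) ^ 2) ^ 2 + (a (n + 2) * (b (n + 1) - b (n + 2))) ^ 2 +
        (a (n + 2) * a (n + 1)) ^ 2) ≤
    2 * (a (n + 2) + a (n + 3)) ^ 3 * (a (n + 3) * Real.sqrt (Dv w p (n + 2)) +
      a (n + 2) * Real.sqrt (Dv w p (n + 1)) + |a (n + 3) - a (n + 2)|) := by
  set A0 := a (n + 2) with hA0
  set A1 := a (n + 3) with hA1
  have hA0p : 0 < A0 := h.a_pos _ (by omega)
  have hA1p : 0 < A1 := h.a_pos _ (by omega)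
  set S := A0 + A1 with hS
  set Y : ℝ[X] := X - C (b (n + 2)) with hY
  have r0 : Y * p (n + 2) = C A1 * p (n + 3) + C A0 * p (n + 1) := by
    have := h.rec_succ (n + 1)
    rw [hY, sub_mul, this]
    ring
  have r1 : Y * p (n + 3) = C (a (n + 4)) * p (n + 4) + C (b (n + 3) - b (n + 2)) * p (n + 3) +
      C A1 * p (n + 2) := by
    have := h.rec_succ (n + 2)
    rw [hY, sub_mul, this, C_sub]
    ring
  have r2 : Y * p (n + 1) = C A0 * p (n + 2) + C (b (n + 1) - b (n + 2)) * p (n + 1) +
      C (a (n + 1)) * p n := by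
    have := h.rec_succ n
    rw [hY, sub_mul, this, C_sub]
    ring
  have r3 : Y * (Y * p (n + 2)) = C (A1 * a (n + 4)) * p (n + 4) +
      C (A1 * (b (n + 3) - b (n + 2))) * p (n + 3) + C (A1 ^ 2 + A0 ^ 2) * p (n + 2) +
      C (A0 * (b (n + 1) - b (n + 2))) * p (n + 1) + C (A0 * a (n + 1)) * p n := by
    rw [r0]
    calc Y * (C A1 * p (n + 3) + C A0 * p (n + 1)) = C A1 * (Y * p (n + 3)) +
          C A0 * (Y * p (n + 1)) := by ring
      _ = _ := by rw [r1, r2]; simp only [C_mul, C_add, C_pow, C_sub]; ring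
  have m2 : ip w (Y * p (n + 2)) (Y * p (n + 2)) = A1 ^ 2 + A0 ^ 2 := by
    rw [r0]
    simp only [ip_add_left hw, ip_add_right hw, ip_C_mul_left, ip_C_mul_right, h.ip_eq]
    simp
    ring
  have m4 : ip w (Y * (Y * p (n + 2))) (Y * (Y * p (n + 2))) =
      (A1 * a (n + 4)) ^ 2 + (A1 * (b (n + 3) - b (n + 2))) ^ 2 +
        (A1 ^ 2 + A0 ^ 2) ^ 2 + (A0 * (b (n + 1) - b (n + 2))) ^ 2 +
        (A0 * a (n + 1)) ^ 2 := by
    rw [r3]
    simp only [ip_add_left hw, ip_add_right hw, ip_C_mul_left, ip_C_mul_right, h.ip_eq]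
    simp
    ring
  rw [← m4, ← m2]
  -- integrals
  have e1 : S ^ 2 * ip w (Y * p (n + 2)) (Y * p (n + 2)) -
      ip w (Y * (Y * p (n + 2))) (Y * (Y * p (n + 2))) =
      ∫ x, Y.eval x ^ 2 * (S ^ 2 - Y.eval x ^ 2) * (p (n + 2)).eval x ^ 2 * w x := by
    unfold ip
    rw [← integral_const_mul, ← integral_sub ((hw.integrable_mul _ _).const_mul _)
      (hw.integrable_mul _ _)]
    congr 1
    funext x
    simp only [eval_mul]
    ring
  rw [e1]
  have i1 := integrable_Dv hw (p (n + 3)) (p (n + 2))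
  have i2 := integrable_Dv hw (p (n + 2)) (p (n + 1))
  have i2' : Integrable (fun x => (|(p (n + 1)).eval x| - |(p (n + 2)).eval x|) ^ 2 * w x) :=
    integrable_Dv hw (p (n + 1)) (p (n + 2))
  have j1 : Integrable (fun x => |(p (n + 2)).eval x| *
      |(|(p (n + 3)).eval x| - |(p (n + 2)).eval x|)| * w x) := by
    have := (hw.integrable_sq (p (n + 2))).add i1
    refine this.mono' ?_ ?_
    · have hm : Measurable w := hw.meas
      have c1 : Measurable (fun x => (p (n + 2)).eval x) := (p (n + 2)).continuous.measurable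
      have c2 : Measurable (fun x => (p (n + 3)).eval x) := (p (n + 3)).continuous.measurable
      exact ((c1.abs.mul ((c2.abs.sub c1.abs).abs)).mul hm).aestronglyMeasurable
    · refine Eventually.of_forall fun x => ?_
      have hwx := hw.pos x
      rw [Real.norm_eq_abs, abs_of_nonneg (by positivity)]
      simp only [Pi.add_apply]
      rw [← add_mul]
      apply mul_le_mul_of_nonneg_right _ hwx.le
      rw [← sq_abs ((p (n + 2)).eval x), ← sq_abs (|(p (n + 3)).eval x| - |(p (n + 2)).eval x|)]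
      nlinarith [sq_nonneg (|(p (n + 2)).eval x| - |(|(p (n + 3)).eval x| - |(p (n + 2)).eval x|)|),
        abs_nonneg ((p (n + 2)).eval x), abs_nonneg (|(p (n + 3)).eval x| - |(p (n + 2)).eval x|)]
  have j2 : Integrable (fun x => |(p (n + 2)).eval x| *
      |(|(p (n + 1)).eval x| - |(p (n + 2)).eval x|)| * w x) := by
    have := (hw.integrable_sq (p (n + 2))).add i2'
    refine this.mono' ?_ ?_
    · have hm : Measurable w := hw.meas
      have c1 : Measurable (fun x => (p (n + 2)).eval x) := (p (n + 2)).continuous.measurable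
      have c2 : Measurable (fun x => (p (n + 1)).eval x) := (p (n + 1)).continuous.measurable
      exact ((c1.abs.mul ((c2.abs.sub c1.abs).abs)).mul hm).aestronglyMeasurable
    · refine Eventually.of_forall fun x => ?_
      have hwx := hw.pos x
      rw [Real.norm_eq_abs, abs_of_nonneg (by positivity)]
      simp only [Pi.add_apply]
      rw [← add_mul]
      apply mul_le_mul_of_nonneg_right _ hwx.le
      rw [← sq_abs ((p (n + 2)).eval x), ← sq_abs (|(p (n + 1)).eval x| - |(p (n + 2)).eval x|)]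
      nlinarith [sq_nonneg (|(p (n + 2)).eval x| - |(|(p (n + 1)).eval x| - |(p (n + 2)).eval x|)|),
        abs_nonneg ((p (n + 2)).eval x), abs_nonneg (|(p (n + 1)).eval x| - |(p (n + 2)).eval x|)]
  have j3 := hw.integrable_sq (p (n + 2))
  have hle : ∫ x, Y.eval x ^ 2 * (S ^ 2 - Y.eval x ^ 2) * (p (n + 2)).eval x ^ 2 * w x ≤
      ∫ x, 2 * S ^ 3 * (A1 * (|(p (n + 2)).eval x| *
        |(|(p (n + 3)).eval x| - |(p (n + 2)).eval x|)| * w x) +
        A0 * (|(p (n + 2)).eval x| *
        |(|(p (n + 1)).eval x| - |(p (n + 2)).eval x|)| * w x) +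
        |A1 - A0| * ((p (n + 2)).eval x ^ 2 * w x)) := by
    apply integral_mono
    · have := ((hw.integrable_mul (Y * p (n + 2)) (Y * p (n + 2))).const_mul (S ^ 2)).sub
        (hw.integrable_mul (Y * (Y * p (n + 2))) (Y * (Y * p (n + 2))))
      refine this.congr (Eventually.of_forall fun x => ?_)
      simp only [eval_mul, Pi.sub_apply]
      ring
    · exact (((j1.const_mul A1).add (j2.const_mul A0)).add (j3.const_mul |A1 - A0|)).const_mul _
    · intro x
      have hrec := congrArg (Polynomial.eval x) r0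
      simp only [eval_mul, eval_add, eval_C] at hrec
      have := pointwise_bound ((p (n + 2)).eval x) ((p (n + 3)).eval x) ((p (n + 1)).eval x)
        (Y.eval x) A0 A1 hA0p hA1p hrec
      simp only
      calc _ ≤ (2 * (A0 + A1) ^ 3 * (|(p (n + 2)).eval x| *
            (A1 * |(|(p (n + 3)).eval x| - |(p (n + 2)).eval x|)| +
            A0 * |(|(p (n + 1)).eval x| - |(p (n + 2)).eval x|)| +
            |A1 - A0| * |(p (n + 2)).eval x|))) * w x :=
              mul_le_mul_of_nonneg_right this (hw.pos x).le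
        _ = _ := by
          rw [← sq_abs ((p (n + 2)).eval x)]
          ring
  refine hle.trans ?_
  have jsum : Integrable (fun x => A1 * (|(p (n + 2)).eval x| *
        |(|(p (n + 3)).eval x| - |(p (n + 2)).eval x|)| * w x) +
        A0 * (|(p (n + 2)).eval x| *
        |(|(p (n + 1)).eval x| - |(p (n + 2)).eval x|)| * w x)) :=
    (j1.const_mul A1).add (j2.const_mul A0)
  rw [integral_const_mul, integral_add jsum
    (j3.const_mul |A1 - A0|), integral_add (j1.const_mul A1) (j2.const_mul A0),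
    integral_const_mul, integral_const_mul, integral_const_mul]
  have k1 := abs_cs hw h (n + 2) (fun x => |(p (n + 3)).eval x| - |(p (n + 2)).eval x|) i1
  have k2 := abs_cs hw h (n + 2) (fun x => |(p (n + 1)).eval x| - |(p (n + 2)).eval x|) i2'
  have k3 : ∫ x, (p (n + 2)).eval x ^ 2 * w x = 1 := by
    rw [← h.ip_self (n + 2)]; unfold ip; congr 1; funext x; ring
  have k4 : ∫ x, (|(p (n + 1)).eval x| - |(p (n + 2)).eval x|) ^ 2 * w x = Dv w p (n + 1) := by
    unfold Dv; congr 1; funext x; ring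
  rw [k3]
  rw [k4] at k2
  apply mul_le_mul_of_nonneg_left _ (by positivity)
  have k1' := mul_le_mul_of_nonneg_left k1 hA1p.le
  have k2' := mul_le_mul_of_nonneg_left k2 hA0p.le
  unfold Dv
  unfold Dv at k2'
  linarith

end Pool.Agent.Helper93
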