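import Mathlib
import Pool.Agent.Helper93.Var

open Polynomial MeasureTheory Filter Topology

namespace Pool.Agent.Helper93

variable {w : ℝ → ℝ} {p : ℕ → ℝ[X]} {a b : ℕ → ℝ} {β : ℝ}

theorem ratio_tendsto (ha : Tendsto a atTop atTop)
    (ha1 : Tendsto (fun n => a (n + 1) / a n) atTop (𝓝 1)) (i j : ℕ) :
    Tendsto (fun n => a (n + i) / a (n + j)) atTop (𝓝 1) := by
  have hpos : ∀ᶠ n in atTop, 0 < a n := ha.eventually_gt_atTop 0
  have e : ∀ k : ℕ, Tendsto (fun n => a (n + k) / a n) atTop (𝓝 1) := by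
    intro k
    refine (tendsto_shift ha ha1 (k : ℤ)).congr fun n => ?_
    have : sh n k = n + k := by unfold sh; omega
    rw [this]
  have := (e i).div (e j) one_ne_zero
  rw [div_one] at this
  refine this.congr' ?_
  filter_upwards [hpos] with n hn
  simp only [Pi.div_apply]
  field_simp

theorem b_ratio_tendsto (ha : Tendsto a atTop atTop)
    (ha1 : Tendsto (fun n => a (n + 1) / a n) atTop (𝓝 1))
    (hb : Tendsto (fun n => b n / a n) atTop (𝓝 β)) (i j : ℕ) :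
    Tendsto (fun n => b (n + i) / a (n + j)) atTop (𝓝 β) := by
  have hpos : ∀ᶠ n in atTop, 0 < a n := ha.eventually_gt_atTop 0
  have h1 := (hb.comp (tendsto_add_atTop_nat i)).mul (ratio_tendsto ha ha1 i j)
  rw [mul_one] at h1
  refine h1.congr' ?_
  filter_upwards [(tendsto_add_atTop_nat i).eventually hpos] with n hn
  simp only [Function.comp]
  field_simp

theorem Dv_frequently (hw : AdmW w) (h : IsJacobi w p a b) (ha : Tendsto a atTop atTop)
    (ha1 : Tendsto (fun n => a (n + 1) / a n) atTop (𝓝 1))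
    (hb : Tendsto (fun n => b n / a n) atTop (𝓝 β)) :
    ∀ N, ∃ n, N ≤ n ∧ 1 / 400 ≤ Dv w p n := by
  have r1 := ratio_tendsto ha ha1 1 2
  have r3 := ratio_tendsto ha ha1 3 2
  have r4 := ratio_tendsto ha ha1 4 2
  have b1 := b_ratio_tendsto ha ha1 hb 1 2
  have b2 := b_ratio_tendsto ha ha1 hb 2 2
  have b3 := b_ratio_tendsto ha ha1 hb 3 2
  have hL : Tendsto (fun n => (1 + a (n + 3) / a (n + 2)) ^ 2 * ((a (n + 3) / a (n + 2)) ^ 2 + 1) -
      ((a (n + 3) / a (n + 2) * (a (n + 4) / a (n + 2))) ^ 2 +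
        (a (n + 3) / a (n + 2) * (b (n + 3) / a (n + 2) - b (n + 2) / a (n + 2))) ^ 2 +
        ((a (n + 3) / a (n + 2)) ^ 2 + 1) ^ 2 +
        (b (n + 1) / a (n + 2) - b (n + 2) / a (n + 2)) ^ 2 +
        (a (n + 1) / a (n + 2)) ^ 2)) atTop (𝓝 ((1 + 1) ^ 2 * (1 ^ 2 + 1) -
        ((1 * 1) ^ 2 + (1 * (β - β)) ^ 2 + (1 ^ 2 + 1) ^ 2 + (β - β) ^ 2 + 1 ^ 2))) := by
    exact (((r3.const_add 1).pow 2).mul ((r3.pow 2).add_const 1)).sub
      ((((((r3.mul r4).pow 2).add ((r3.mul (b3.sub b2)).pow 2)).add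
        (((r3.pow 2).add_const 1).pow 2)).add ((b1.sub b2).pow 2)).add (r1.pow 2))
  have hR : Tendsto (fun n => 2 * (1 + a (n + 3) / a (n + 2)) ^ 3 *
      (a (n + 3) / a (n + 2) * (1 / 20) + 1 / 20 + |a (n + 3) / a (n + 2) - 1|)) atTop
      (𝓝 (2 * (1 + 1) ^ 3 * (1 * (1 / 20) + 1 / 20 + |(1 : ℝ) - 1|))) := by
    exact (((r3.const_add 1).pow 3).const_mul 2).mul
      (((r3.mul_const (1 / 20)).add_const (1 / 20)).add ((r3.sub_const 1).abs))
  have hL' := hL.eventually_const_lt (u := 1.8) (by norm_num)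
  have hR' := hR.eventually_lt_const (u := 1.8) (by norm_num)
  intro N
  obtain ⟨n, ⟨h1, h2⟩, h3⟩ := ((hL'.and hR').and (eventually_ge_atTop N)).exists
  by_contra hcon
  push Not at hcon
  have d1 := hcon (n + 1) (by omega)
  have d2 := hcon (n + 2) (by omega)
  have s1 : Real.sqrt (Dv w p (n + 1)) ≤ 1 / 20 := by
    rw [Real.sqrt_le_left (by norm_num)]; norm_num; linarith
  have s2 : Real.sqrt (Dv w p (n + 2)) ≤ 1 / 20 := by
    rw [Real.sqrt_le_left (by norm_num)]; norm_num; linarith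
  have mb := moment_bound hw h n
  have pA0 : 0 < a (n + 2) := h.a_pos _ (by omega)
  have pA1 : 0 < a (n + 3) := h.a_pos _ (by omega)
  have mb2 : (a (n + 2) + a (n + 3)) ^ 2 * (a (n + 3) ^ 2 + a (n + 2) ^ 2) -
      ((a (n + 3) * a (n + 4)) ^ 2 + (a (n + 3) * (b (n + 3) - b (n + 2))) ^ 2 +
        (a (n + 3) ^ 2 + a (n + 2) ^ 2) ^ 2 + (a (n + 2) * (b (n + 1) - b (n + 2))) ^ 2 +
        (a (n + 2) * a (n + 1)) ^ 2) ≤
    2 * (a (n + 2) + a (n + 3)) ^ 3 * (a (n + 3) * (1 / 20) +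
      a (n + 2) * (1 / 20) + |a (n + 3) - a (n + 2)|) := by
    refine mb.trans ?_
    apply mul_le_mul_of_nonneg_left _ (by positivity)
    have := mul_le_mul_of_nonneg_left s2 pA1.le
    have := mul_le_mul_of_nonneg_left s1 pA0.le
    linarith
  have eL : (1 + a (n + 3) / a (n + 2)) ^ 2 * ((a (n + 3) / a (n + 2)) ^ 2 + 1) -
      ((a (n + 3) / a (n + 2) * (a (n + 4) / a (n + 2))) ^ 2 +
        (a (n + 3) / a (n + 2) * (b (n + 3) / a (n + 2) - b (n + 2) / a (n + 2))) ^ 2 +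
        ((a (n + 3) / a (n + 2)) ^ 2 + 1) ^ 2 +
        (b (n + 1) / a (n + 2) - b (n + 2) / a (n + 2)) ^ 2 +
        (a (n + 1) / a (n + 2)) ^ 2) =
      ((a (n + 2) + a (n + 3)) ^ 2 * (a (n + 3) ^ 2 + a (n + 2) ^ 2) -
      ((a (n + 3) * a (n + 4)) ^ 2 + (a (n + 3) * (b (n + 3) - b (n + 2))) ^ 2 +
        (a (n + 3) ^ 2 + a (n + 2) ^ 2) ^ 2 + (a (n + 2) * (b (n + 1) - b (n + 2))) ^ 2 +
        (a (n + 2) * a (n + 1)) ^ 2)) / a (n + 2) ^ 4 := by
    field_simp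
  have eR : 2 * (1 + a (n + 3) / a (n + 2)) ^ 3 *
      (a (n + 3) / a (n + 2) * (1 / 20) + 1 / 20 + |a (n + 3) / a (n + 2) - 1|) =
      (2 * (a (n + 2) + a (n + 3)) ^ 3 * (a (n + 3) * (1 / 20) +
      a (n + 2) * (1 / 20) + |a (n + 3) - a (n + 2)|)) / a (n + 2) ^ 4 := by
    have : |a (n + 3) / a (n + 2) - 1| = |a (n + 3) - a (n + 2)| / a (n + 2) := by
      rw [div_sub_one pA0.ne', abs_div, abs_of_pos pA0]
    rw [this]
    field_simp
  rw [eL] at h1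
  rw [eR] at h2
  have := div_le_div_of_nonneg_right mb2 (by positivity : 0 ≤ a (n + 2) ^ 4)
  linarith

end Pool.Agent.Helper93
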