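import Mathlib
import Pool.Agent.Helper93.Var2

open Polynomial MeasureTheory Filter Topology

namespace Pool.Agent.Helper93

variable {w : ℝ → ℝ} {p : ℕ → ℝ[X]} {a b : ℕ → ℝ} {β τ : ℝ}

theorem IsJacobi.no_common_zero (h : IsJacobi w p a b) (x : ℝ) (n : ℕ) :
    ¬ ((p n).eval x = 0 ∧ (p (n + 1)).eval x = 0) := by
  induction n with
  | zero =>
    rintro ⟨h0, -⟩
    have h1 := h.natDegree_eq 0
    rw [natDegree_eq_zero] at h1
    obtain ⟨c, hc⟩ := h1
    have h2 := h.ne_zero 0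
    rw [← hc] at h0 h2
    simp only [eval_C] at h0
    rw [h0] at h2
    simp at h2
  | succ n ih =>
    rintro ⟨h0, h1⟩
    apply ih
    refine ⟨?_, h0⟩
    have := congrArg (Polynomial.eval x) (h.rec_succ n)
    simp only [eval_mul, eval_X, eval_add, eval_C] at this
    have e : n + 1 + 1 = n + 2 := rfl
    rw [e] at h1
    rw [h0, h1] at this
    have ha := (h.a_pos (n + 1) (by omega)).ne'
    simp only [mul_zero, zero_add] at this
    rcases mul_eq_zero.1 this.symm with h3 | h3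
    · exact absurd h3 ha
    · exact h3

/-- numerator -/
noncomputable def num (p : ℕ → ℝ[X]) (τ : ℝ) (n : ℕ) (x : ℝ) : ℝ :=
  (p n).eval x ^ 2 + τ * (p (n + 1)).eval x ^ 2

/-- denominator -/
noncomputable def den (p : ℕ → ℝ[X]) (τ : ℝ) (n : ℕ) (x : ℝ) : ℝ :=
  (p (n + 1)).eval x ^ 2 + τ * (p n).eval x ^ 2

theorem num_pos (h : IsJacobi w p a b) (hτ : 0 < τ) (n : ℕ) (x : ℝ) : 0 < num p τ n x := by
  unfold num
  by_contra hcon
  push Not at hcon
  have h1 : 0 ≤ (p n).eval x ^ 2 := sq_nonneg _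
  have h2 : 0 ≤ (p (n + 1)).eval x ^ 2 := sq_nonneg _
  have h3 : (p n).eval x ^ 2 = 0 := by nlinarith
  have h4 : (p (n + 1)).eval x ^ 2 = 0 := by nlinarith
  exact h.no_common_zero x n ⟨by simpa using h3, by simpa using h4⟩

theorem den_pos (h : IsJacobi w p a b) (hτ : 0 < τ) (n : ℕ) (x : ℝ) : 0 < den p τ n x := by
  unfold den
  by_contra hcon
  push Not at hcon
  have h1 : 0 ≤ (p n).eval x ^ 2 := sq_nonneg _
  have h2 : 0 ≤ (p (n + 1)).eval x ^ 2 := sq_nonneg _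
  have h3 : (p n).eval x ^ 2 = 0 := by nlinarith
  have h4 : (p (n + 1)).eval x ^ 2 = 0 := by nlinarith
  exact h.no_common_zero x n ⟨by simpa using h3, by simpa using h4⟩

/-- logarithm of the multiplier used on one shell -/
noncomputable def rho (p : ℕ → ℝ[X]) (τ : ℝ) (n : ℕ) (x : ℝ) : ℝ :=
  Real.log (num p τ n x / den p τ n x)

theorem exp_rho (h : IsJacobi w p a b) (hτ : 0 < τ) (n : ℕ) (x : ℝ) :
    Real.exp (rho p τ n x) = num p τ n x / den p τ n x :=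
  Real.exp_log (div_pos (num_pos h hτ n x) (den_pos h hτ n x))

theorem exp_neg_rho (h : IsJacobi w p a b) (hτ : 0 < τ) (n : ℕ) (x : ℝ) :
    Real.exp (-rho p τ n x) = den p τ n x / num p τ n x := by
  rw [Real.exp_neg, exp_rho h hτ, inv_div]

theorem abs_rho_le (h : IsJacobi w p a b) (hτ : 0 < τ) (hτ1 : τ < 1) (n : ℕ) (x : ℝ) :
    |rho p τ n x| ≤ Real.log τ⁻¹ := by
  have hn := num_pos h hτ n x
  have hd := den_pos h hτ n x
  have e1 : num p τ n x / den p τ n x ≤ τ⁻¹ := by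
    rw [div_le_iff₀ hd, inv_mul_eq_div, le_div_iff₀ hτ]
    unfold num den
    have : 0 ≤ (p (n + 1)).eval x ^ 2 := sq_nonneg _
    nlinarith [mul_nonneg (mul_nonneg (sub_nonneg.2 hτ1.le) (by linarith : 0 ≤ 1 + τ)) this]
  have e2 : τ ≤ num p τ n x / den p τ n x := by
    rw [le_div_iff₀ hd]
    unfold num den
    have : 0 ≤ (p n).eval x ^ 2 := sq_nonneg _
    nlinarith [mul_nonneg (mul_nonneg (sub_nonneg.2 hτ1.le) (by linarith : 0 ≤ 1 + τ)) this]
  rw [abs_le]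
  constructor
  · rw [Real.log_inv, neg_neg]
    exact Real.log_le_log hτ e2
  · exact Real.log_le_log (div_pos hn hd) e1

theorem contDiff_eval (P : ℝ[X]) : ContDiff ℝ (⊤ : ℕ∞) (fun x => P.eval x) := by
  have : (fun x => P.eval x) =
      fun x => ∑ i ∈ Finset.range (P.natDegree + 1), P.coeff i * x ^ i := by
    funext x
    rw [Polynomial.eval_eq_sum_range]
  rw [this]
  exact ContDiff.sum fun i _ => contDiff_const.mul (contDiff_id.pow i)

theorem contDiff_rho (h : IsJacobi w p a b) (hτ : 0 < τ) (n : ℕ) :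
    ContDiff ℝ (⊤ : ℕ∞) (rho p τ n) := by
  have c1 : ContDiff ℝ (⊤ : ℕ∞) (fun x => (p n).eval x) := contDiff_eval (p n)
  have c2 : ContDiff ℝ (⊤ : ℕ∞) (fun x => (p (n + 1)).eval x) := contDiff_eval (p (n + 1))
  have cn : ContDiff ℝ (⊤ : ℕ∞) (num p τ n) := (c1.pow 2).add (contDiff_const.mul (c2.pow 2))
  have cd : ContDiff ℝ (⊤ : ℕ∞) (den p τ n) := (c2.pow 2).add (contDiff_const.mul (c1.pow 2))
  have : ContDiff ℝ (⊤ : ℕ∞) (fun x => num p τ n x / den p τ n x) :=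
    cn.div cd (fun x => (den_pos h hτ n x).ne')
  exact this.log fun x => (div_pos (num_pos h hτ n x) (den_pos h hτ n x)).ne'

theorem key_identity (τ x y : ℝ) (hn : x + τ * y ≠ 0) (hd : y + τ * x ≠ 0) :
    (x + τ * y) / (y + τ * x) * y + (y + τ * x) / (x + τ * y) * x =
      x + y - τ * (1 - τ) * ((x - y) ^ 2 * (x + y) / ((y + τ * x) * (x + τ * y))) := by
  have hAB : ∀ A B : ℝ, A ≠ 0 → B ≠ 0 →
      A / B * y + B / A * x = (A ^ 2 * y + B ^ 2 * x) / (B * A) := by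
    intro A B hA hB
    field_simp
  rw [hAB _ _ hn hd, eq_sub_iff_add_eq, mul_div_assoc', ← add_div, div_eq_iff (mul_ne_zero hd hn)]
  ring

theorem gain_pointwise (hτ : 0 < τ) (hτ1 : τ < 1) (u v : ℝ) (hn : 0 < u ^ 2 + τ * v ^ 2)
    (hd : 0 < v ^ 2 + τ * u ^ 2) :
    (u ^ 2 + τ * v ^ 2) / (v ^ 2 + τ * u ^ 2) * v ^ 2 +
      (v ^ 2 + τ * u ^ 2) / (u ^ 2 + τ * v ^ 2) * u ^ 2 ≤
      u ^ 2 + v ^ 2 - τ * (1 - τ) * (|v| - |u|) ^ 2 := by
  have hu := sq_abs u
  have hv := sq_abs v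
  set U := |u|
  set V := |v|
  have hU : 0 ≤ U := abs_nonneg u
  have hV : 0 ≤ V := abs_nonneg v
  rw [← hu, ← hv] at hn hd ⊢
  have hn' := hn.ne'
  have hd' := hd.ne'
  have key : (U ^ 2 + τ * V ^ 2) / (V ^ 2 + τ * U ^ 2) * V ^ 2 +
      (V ^ 2 + τ * U ^ 2) / (U ^ 2 + τ * V ^ 2) * U ^ 2 =
      U ^ 2 + V ^ 2 - τ * (1 - τ) * ((U ^ 2 - V ^ 2) ^ 2 * (U ^ 2 + V ^ 2) /
        ((V ^ 2 + τ * U ^ 2) * (U ^ 2 + τ * V ^ 2))) := key_identity τ (U ^ 2) (V ^ 2) hn' hd'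
  rw [key]
  have h1 : (V - U) ^ 2 ≤ (U ^ 2 - V ^ 2) ^ 2 * (U ^ 2 + V ^ 2) /
        ((V ^ 2 + τ * U ^ 2) * (U ^ 2 + τ * V ^ 2)) := by
    rw [le_div_iff₀ (mul_pos hd hn)]
    have e1 : (V ^ 2 + τ * U ^ 2) * (U ^ 2 + τ * V ^ 2) ≤ (U ^ 2 + V ^ 2) * (U ^ 2 + V ^ 2) := by
      apply mul_le_mul _ _ hn.le (by positivity)
      · nlinarith [sq_nonneg U]
      · nlinarith [sq_nonneg V]
    have e2 : (V - U) ^ 2 * ((U ^ 2 + V ^ 2) * (U ^ 2 + V ^ 2)) ≤
        (U ^ 2 - V ^ 2) ^ 2 * (U ^ 2 + V ^ 2) := by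
      have : (U ^ 2 - V ^ 2) ^ 2 = (V - U) ^ 2 * (U + V) ^ 2 := by ring
      rw [this, mul_assoc]
      apply mul_le_mul_of_nonneg_left _ (sq_nonneg _)
      apply mul_le_mul_of_nonneg_right _ (by positivity)
      nlinarith [mul_nonneg hU hV]
    calc _ ≤ (V - U) ^ 2 * ((U ^ 2 + V ^ 2) * (U ^ 2 + V ^ 2)) :=
          mul_le_mul_of_nonneg_left e1 (sq_nonneg _)
      _ ≤ _ := e2
  have h2 : 0 ≤ τ * (1 - τ) := mul_nonneg hτ.le (by linarith)
  nlinarith [mul_le_mul_of_nonneg_left h1 h2]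

/-- the cutoff function of the shell `r ≤ x² ≤ r'` -/
noncomputable def chi (r r' x : ℝ) : ℝ :=
  Real.smoothTransition (x ^ 2 - r) * Real.smoothTransition (r' - x ^ 2)

theorem chi_nonneg (r r' x : ℝ) : 0 ≤ chi r r' x :=
  mul_nonneg (Real.smoothTransition.nonneg _) (Real.smoothTransition.nonneg _)

theorem chi_le_one (r r' x : ℝ) : chi r r' x ≤ 1 :=
  mul_le_one₀ (Real.smoothTransition.le_one _) (Real.smoothTransition.nonneg _)
    (Real.smoothTransition.le_one _)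

theorem chi_eq_zero {r r' x : ℝ} (hx : x ^ 2 ≤ r ∨ r' ≤ x ^ 2) : chi r r' x = 0 := by
  unfold chi
  rcases hx with hx | hx
  · rw [Real.smoothTransition.zero_of_nonpos (by linarith), zero_mul]
  · rw [Real.smoothTransition.zero_of_nonpos (x := r' - x ^ 2) (by linarith), mul_zero]

theorem chi_eq_one {r r' x : ℝ} (h1 : r + 1 ≤ x ^ 2) (h2 : x ^ 2 ≤ r' - 1) : chi r r' x = 1 := by
  unfold chi
  rw [Real.smoothTransition.one_of_one_le (by linarith),
    Real.smoothTransition.one_of_one_le (by linarith), one_mul]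

theorem contDiff_chi (r r' : ℝ) : ContDiff ℝ (⊤ : ℕ∞) (chi r r') := by
  have c : ContDiff ℝ (⊤ : ℕ∞) (fun x : ℝ => x ^ 2) := contDiff_id.pow 2
  exact (Real.smoothTransition.contDiff.comp (c.sub contDiff_const)).mul
    (Real.smoothTransition.contDiff.comp (contDiff_const.sub c))

/-- one step of the gliding hump -/
theorem step (hw : AdmW w) (h : IsJacobi w p a b) (ha : Tendsto a atTop atTop)
    (ha1 : Tendsto (fun n => a (n + 1) / a n) atTop (𝓝 1))
    (hb : Tendsto (fun n => b n / a n) atTop (𝓝 β)) {η : ℝ} (hη : 0 < η) (r : ℝ) (N : ℕ) :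
    ∃ n : ℕ, ∃ r' : ℝ, N ≤ n ∧ r + 1 ≤ r' ∧ 1 / 400 ≤ Dv w p n ∧
      ∫ x in {x : ℝ | x ^ 2 ≤ r + 1}, ((p n).eval x ^ 2 * w x + (p (n + 1)).eval x ^ 2 * w x) ≤ η ∧
      ∫ x in {x : ℝ | r' - 1 ≤ x ^ 2},
        ((p n).eval x ^ 2 * w x + (p (n + 1)).eval x ^ 2 * w x) ≤ η := by
  have hR := Real.sqrt_nonneg (r + 1)
  have hm := mass_escape hw h ha ha1 hb hR
  have hm1 := hm.comp (tendsto_add_atTop_nat 1)
  have hsum := hm.add hm1
  rw [add_zero] at hsum
  obtain ⟨N1, hN1⟩ := eventually_atTop.1 (hsum.eventually_lt_const hη)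
  obtain ⟨n, hn, hD⟩ := Dv_frequently hw h ha ha1 hb (max N N1)
  have hmass := hN1 n (le_trans (le_max_right _ _) hn)
  have hint : Integrable (fun x => (p n).eval x ^ 2 * w x + (p (n + 1)).eval x ^ 2 * w x) :=
    (hw.integrable_sq _).add (hw.integrable_sq _)
  -- tail
  have htail : Tendsto (fun m : ℕ => ∫ x in {x : ℝ | (m : ℝ) ≤ x ^ 2},
      ((p n).eval x ^ 2 * w x + (p (n + 1)).eval x ^ 2 * w x)) atTop (𝓝 0) := by
    have hme : ∀ m : ℕ, MeasurableSet {x : ℝ | (m : ℝ) ≤ x ^ 2} := fun m =>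
      measurableSet_le measurable_const (measurable_id.pow_const 2)
    have hanti : Antitone (fun m : ℕ => {x : ℝ | (m : ℝ) ≤ x ^ 2}) := by
      intro i j hij x hx
      simp only [Set.mem_ofPred_eq] at hx ⊢
      have : (i : ℝ) ≤ j := by exact_mod_cast hij
      linarith
    have := tendsto_setIntegral_of_antitone (μ := volume) hme hanti ⟨0, hint.integrableOn⟩
    have he : ⋂ m : ℕ, {x : ℝ | (m : ℝ) ≤ x ^ 2} = ∅ := by
      ext x
      simp only [Set.mem_iInter, Set.mem_ofPred_eq, Set.mem_empty_iff_false, iff_false, not_forall,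
        not_le]
      exact exists_nat_gt (x ^ 2)
    rw [he] at this
    simpa using this
  obtain ⟨m, hm2, hm3⟩ := ((htail.eventually_lt_const hη).and
    (eventually_ge_atTop ⌈r⌉₊)).exists
  refine ⟨n, m + 1, le_trans (le_max_left _ _) hn, ?_, hD, ?_, ?_⟩
  · have : r ≤ m := (Nat.le_ceil r).trans (by exact_mod_cast hm3)
    linarith
  · refine le_trans ?_ hmass.le
    have e : G w p (Real.sqrt (r + 1)) n n + ((fun n => G w p (Real.sqrt (r + 1)) n n) ∘
        fun a => a + 1) n = ∫ x in Set.Icc (-Real.sqrt (r + 1)) (Real.sqrt (r + 1)),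
        ((p n).eval x ^ 2 * w x + (p (n + 1)).eval x ^ 2 * w x) := by
      rw [integral_add (hw.integrable_sq _).restrict (hw.integrable_sq _).restrict]
      simp only [Function.comp, G]
      congr 1 <;> (congr 1; funext x; ring)
    rw [e]
    apply setIntegral_mono_set hint.integrableOn
    · exact Eventually.of_forall fun x => add_nonneg (mul_nonneg (sq_nonneg _) (hw.pos x).le)
        (mul_nonneg (sq_nonneg _) (hw.pos x).le)
    · apply LE.le.eventuallyLE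
      intro x hx
      have := Real.abs_le_sqrt hx
      exact abs_le.1 this
  · simpa using hm2.le

/-- The full sequence of shells and degrees. -/
theorem exists_shells (hw : AdmW w) (h : IsJacobi w p a b) (ha : Tendsto a atTop atTop)
    (ha1 : Tendsto (fun n => a (n + 1) / a n) atTop (𝓝 1))
    (hb : Tendsto (fun n => b n / a n) atTop (𝓝 β)) {η : ℝ} (hη : 0 < η) :
    ∃ rr : ℕ → ℝ, ∃ nn : ℕ → ℕ, (∀ k, rr k + 1 ≤ rr (k + 1)) ∧ rr 0 = 0 ∧ (∀ k, k ≤ nn k) ∧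
      ∀ k, 1 / 400 ≤ Dv w p (nn k) ∧
      ∫ x in {x : ℝ | x ^ 2 ≤ rr k + 1},
        ((p (nn k)).eval x ^ 2 * w x + (p (nn k + 1)).eval x ^ 2 * w x) ≤ η ∧
      ∫ x in {x : ℝ | rr (k + 1) - 1 ≤ x ^ 2},
        ((p (nn k)).eval x ^ 2 * w x + (p (nn k + 1)).eval x ^ 2 * w x) ≤ η := by
  choose fn fr h1 h2 h3 h4 h5 using fun (r : ℝ) (N : ℕ) => step hw h ha ha1 hb hη r N
  let st : ℕ → ℝ × ℕ := fun k => Nat.rec ((0 : ℝ), (0 : ℕ))
    (fun _ s => (fr s.1 s.2, fn s.1 s.2 + 1)) k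
  have st0 : st 0 = (0, 0) := rfl
  have stS : ∀ k, st (k + 1) = (fr (st k).1 (st k).2, fn (st k).1 (st k).2 + 1) := fun k => rfl
  have hk : ∀ k, k ≤ (st k).2 := by
    intro k
    induction k with
    | zero => exact Nat.zero_le _
    | succ k ih =>
      rw [stS]
      have := h1 (st k).1 (st k).2
      simp only
      omega
  refine ⟨fun k => (st k).1, fun k => fn (st k).1 (st k).2, ?_, ?_, ?_, ?_⟩
  · intro k
    simp only [stS]
    exact h2 _ _
  · simp only [st0]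
  · intro k
    exact (hk k).trans (h1 _ _)
  · intro k
    refine ⟨h3 _ _, h4 _ _, ?_⟩
    simp only [stS]
    exact h5 _ _

end Pool.Agent.Helper93
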