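import Mathlib
import Pool.Agent.Helper93.Glue

open Polynomial MeasureTheory Filter Topology

namespace Pool.Agent.Helper93

variable {w : ℝ → ℝ} {p : ℕ → ℝ[X]} {a b : ℕ → ℝ} {β τ : ℝ}

/-- The log-multiplier. -/
noncomputable def psi (p : ℕ → ℝ[X]) (τ : ℝ) (rr : ℕ → ℝ) (nn : ℕ → ℕ) (x : ℝ) : ℝ :=
  ∑ᶠ k : ℕ, (-1) ^ k * (chi (rr k) (rr (k + 1)) x * rho p τ (nn k) x)

section

variable {rr : ℕ → ℝ} {nn : ℕ → ℕ}

theorem rr_mono (hrr : ∀ k, rr k + 1 ≤ rr (k + 1)) : Monotone rr :=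
  monotone_nat_of_le_succ fun k => by linarith [hrr k]

theorem rr_ge (hrr : ∀ k, rr k + 1 ≤ rr (k + 1)) (h0 : rr 0 = 0) (k : ℕ) : (k : ℝ) ≤ rr k := by
  induction k with
  | zero => simp [h0]
  | succ k ih => push_cast; linarith [hrr k]

theorem chi_other (hrr : ∀ k, rr k + 1 ≤ rr (k + 1)) {k j : ℕ} (hkj : j ≠ k) {x : ℝ}
    (h1 : rr k < x ^ 2) (h2 : x ^ 2 < rr (k + 1)) : chi (rr j) (rr (j + 1)) x = 0 := by
  have hm := rr_mono hrr
  apply chi_eq_zero
  rcases lt_or_gt_of_ne hkj with h | h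
  · right
    have : rr (j + 1) ≤ rr k := hm (by omega)
    linarith
  · left
    have : rr (k + 1) ≤ rr j := hm (by omega)
    linarith

theorem psi_shell (hrr : ∀ k, rr k + 1 ≤ rr (k + 1)) {k : ℕ} {x : ℝ}
    (h1 : rr k < x ^ 2) (h2 : x ^ 2 < rr (k + 1)) :
    psi p τ rr nn x = (-1) ^ k * (chi (rr k) (rr (k + 1)) x * rho p τ (nn k) x) := by
  unfold psi
  apply finsum_eq_single
  intro j hj
  rw [chi_other hrr hj h1 h2]
  ring

theorem psi_core (hrr : ∀ k, rr k + 1 ≤ rr (k + 1)) {k : ℕ} {x : ℝ}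
    (h1 : rr k + 1 < x ^ 2) (h2 : x ^ 2 < rr (k + 1) - 1) :
    psi p τ rr nn x = (-1) ^ k * rho p τ (nn k) x := by
  rw [psi_shell (k := k) hrr (by linarith) (by linarith), chi_eq_one h1.le h2.le]
  ring

theorem abs_psi_le (h : IsJacobi w p a b) (hτ : 0 < τ) (hτ1 : τ < 1)
    (hrr : ∀ k, rr k + 1 ≤ rr (k + 1)) (x : ℝ) :
    |psi p τ rr nn x| ≤ Real.log τ⁻¹ := by
  have hΛ : 0 ≤ Real.log τ⁻¹ := Real.log_nonneg ((one_le_inv₀ hτ).2 hτ1.le)
  by_cases hx : ∃ k, chi (rr k) (rr (k + 1)) x ≠ 0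
  · obtain ⟨k, hk⟩ := hx
    have h1 : rr k < x ^ 2 := by
      by_contra hcon
      push Not at hcon
      exact hk (chi_eq_zero (Or.inl hcon))
    have h2 : x ^ 2 < rr (k + 1) := by
      by_contra hcon
      push Not at hcon
      exact hk (chi_eq_zero (Or.inr hcon))
    rw [psi_shell hrr h1 h2, abs_mul, abs_pow, abs_neg, abs_one, one_pow, one_mul, abs_mul]
    have c0 := chi_nonneg (rr k) (rr (k + 1)) x
    have c1 := chi_le_one (rr k) (rr (k + 1)) x
    rw [abs_of_nonneg c0]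
    have := abs_rho_le h hτ hτ1 (nn k) x
    calc _ ≤ 1 * Real.log τ⁻¹ := mul_le_mul c1 this (abs_nonneg _) zero_le_one
      _ = _ := one_mul _
  · push Not at hx
    have : psi p τ rr nn x = 0 := by
      unfold psi
      have : (fun k : ℕ => (-1 : ℝ) ^ k * (chi (rr k) (rr (k + 1)) x * rho p τ (nn k) x)) =
          fun _ => 0 := by
        funext k
        rw [hx k]; ring
      rw [this, finsum_zero]
    rw [this, abs_zero]
    exact hΛ

theorem contDiff_psi (h : IsJacobi w p a b) (hτ : 0 < τ)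
    (hrr : ∀ k, rr k + 1 ≤ rr (k + 1)) (h0 : rr 0 = 0) :
    ContDiff ℝ (⊤ : ℕ∞) (psi p τ rr nn) := by
  rw [← contMDiff_iff_contDiff]
  unfold psi
  apply contMDiff_finsum
  · intro k
    rw [contMDiff_iff_contDiff]
    exact contDiff_const.mul ((contDiff_chi _ _).mul (contDiff_rho h hτ _))
  · intro x
    refine ⟨{y | y ^ 2 < x ^ 2 + 1}, ?_, ?_⟩
    · apply IsOpen.mem_nhds
      · exact isOpen_lt (continuous_pow 2) continuous_const
      · simp only [Set.mem_ofPred_eq]; linarith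
    · apply Set.Finite.subset (Set.finite_Iic (⌈x ^ 2 + 1⌉₊))
      rintro k ⟨y, hy1, hy2⟩
      simp only [Set.mem_ofPred_eq] at hy2
      rw [Function.mem_support] at hy1
      have hy3 : rr k < y ^ 2 := by
        by_contra hcon
        push Not at hcon
        apply hy1
        rw [chi_eq_zero (Or.inl hcon)]
        ring
      have := rr_ge hrr h0 k
      simp only [Set.mem_Iic]
      have h4 : (k : ℝ) ≤ (⌈x ^ 2 + 1⌉₊ : ℝ) := by
        have := Nat.le_ceil (x ^ 2 + 1)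
        linarith
      exact_mod_cast h4

theorem psi_even (hsym : ∀ n x, (p n).eval (-x) ^ 2 = (p n).eval x ^ 2) (x : ℝ) :
    psi p τ rr nn (-x) = psi p τ rr nn x := by
  unfold psi
  congr 1
  funext k
  have h1 : chi (rr k) (rr (k + 1)) (-x) = chi (rr k) (rr (k + 1)) x := by
    unfold chi; rw [neg_sq]
  have h2 : rho p τ (nn k) (-x) = rho p τ (nn k) x := by
    unfold rho num den
    rw [hsym, hsym]
  rw [h1, h2]

end

end Pool.Agent.Helper93
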