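import Mathlib
import Pool.Agent.Helper93.Glue2

open Polynomial MeasureTheory Filter Topology

namespace Pool.Agent.Helper93

variable {w : ℝ → ℝ} {p : ℕ → ℝ[X]} {a b : ℕ → ℝ} {β τ : ℝ}

section

variable {rr : ℕ → ℝ} {nn : ℕ → ℕ}

theorem integrable_exp_mul (hw : AdmW w) {g : ℝ → ℝ} (hg : Measurable g) {Λ : ℝ}
    (hb : ∀ x, |g x| ≤ Λ) (P : ℝ[X]) :
    Integrable (fun x => Real.exp (g x) * P.eval x ^ 2 * w x) :=
  hw.integrable_phi (φ := fun x => Real.exp (g x)) hg.exp (fun _ => Real.exp_pos _)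
    (M := Real.exp Λ) (fun x => Real.exp_le_exp.2 ((abs_le.1 (hb x)).2)) P

theorem shell_estimate (hw : AdmW w) (h : IsJacobi w p a b) (hτ : 0 < τ) (hτ1 : τ < 1)
    (hrr : ∀ k, rr k + 1 ≤ rr (k + 1)) (h0 : rr 0 = 0) {η : ℝ} (k : ℕ)
    (hD : 1 / 400 ≤ Dv w p (nn k))
    (hm1 : ∫ x in {x : ℝ | x ^ 2 ≤ rr k + 1},
        ((p (nn k)).eval x ^ 2 * w x + (p (nn k + 1)).eval x ^ 2 * w x) ≤ η)
    (hm2 : ∫ x in {x : ℝ | rr (k + 1) - 1 ≤ x ^ 2},
        ((p (nn k)).eval x ^ 2 * w x + (p (nn k + 1)).eval x ^ 2 * w x) ≤ η) :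
    (∫ x, Real.exp ((-1) ^ k * psi p τ rr nn x) * (p (nn k + 1)).eval x ^ 2 * w x) +
      (∫ x, Real.exp (-((-1) ^ k * psi p τ rr nn x)) * (p (nn k)).eval x ^ 2 * w x) ≤
      2 - τ * (1 - τ) / 400 + τ⁻¹ * (2 * η) := by
  set n := nn k with hn
  set s : ℝ := (-1) ^ k with hs
  have hss : s * s = 1 := by
    rw [hs, ← mul_pow]; norm_num
  have hsabs : |s| = 1 := by rw [hs, abs_pow, abs_neg, abs_one, one_pow]
  have hψm : Measurable (psi p τ rr nn) := (contDiff_psi h hτ hrr h0).continuous.measurable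
  have hψb : ∀ x, |psi p τ rr nn x| ≤ Real.log τ⁻¹ := abs_psi_le h hτ hτ1 hrr
  have hb1 : ∀ x, |s * psi p τ rr nn x| ≤ Real.log τ⁻¹ := fun x => by
    rw [abs_mul, hsabs, one_mul]; exact hψb x
  have hb2 : ∀ x, |-(s * psi p τ rr nn x)| ≤ Real.log τ⁻¹ := fun x => by
    rw [abs_neg]; exact hb1 x
  have i1 := integrable_exp_mul hw (hψm.const_mul s) hb1 (p (n + 1))
  have hmneg : Measurable (fun x => -(s * psi p τ rr nn x)) := (hψm.const_mul s).neg
  have i2 := integrable_exp_mul hw hmneg hb2 (p n)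
  have hint : Integrable (fun x => (p n).eval x ^ 2 * w x + (p (n + 1)).eval x ^ 2 * w x) :=
    (hw.integrable_sq _).add (hw.integrable_sq _)
  have i3 := integrable_Dv hw (p (n + 1)) (p n)
  set A1 : Set ℝ := {x : ℝ | x ^ 2 ≤ rr k + 1} with hA1
  set A2 : Set ℝ := {x : ℝ | rr (k + 1) - 1 ≤ x ^ 2} with hA2
  have mA1 : MeasurableSet A1 := measurableSet_le (measurable_id.pow_const 2) measurable_const
  have mA2 : MeasurableSet A2 := measurableSet_le measurable_const (measurable_id.pow_const 2)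
  set f : ℝ → ℝ := fun x => (p n).eval x ^ 2 * w x + (p (n + 1)).eval x ^ 2 * w x with hf
  have hf0 : ∀ x, 0 ≤ f x := fun x => add_nonneg (mul_nonneg (sq_nonneg _) (hw.pos x).le)
        (mul_nonneg (sq_nonneg _) (hw.pos x).le)
  have hle : ∫ x, (Real.exp (s * psi p τ rr nn x) * (p (n + 1)).eval x ^ 2 * w x +
      Real.exp (-(s * psi p τ rr nn x)) * (p n).eval x ^ 2 * w x) ≤
      ∫ x, (f x - τ * (1 - τ) * ((|(p (n + 1)).eval x| - |(p n).eval x|) ^ 2 * w x) +
        τ⁻¹ * (A1.indicator f x + A2.indicator f x)) := by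
    apply integral_mono
    · exact i1.add i2
    · exact (hint.sub (i3.const_mul _)).add
        (((hint.indicator mA1).add (hint.indicator mA2)).const_mul _)
    · intro x
      simp only
      have hwx := hw.pos x
      have hi1 : 0 ≤ A1.indicator f x := Set.indicator_nonneg (fun y _ => hf0 y) x
      have hi2 : 0 ≤ A2.indicator f x := Set.indicator_nonneg (fun y _ => hf0 y) x
      have hτi : 0 < τ⁻¹ := inv_pos.2 hτ
      by_cases hx : x ∈ A1 ∨ x ∈ A2
      · -- outside the core
        have e1 : Real.exp (s * psi p τ rr nn x) ≤ τ⁻¹ := by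
          rw [← Real.exp_log hτi]
          exact Real.exp_le_exp.2 (abs_le.1 (hb1 x)).2
        have e2 : Real.exp (-(s * psi p τ rr nn x)) ≤ τ⁻¹ := by
          rw [← Real.exp_log hτi]
          exact Real.exp_le_exp.2 (abs_le.1 (hb2 x)).2
        have hfi : f x ≤ A1.indicator f x + A2.indicator f x := by
          rcases hx with hx | hx
          · rw [Set.indicator_of_mem hx]; linarith
          · rw [Set.indicator_of_mem hx]; linarith
        have l1 : Real.exp (s * psi p τ rr nn x) * (p (n + 1)).eval x ^ 2 * w x +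
            Real.exp (-(s * psi p τ rr nn x)) * (p n).eval x ^ 2 * w x ≤ τ⁻¹ * f x := by
          have a1 : 0 ≤ (p (n + 1)).eval x ^ 2 * w x := by positivity
          have a2 : 0 ≤ (p n).eval x ^ 2 * w x := by positivity
          have b1 := mul_le_mul_of_nonneg_right e1 a1
          have b2 := mul_le_mul_of_nonneg_right e2 a2
          simp only [hf]
          nlinarith
        have l2 : 0 ≤ f x - τ * (1 - τ) *
            ((|(p (n + 1)).eval x| - |(p n).eval x|) ^ 2 * w x) := by
          have c1 : (|(p (n + 1)).eval x| - |(p n).eval x|) ^ 2 ≤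
              (p n).eval x ^ 2 + (p (n + 1)).eval x ^ 2 := by
            rw [← sq_abs ((p n).eval x), ← sq_abs ((p (n + 1)).eval x)]
            nlinarith [abs_nonneg ((p n).eval x), abs_nonneg ((p (n + 1)).eval x),
              mul_nonneg (abs_nonneg ((p n).eval x)) (abs_nonneg ((p (n + 1)).eval x))]
          have c2 : (|(p (n + 1)).eval x| - |(p n).eval x|) ^ 2 * w x ≤ f x := by
            simp only [hf]
            rw [← add_mul]
            exact mul_le_mul_of_nonneg_right c1 hwx.le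
          have c3 : 0 ≤ (|(p (n + 1)).eval x| - |(p n).eval x|) ^ 2 * w x := by positivity
          have c4 : τ * (1 - τ) ≤ 1 := by nlinarith
          nlinarith [mul_nonneg hτ.le (sub_nonneg.2 hτ1.le)]
        have l3 : τ⁻¹ * f x ≤ τ⁻¹ * (A1.indicator f x + A2.indicator f x) :=
          mul_le_mul_of_nonneg_left hfi hτi.le
        linarith
      · -- core
        push Not at hx
        have x1 : rr k + 1 < x ^ 2 := by
          by_contra hcon
          push Not at hcon
          exact hx.1 hcon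
        have x2 : x ^ 2 < rr (k + 1) - 1 := by
          by_contra hcon
          push Not at hcon
          exact hx.2 hcon
        have e1 : s * psi p τ rr nn x = rho p τ n x := by
          rw [psi_core hrr x1 x2, ← mul_assoc, hss, one_mul]
        rw [e1, exp_rho h hτ, exp_neg_rho h hτ]
        have g1 := gain_pointwise hτ hτ1 ((p n).eval x) ((p (n + 1)).eval x)
          (num_pos h hτ n x) (den_pos h hτ n x)
        have g2 := mul_le_mul_of_nonneg_right g1 hwx.le
        have g3 : 0 ≤ τ⁻¹ * (A1.indicator f x + A2.indicator f x) := by positivity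
        unfold num den
        simp only [hf] at g3 ⊢
        have g4 : ((p n).eval x ^ 2 + (p (n + 1)).eval x ^ 2 -
            τ * (1 - τ) * (|(p (n + 1)).eval x| - |(p n).eval x|) ^ 2) * w x =
            (p n).eval x ^ 2 * w x + (p (n + 1)).eval x ^ 2 * w x -
            τ * (1 - τ) * ((|(p (n + 1)).eval x| - |(p n).eval x|) ^ 2 * w x) := by ring
        rw [g4] at g2
        rw [add_mul] at g2
        linarith
  rw [integral_add i1 i2] at hle
  refine hle.trans ?_
  have hintA : Integrable (fun x => f x - τ * (1 - τ) *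
      ((|(p (n + 1)).eval x| - |(p n).eval x|) ^ 2 * w x)) := hint.sub (i3.const_mul _)
  have hintB : Integrable (fun x => A1.indicator f x + A2.indicator f x) :=
    (hint.indicator mA1).add (hint.indicator mA2)
  rw [integral_add hintA (hintB.const_mul _),
    integral_sub hint (i3.const_mul _), integral_const_mul, integral_const_mul,
    integral_add (hint.indicator mA1) (hint.indicator mA2), integral_indicator mA1,
    integral_indicator mA2]
  have hf2 : ∫ x, f x = 2 := by
    simp only [hf]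
    rw [integral_add (hw.integrable_sq _) (hw.integrable_sq _)]
    have : ∀ m, ∫ x, (p m).eval x ^ 2 * w x = 1 := fun m => by
      rw [← h.ip_self m]; unfold ip; congr 1; funext x; ring
    rw [this, this]; norm_num
  rw [hf2]
  have hD' : ∫ x, (|(p (n + 1)).eval x| - |(p n).eval x|) ^ 2 * w x = Dv w p n := rfl
  rw [hD']
  have hτi : 0 < τ⁻¹ := inv_pos.2 hτ
  have q1 : τ * (1 - τ) * (1 / 400) ≤ τ * (1 - τ) * Dv w p n :=
    mul_le_mul_of_nonneg_left hD (mul_nonneg hτ.le (by linarith))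
  have q2 : τ⁻¹ * ((∫ x in A1, f x) + ∫ x in A2, f x) ≤ τ⁻¹ * (2 * η) := by
    apply mul_le_mul_of_nonneg_left _ hτi.le
    linarith
  linarith

/-- The perturbation theorem for sequences. -/
theorem perturb (hw : AdmW w) (h : IsJacobi w p a b) (ha : Tendsto a atTop atTop)
    (ha1 : Tendsto (fun n => a (n + 1) / a n) atTop (𝓝 1))
    (hb : Tendsto (fun n => b n / a n) atTop (𝓝 β)) (hτ : 0 < τ) (hτ1 : τ < 1) :
    ∃ ψ : ℝ → ℝ, ContDiff ℝ (⊤ : ℕ∞) ψ ∧ (∀ x, |ψ x| ≤ Real.log τ⁻¹) ∧
      ((∀ n x, (p n).eval (-x) ^ 2 = (p n).eval x ^ 2) → ∀ x, ψ (-x) = ψ x) ∧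
      ∀ p' a' b', IsJacobi (fun x => Real.exp (ψ x) * w x) p' a' b' →
        (∀ N, ∃ n, N ≤ n ∧ (a' n / a n) ^ 2 ≤ (1 - τ * (1 - τ) / 1600) ^ 2) ∧
        (∀ N, ∃ n, N ≤ n ∧ (a n / a' n) ^ 2 ≤ (1 - τ * (1 - τ) / 1600) ^ 2) := by
  have hη : 0 < τ ^ 2 * (1 - τ) / 1600 := by
    have : 0 < 1 - τ := by linarith
    positivity
  obtain ⟨rr, nn, hrr, h0, hnn, hprop⟩ := exists_shells hw h ha ha1 hb hη
  refine ⟨psi p τ rr nn, contDiff_psi h hτ hrr h0, abs_psi_le h hτ hτ1 hrr,
    fun hs x => psi_even hs x, ?_⟩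
  intro p' a' b' h'
  have hψm : Measurable (psi p τ rr nn) := (contDiff_psi h hτ hrr h0).continuous.measurable
  have hψb := abs_psi_le (nn := nn) h hτ hτ1 hrr
  have hlow : ∀ x, Real.exp (-Real.log τ⁻¹) ≤ Real.exp (psi p τ rr nn x) := fun x =>
    Real.exp_le_exp.2 (abs_le.1 (hψb x)).1
  have hup : ∀ x, Real.exp (psi p τ rr nn x) ≤ Real.exp (Real.log τ⁻¹) := fun x =>
    Real.exp_le_exp.2 (abs_le.1 (hψb x)).2
  have est : ∀ k, (∫ x, Real.exp ((-1) ^ k * psi p τ rr nn x) *
        (p (nn k + 1)).eval x ^ 2 * w x) *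
      (∫ x, Real.exp (-((-1) ^ k * psi p τ rr nn x)) * (p (nn k)).eval x ^ 2 * w x) ≤
      (1 - τ * (1 - τ) / 1600) ^ 2 := by
    intro k
    obtain ⟨q1, q2, q3⟩ := hprop k
    have e := shell_estimate hw h hτ hτ1 hrr h0 k q1 q2 q3
    have e2 : 2 - τ * (1 - τ) / 400 + τ⁻¹ * (2 * (τ ^ 2 * (1 - τ) / 1600)) =
        2 * (1 - τ * (1 - τ) / 1600) := by
      field_simp
      ring
    rw [e2] at e
    set I := ∫ x, Real.exp ((-1) ^ k * psi p τ rr nn x) * (p (nn k + 1)).eval x ^ 2 * w x
    set J := ∫ x, Real.exp (-((-1) ^ k * psi p τ rr nn x)) * (p (nn k)).eval x ^ 2 * w x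
    have hI : 0 ≤ I := integral_nonneg fun x =>
      mul_nonneg (mul_nonneg (Real.exp_pos _).le (sq_nonneg _)) (hw.pos x).le
    have hJ : 0 ≤ J := integral_nonneg fun x =>
      mul_nonneg (mul_nonneg (Real.exp_pos _).le (sq_nonneg _)) (hw.pos x).le
    nlinarith [sq_nonneg (I - J)]
  constructor
  · intro N
    refine ⟨nn (2 * N) + 1, by have := hnn (2 * N); omega, ?_⟩
    have r := ratio_upper hw hψm.exp (Real.exp_pos _) hlow hup h h' (nn (2 * N))
    refine r.trans ?_
    have := est (2 * N)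
    simp only [pow_mul, neg_one_sq, one_pow, one_mul] at this
    refine le_trans (le_of_eq ?_) this
    congr 1
    congr 1
    funext x
    rw [Real.exp_neg]
  · intro N
    refine ⟨nn (2 * N + 1) + 1, by have := hnn (2 * N + 1); omega, ?_⟩
    have r := ratio_lower hw hψm.exp (Real.exp_pos _) hlow hup h h' (nn (2 * N + 1))
    refine r.trans ?_
    have := est (2 * N + 1)
    simp only [pow_add, pow_mul, neg_one_sq, one_pow, one_mul, pow_one, neg_mul, neg_neg] at this
    refine le_trans (le_of_eq ?_) this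
    congr 1
    congr 1
    funext x
    rw [Real.exp_neg]

end

end Pool.Agent.Helper93
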