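import Mathlib
import Pool.Agent.Helper93.FreudDefs

open MeasureTheory Filter Topology Set

namespace Pool.Agent.Helper93

/-- Uniform convergence theorem (additive form). -/
theorem uct {f : ℝ → ℝ} (hf : Measurable f)
    (h : ∀ u, Tendsto (fun x => f (x + u) - f x) atTop (𝓝 0)) {ε : ℝ} (hε : 0 < ε) :
    ∃ X : ℝ, ∀ x, X ≤ x → ∀ u, 0 ≤ u → u ≤ 1 → |f (x + u) - f x| ≤ ε := by
  by_contra hcon
  push Not at hcon
  choose x hx u hu0 hu1 hgt using fun n : ℕ => hcon n
  have hxt : Tendsto x atTop atTop := tendsto_atTop_mono hx tendsto_natCast_atTop_atTop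
  have hxut : Tendsto (fun n => x n + u n) atTop atTop :=
    tendsto_atTop_mono (fun n => by linarith [hu0 n]) hxt
  set μ : Measure ℝ := volume.restrict (Icc (0 : ℝ) 2) with hμ
  have hg : TendstoInMeasure μ (fun n v => f (x n + v) - f (x n)) atTop (fun _ => (0 : ℝ)) := by
    apply tendstoInMeasure_of_tendsto_ae
    · intro n
      exact ((hf.comp (measurable_const.add measurable_id)).sub
        measurable_const).aestronglyMeasurable
    · exact Eventually.of_forall fun v => (h v).comp hxt
  have hh : TendstoInMeasure μ (fun n v => f (x n + u n + v) - f (x n + u n)) atTop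
      (fun _ => (0 : ℝ)) := by
    apply tendstoInMeasure_of_tendsto_ae
    · intro n
      exact ((hf.comp (measurable_const.add measurable_id)).sub
        measurable_const).aestronglyMeasurable
    · exact Eventually.of_forall fun v => (h v).comp hxut
  rw [tendstoInMeasure_iff_dist] at hg hh
  have hg' := hg (ε / 2) (by linarith)
  have hh' := hh (ε / 2) (by linarith)
  have h4 : (0 : ENNReal) < 1 / 4 := by norm_num
  obtain ⟨n, hn1, hn2⟩ := ((hg'.eventually_lt_const h4).and (hh'.eventually_lt_const h4)).exists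
  have mset : ∀ g : ℝ → ℝ, Measurable g → MeasurableSet {v | ε / 2 ≤ dist (g v) 0} := by
    intro g hgm
    exact measurableSet_le measurable_const (hgm.dist measurable_const)
  have mg : Measurable (fun v => f (x n + v) - f (x n)) :=
    (hf.comp (measurable_const.add measurable_id)).sub measurable_const
  have mh : Measurable (fun v => f (x n + u n + v) - f (x n + u n)) :=
    (hf.comp (measurable_const.add measurable_id)).sub measurable_const
  rw [hμ, Measure.restrict_apply (mset _ mg)] at hn1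
  rw [hμ, Measure.restrict_apply (mset _ mh)] at hn2
  set A : Set ℝ := {v | ε / 2 ≤ dist (f (x n + v) - f (x n)) 0} ∩ Icc 0 2 with hA
  set B : Set ℝ := {v | ε / 2 ≤ dist (f (x n + u n + v) - f (x n + u n)) 0} ∩ Icc 0 2 with hB
  have hcover : Icc (u n) 2 ⊆ A ∪ (fun v => v + (-u n)) ⁻¹' B := by
    intro v hv
    have hv1 := hv.1
    have hv2 := hv.2
    have hu0n := hu0 n
    have hu1n := hu1 n
    by_cases h1 : ε / 2 ≤ dist (f (x n + v) - f (x n)) 0
    · left
      exact ⟨h1, ⟨by linarith, hv2⟩⟩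
    · right
      refine ⟨?_, ⟨by linarith, by linarith⟩⟩
      by_contra h2
      simp only [mem_ofPred_eq] at h2
      push Not at h1 h2
      rw [Real.dist_eq, sub_zero] at h1 h2
      have e : x n + u n + (v + -u n) = x n + v := by ring
      rw [e] at h2
      have := hgt n
      have h3 : |f (x n + u n) - f (x n)| ≤
          |f (x n + v) - f (x n)| + |f (x n + v) - f (x n + u n)| := by
        have : f (x n + u n) - f (x n) =
          (f (x n + v) - f (x n)) + -(f (x n + v) - f (x n + u n)) := by ring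
        rw [this]
        refine (abs_add_le _ _).trans ?_
        rw [abs_neg]
      linarith
  have hvol : volume (Icc (u n) 2) ≤ 1 / 4 + 1 / 4 := by
    calc volume (Icc (u n) 2) ≤ volume (A ∪ (fun v => v + (-u n)) ⁻¹' B) := measure_mono hcover
      _ ≤ volume A + volume ((fun v => v + (-u n)) ⁻¹' B) := measure_union_le _ _
      _ = volume A + volume B := by rw [measure_preimage_add_right]
      _ ≤ _ := add_le_add hn1.le hn2.le
  rw [Real.volume_Icc] at hvol
  have h5 : ENNReal.ofReal 1 ≤ ENNReal.ofReal (2 - u n) :=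
    ENNReal.ofReal_le_ofReal (by linarith [hu1 n])
  have h6 : (1 : ENNReal) ≤ 1 / 4 + 1 / 4 := by
    calc (1 : ENNReal) = ENNReal.ofReal 1 := by simp
      _ ≤ _ := h5.trans hvol
  have h7 : (1 / 4 + 1 / 4 : ENNReal) < 1 := by
    have : (1 / 4 + 1 / 4 : ENNReal) = ENNReal.ofReal (1 / 4 + 1 / 4) := by
      rw [ENNReal.ofReal_add (by norm_num) (by norm_num)]
      have : ENNReal.ofReal (1 / 4) = 1 / 4 := by
        rw [ENNReal.ofReal_div_of_pos (by norm_num)]
        simp
      rw [this]
    rw [this, ← ENNReal.ofReal_one]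
    exact ENNReal.ofReal_lt_ofReal_iff (by norm_num) |>.2 (by norm_num)
  exact absurd h6 (not_le.2 h7)

/-- Growth bound. -/
theorem growth {f : ℝ → ℝ} (hf : Measurable f)
    (h : ∀ u, Tendsto (fun x => f (x + u) - f x) atTop (𝓝 0)) {δ : ℝ} (hδ : 0 < δ) :
    ∃ X C : ℝ, ∀ x, X ≤ x → |f x| ≤ δ * x + C := by
  obtain ⟨X, hX⟩ := uct hf h hδ
  have nat : ∀ k : ℕ, |f (X + k) - f X| ≤ δ * k := by
    intro k
    induction k with
    | zero => simp
    | succ k ih =>
      have := hX (X + k) (by have : (0 : ℝ) ≤ k := Nat.cast_nonneg k; linarith) 1 zero_le_one le_rfl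
      have e : f (X + (k + 1 : ℕ)) - f X = (f (X + k + 1) - f (X + k)) + (f (X + k) - f X) := by
        push_cast
        have : X + ((k : ℝ) + 1) = X + k + 1 := by ring
        rw [this]; ring
      rw [e]
      refine (abs_add_le _ _).trans ?_
      push_cast
      linarith
  refine ⟨X, |f X| + δ - δ * X, fun x hx => ?_⟩
  set k := ⌊x - X⌋₊ with hk
  have h1 : (k : ℝ) ≤ x - X := Nat.floor_le (by linarith)
  have h2 : x - X < k + 1 := Nat.lt_floor_add_one _
  have h3 := hX (X + k) (by have : (0 : ℝ) ≤ k := Nat.cast_nonneg k; linarith)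
    (x - X - k) (by linarith) (by linarith)
  have e1 : X + k + (x - X - k) = x := by ring
  rw [e1] at h3
  have h4 := nat k
  have e2 : f x = (f x - f (X + k)) + (f (X + k) - f X) + f X := by ring
  rw [e2]
  have h5 : |(f x - f (X + k)) + (f (X + k) - f X) + f X| ≤
      |f x - f (X + k)| + |f (X + k) - f X| + |f X| :=
    (abs_add_le _ _).trans (add_le_add (abs_add_le _ _) le_rfl)
  nlinarith

/-- logarithmic version -/
noncomputable def lg (L : ℝ → ℝ) (x : ℝ) : ℝ := Real.log (L (Real.exp x))

variable {L : ℝ → ℝ}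

theorem lg_measurable (hL : SlowlyVarying L) : Measurable (lg L) := by
  have : lg L = fun x => Real.log ((fun y : Set.Ioi (0 : ℝ) => L y)
      ⟨Real.exp x, Real.exp_pos x⟩) := by
    funext x; rfl
  rw [this]
  exact Real.measurable_log.comp (hL.measurable.comp (Real.measurable_exp.subtype_mk))

theorem lg_tendsto (hL : SlowlyVarying L) (u : ℝ) :
    Tendsto (fun x => lg L (x + u) - lg L x) atTop (𝓝 0) := by
  have h1 := (hL.tendsto_one (Real.exp u) (Real.exp_pos u)).comp Real.tendsto_exp_atTop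
  have h2 := (Real.continuousAt_log one_ne_zero).tendsto.comp h1
  rw [Real.log_one] at h2
  refine h2.congr fun x => ?_
  simp only [Function.comp, lg]
  rw [Real.log_div (hL.pos _ (by positivity)).ne' (hL.pos _ (by positivity)).ne',
    ← Real.exp_add, add_comm u x]

theorem exp_lg (hL : SlowlyVarying L) {y : ℝ} (hy : 0 < y) :
    Real.exp (lg L (Real.log y)) = L y := by
  unfold lg
  rw [Real.exp_log hy, Real.exp_log (hL.pos y hy)]

/-- lower bound for `y L(y)` -/
theorem mul_L_lower (hL : SlowlyVarying L) :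
    ∃ Y C : ℝ, 1 ≤ Y ∧ 0 < C ∧ ∀ y, Y ≤ y → C * y ^ (1 / 2 : ℝ) ≤ y * L y := by
  obtain ⟨X, C, hXC⟩ := growth (lg_measurable hL) (lg_tendsto hL) (δ := 1 / 2) (by norm_num)
  refine ⟨max 1 (Real.exp X), Real.exp (-C), le_max_left _ _, Real.exp_pos _, fun y hy => ?_⟩
  have hy1 : 1 ≤ y := (le_max_left _ _).trans hy
  have hy0 : 0 < y := by linarith
  have hyX : X ≤ Real.log y := (Real.le_log_iff_exp_le hy0).2 ((le_max_right _ _).trans hy)
  have h1 := hXC _ hyX
  have h2 := (abs_le.1 h1).1
  have e : y * L y = Real.exp (Real.log y + lg L (Real.log y)) := by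
    rw [Real.exp_add, Real.exp_log hy0, exp_lg hL hy0]
  rw [e, Real.rpow_def_of_pos hy0, ← Real.exp_add]
  apply Real.exp_le_exp.2
  linarith

theorem mul_L_atTop (hL : SlowlyVarying L) : Tendsto (fun y => y * L y) atTop atTop := by
  obtain ⟨Y, C, -, hC, hYC⟩ := mul_L_lower hL
  have h1 : Tendsto (fun y : ℝ => C * y ^ (1 / 2 : ℝ)) atTop atTop :=
    (tendsto_rpow_atTop (by norm_num)).const_mul_atTop hC
  exact tendsto_atTop_mono' _ ((eventually_ge_atTop Y).mono hYC) h1

/-- `c_{n+1}/c_n → 1` -/
theorem c_ratio (hL : SlowlyVarying L) {α : ℝ} (hα : 0 < α) :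
    Tendsto (fun n : ℕ => (((n + 1 : ℕ) : ℝ) ^ (1 / α) * L (((n + 1 : ℕ) : ℝ) ^ (1 / α))) /
      ((n : ℝ) ^ (1 / α) * L ((n : ℝ) ^ (1 / α)))) atTop (𝓝 1) := by
  set t : ℕ → ℝ := fun n => Real.log n * (1 / α) with ht
  have htt : Tendsto t atTop atTop :=
    (Real.tendsto_log_atTop.comp tendsto_natCast_atTop_atTop).atTop_mul_const (by positivity)
  have hd : Tendsto (fun n => t (n + 1) - t n) atTop (𝓝 0) := by
    have h1 : Tendsto (fun n : ℕ => Real.log (((n + 1 : ℕ) : ℝ) / n)) atTop (𝓝 0) := by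
      have h0 : Tendsto (fun n : ℕ => ((n + 1 : ℕ) : ℝ) / n) atTop (𝓝 1) := by
        have : Tendsto (fun n : ℕ => 1 + 1 / (n : ℝ)) atTop (𝓝 (1 + 0)) :=
          tendsto_const_nhds.add tendsto_one_div_atTop_nhds_zero_nat
        rw [add_zero] at this
        refine this.congr' ?_
        filter_upwards [eventually_gt_atTop 0] with n hn
        have : (n : ℝ) ≠ 0 := by positivity
        push_cast
        field_simp
      have := (Real.continuousAt_log one_ne_zero).tendsto.comp h0
      rwa [Real.log_one] at this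
    have h2 := h1.mul_const (1 / α)
    rw [zero_mul] at h2
    refine h2.congr' ?_
    filter_upwards [eventually_gt_atTop 0] with n hn
    have h3 : (n : ℝ) ≠ 0 := by positivity
    have h4 : ((n + 1 : ℕ) : ℝ) ≠ 0 := by positivity
    simp only [ht]
    rw [Real.log_div h4 h3]
    ring
  have hd0 : ∀ᶠ n in atTop, 0 ≤ t (n + 1) - t n := by
    filter_upwards [eventually_gt_atTop 0] with n hn
    simp only [ht]
    have h3 : (0 : ℝ) < n := by positivity
    have : Real.log n ≤ Real.log ((n + 1 : ℕ) : ℝ) := Real.log_le_log h3 (by push_cast; linarith)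
    have h5 : 0 < 1 / α := by positivity
    nlinarith
  have hlg : Tendsto (fun n => lg L (t (n + 1)) - lg L (t n)) atTop (𝓝 0) := by
    rw [Metric.tendsto_atTop]
    intro ε hε
    obtain ⟨X, hX⟩ := uct (lg_measurable hL) (lg_tendsto hL) (ε := ε / 2) (by linarith)
    have hev := ((htt.eventually_ge_atTop X).and hd0).and (hd.eventually_lt_const zero_lt_one)
    obtain ⟨N, hN⟩ := eventually_atTop.1 hev
    refine ⟨N, fun n hn => ?_⟩
    obtain ⟨⟨q1, q2⟩, q3⟩ := hN n hn
    have := hX (t n) q1 (t (n + 1) - t n) q2 q3.le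
    have e : t n + (t (n + 1) - t n) = t (n + 1) := by ring
    rw [e] at this
    rw [Real.dist_eq, sub_zero]
    linarith
  have hsum := hd.add hlg
  rw [add_zero] at hsum
  have hexp := (Real.continuous_exp.tendsto 0).comp hsum
  rw [Real.exp_zero] at hexp
  refine hexp.congr' ?_
  filter_upwards [eventually_gt_atTop 0] with n hn
  have h3 : (0 : ℝ) < n := by positivity
  have h4 : (0 : ℝ) < ((n + 1 : ℕ) : ℝ) := by positivity
  have key : ∀ m : ℕ, (0 : ℝ) < m → (m : ℝ) ^ (1 / α) * L ((m : ℝ) ^ (1 / α)) =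
      Real.exp (t m + lg L (t m)) := by
    intro m hm
    have e1 : (m : ℝ) ^ (1 / α) = Real.exp (t m) := by
      rw [Real.rpow_def_of_pos hm]
    rw [Real.exp_add, e1]
    congr 1
    unfold lg
    rw [Real.exp_log (hL.pos _ (Real.exp_pos _))]
  rw [key n h3, key (n + 1) h4, ← Real.exp_sub]
  simp only [Function.comp]
  congr 1
  ring

theorem c_atTop (hL : SlowlyVarying L) {α : ℝ} (hα : 0 < α) :
    Tendsto (fun n : ℕ => (n : ℝ) ^ (1 / α) * L ((n : ℝ) ^ (1 / α))) atTop atTop := by
  have h1 : Tendsto (fun n : ℕ => (n : ℝ) ^ (1 / α)) atTop atTop :=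
    (tendsto_rpow_atTop (by positivity)).comp tendsto_natCast_atTop_atTop
  exact (mul_L_atTop hL).comp h1

end Pool.Agent.Helper93
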