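import Mathlib
import Pool.Agent.Helper93.RegVar
import Pool.Agent.Helper93.Glue3

open MeasureTheory Filter Topology Set Polynomial

namespace Pool.Agent.Helper93

variable {α A B : ℝ} {L Q : ℝ → ℝ}

theorem HypH.admW (h : HypH α A B L Q) : AdmW (fun x => Real.exp (-(2 * Q x))) where
  pos _ := Real.exp_pos _
  meas := (h.measurable.const_mul 2).neg.exp
  mom := h.moments

theorem den_tendsto (hL : SlowlyVarying L) (hα : 0 < α) (hA : 0 < A) :
    Tendsto (fun x => A * x ^ α * L x ^ α) atTop atTop := by
  have h1 := ((tendsto_rpow_atTop hα).comp (mul_L_atTop hL)).const_mul_atTop hA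
  refine h1.congr' ?_
  filter_upwards [eventually_gt_atTop 0] with x hx
  simp only [Function.comp]
  rw [Real.mul_rpow hx.le (hL.pos x hx).le, mul_assoc]

theorem den_tendsto' (hL : SlowlyVarying L) (hα : 0 < α) (hB : 0 < B) :
    Tendsto (fun x => B * |x| ^ α * L |x| ^ α) atBot atTop :=
  (den_tendsto hL hα hB).comp tendsto_abs_atBot_atTop

/-- perturbation of (H) by a bounded measurable function -/
theorem HypH.perturb (h : HypH α A B L Q) (hL : SlowlyVarying L) (hα : 0 < α) (hA : 0 < A)
    (hB : 0 < B) {g : ℝ → ℝ} (hg : Measurable g) {Λ : ℝ} (hb : ∀ x, |g x| ≤ Λ) :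
    HypH α A B L (fun x => Q x - g x / 2) where
  measurable := h.measurable.sub (hg.div_const 2)
  moments n := by
    have h1 := (h.admW.mul (φ := fun x => Real.exp (g x)) hg.exp (fun x => Real.exp_pos _)
      (M := Real.exp Λ) (fun x => Real.exp_le_exp.2 (abs_le.1 (hb x)).2)).mom n
    refine h1.congr (Eventually.of_forall fun x => ?_)
    simp only
    rw [← Real.exp_add]
    congr 2
    ring
  right := by
    have h1 : Tendsto (fun x => g x / 2 / (A * x ^ α * L x ^ α)) atTop (𝓝 0) := by
      have h2 : Tendsto (fun x => (Λ / 2) / (A * x ^ α * L x ^ α)) atTop (𝓝 0) :=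
        tendsto_const_nhds.div_atTop (den_tendsto hL hα hA)
      refine squeeze_zero_norm' ?_ h2
      filter_upwards [(den_tendsto hL hα hA).eventually_gt_atTop 0] with x hx
      rw [norm_div, norm_div, Real.norm_eq_abs, Real.norm_eq_abs, Real.norm_eq_abs,
        abs_of_pos hx, abs_of_pos (by norm_num : (0 : ℝ) < 2)]
      have := hb x
      gcongr
    have := h.right.sub h1
    rw [sub_zero] at this
    refine this.congr fun x => ?_
    rw [sub_div]
  left := by
    have h1 : Tendsto (fun x => g x / 2 / (B * |x| ^ α * L |x| ^ α)) atBot (𝓝 0) := by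
      have h2 : Tendsto (fun x => (Λ / 2) / (B * |x| ^ α * L |x| ^ α)) atBot (𝓝 0) :=
        tendsto_const_nhds.div_atTop (den_tendsto' hL hα hB)
      refine squeeze_zero_norm' ?_ h2
      filter_upwards [(den_tendsto' hL hα hB).eventually_gt_atTop 0] with x hx
      rw [norm_div, norm_div, Real.norm_eq_abs, Real.norm_eq_abs, Real.norm_eq_abs,
        abs_of_pos hx, abs_of_pos (by norm_num : (0 : ℝ) < 2)]
      have := hb x
      gcongr
    have := h.left.sub h1
    rw [sub_zero] at this
    refine this.congr fun x => ?_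
    rw [sub_div]

/-- moments for stretched exponential lower bound -/
theorem moments_of_lower {Q : ℝ → ℝ} (hQ : Measurable Q) {c γ Y : ℝ} (hc : 0 < c) (hγ : 0 < γ)
    (hY : 1 ≤ Y) (h : ∀ x, Y ≤ |x| → c * |x| ^ γ ≤ 2 * Q x) (h0 : ∀ x, 0 ≤ 2 * Q x) (n : ℕ) :
    Integrable (fun x => x ^ n * Real.exp (-(2 * Q x))) := by
  obtain ⟨k, hk⟩ := exists_nat_gt ((n + 2 : ℝ) / γ)
  have hk' : (n + 2 : ℝ) ≤ γ * k := by
    rw [div_lt_iff₀ hγ] at hk
    linarith
  set M : ℝ := max (Y ^ n * (1 + Y ^ 2)) (2 * (k.factorial / c ^ k)) with hM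
  have hint : Integrable (fun x : ℝ => M * (1 + x ^ 2)⁻¹) :=
    integrable_inv_one_add_sq.const_mul M
  refine hint.mono' ?_ ?_
  · exact ((measurable_id.pow_const n).mul
      (hQ.const_mul 2).neg.exp).aestronglyMeasurable
  · refine Eventually.of_forall fun x => ?_
    rw [norm_mul, norm_pow, Real.norm_eq_abs, Real.norm_eq_abs, abs_of_pos (Real.exp_pos _)]
    have hx2 : (0 : ℝ) < 1 + x ^ 2 := by positivity
    rw [← div_eq_mul_inv, le_div_iff₀ hx2]
    have hab := abs_nonneg x
    rcases le_total Y |x| with hx | hx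
    · have hx1 : 1 ≤ |x| := hY.trans hx
      have hx0 : 0 < |x| := by linarith
      have e1 : Real.exp (-(2 * Q x)) ≤ Real.exp (-(c * |x| ^ γ)) :=
        Real.exp_le_exp.2 (neg_le_neg (h x hx))
      have hcx : 0 < c * |x| ^ γ := by positivity
      have e2 := Real.pow_div_factorial_le_exp (c * |x| ^ γ) hcx.le k
      have e3 : Real.exp (-(c * |x| ^ γ)) ≤ k.factorial / (c * |x| ^ γ) ^ k := by
        rw [Real.exp_neg, inv_le_comm₀ (Real.exp_pos _) (by positivity), inv_div]
        exact e2
      have e4 : |x| ^ n * (1 + x ^ 2) ≤ 2 * |x| ^ (n + 2) := by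
        rw [← sq_abs x, pow_add]
        have : 1 ≤ |x| ^ 2 := one_le_pow₀ hx1
        nlinarith [pow_pos hx0 n]
      have e5 : |x| ^ (n + 2) * (k.factorial / (c * |x| ^ γ) ^ k) ≤ k.factorial / c ^ k := by
        have : (|x| ^ γ) ^ k = |x| ^ (γ * k) := by
          rw [← Real.rpow_natCast, ← Real.rpow_mul hx0.le]
        rw [mul_pow, this]
        have h6 : |x| ^ (n + 2) ≤ |x| ^ (γ * k) := by
          have : |x| ^ (n + 2) = |x| ^ ((n + 2 : ℕ) : ℝ) := (Real.rpow_natCast _ _).symm
          rw [this]
          apply Real.rpow_le_rpow_of_exponent_le hx1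
          push_cast
          exact hk'
        have h7 : 0 < |x| ^ (γ * k) := by positivity
        have h8 : |x| ^ (n + 2) * (k.factorial / (c ^ k * |x| ^ (γ * k))) =
            (|x| ^ (n + 2) / |x| ^ (γ * k)) * (k.factorial / c ^ k) := by
          field_simp
        rw [h8]
        have h9 : |x| ^ (n + 2) / |x| ^ (γ * k) ≤ 1 := (div_le_one h7).2 h6
        have h10 : 0 ≤ (k.factorial : ℝ) / c ^ k := by positivity
        nlinarith
      calc |x| ^ n * Real.exp (-(2 * Q x)) * (1 + x ^ 2)
          = (|x| ^ n * (1 + x ^ 2)) * Real.exp (-(2 * Q x)) := by ring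
        _ ≤ (2 * |x| ^ (n + 2)) * (k.factorial / (c * |x| ^ γ) ^ k) :=
            mul_le_mul e4 (e1.trans e3) (Real.exp_pos _).le (by positivity)
        _ = 2 * (|x| ^ (n + 2) * (k.factorial / (c * |x| ^ γ) ^ k)) := by ring
        _ ≤ 2 * (k.factorial / c ^ k) := by linarith
        _ ≤ M := le_max_right _ _
    · have e1 : Real.exp (-(2 * Q x)) ≤ 1 := by
        rw [Real.exp_le_one_iff]; linarith [h0 x]
      have e2 : |x| ^ n ≤ Y ^ n := pow_le_pow_left₀ hab hx n
      have e3 : 1 + x ^ 2 ≤ 1 + Y ^ 2 := by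
        rw [← sq_abs x]
        have := pow_le_pow_left₀ hab hx 2
        linarith
      calc |x| ^ n * Real.exp (-(2 * Q x)) * (1 + x ^ 2) ≤ Y ^ n * 1 * (1 + Y ^ 2) := by
            gcongr
        _ = Y ^ n * (1 + Y ^ 2) := by ring
        _ ≤ M := le_max_left _ _

/-- The class (H) is non-empty for every choice of the parameters. -/
theorem exists_hypH (hL : SlowlyVarying L) (hα : 0 < α) (hA : 0 < A) (hB : 0 < B) :
    ∃ Q, HypH α A B L Q := by
  obtain ⟨Y, C, hY, hC, hYC⟩ := mul_L_lower hL
  set L' : ℝ → ℝ := fun x => if hx : x ∈ Set.Ioi (0 : ℝ) then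
    (fun y : Set.Ioi (0 : ℝ) => L y) ⟨x, hx⟩ else
    (fun _ : ((Set.Ioi (0 : ℝ))ᶜ : Set ℝ) => (1 : ℝ)) ⟨x, hx⟩ with hL'
  have mL' : Measurable L' := Measurable.dite hL.measurable measurable_const measurableSet_Ioi
  have eL' : ∀ x, 0 < x → L' x = L x := by
    intro x hx
    simp only [hL']
    rw [dif_pos (show x ∈ Set.Ioi (0 : ℝ) from hx)]
  set Q : ℝ → ℝ := fun x => if Y ≤ x then A * x ^ α * L' x ^ α else
    if x ≤ -Y then B * |x| ^ α * L' |x| ^ α else 0 with hQ
  have mabs : Measurable (fun x : ℝ => |x|) := continuous_abs.measurable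
  have mQ : Measurable Q := by
    apply Measurable.ite measurableSet_Ici
    · exact ((measurable_id.pow_const α).const_mul A).mul (mL'.pow_const α)
    · apply Measurable.ite measurableSet_Iic
      · exact ((mabs.pow_const α).const_mul B).mul ((mL'.comp mabs).pow_const α)
      · exact measurable_const
  have key : ∀ x, Y ≤ x → C ^ α * x ^ (α / 2) ≤ x ^ α * L x ^ α := by
    intro x hx
    have hx0 : 0 < x := by linarith
    have h1 := hYC x hx
    rw [← Real.mul_rpow hx0.le (hL.pos x hx0).le]
    have h2 : (C * x ^ (1 / 2 : ℝ)) ^ α = C ^ α * x ^ (α / 2) := by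
      rw [Real.mul_rpow hC.le (by positivity), ← Real.rpow_mul hx0.le]
      congr 2
      ring
    rw [← h2]
    exact Real.rpow_le_rpow (by positivity) h1 hα.le
  have hQlow : ∀ x, Y ≤ |x| → 2 * (min A B * C ^ α) * |x| ^ (α / 2) ≤ 2 * Q x := by
    intro x hx
    have hmA : min A B ≤ A := min_le_left _ _
    have hmB : min A B ≤ B := min_le_right _ _
    have hm : 0 < min A B := lt_min hA hB
    have hx0 : 0 < |x| := by linarith
    have k1 := key |x| hx
    have hk0 : 0 ≤ C ^ α * |x| ^ (α / 2) := by positivity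
    rcases le_total 0 x with h0 | h0
    · rw [abs_of_nonneg h0] at *
      simp only [hQ]
      rw [if_pos hx, eL' x hx0]
      nlinarith [mul_le_mul hmA k1 hk0 hA.le]
    · rw [abs_of_nonpos h0] at *
      simp only [hQ]
      rw [if_neg (by linarith), if_pos (by linarith), abs_of_nonpos h0, eL' (-x) hx0]
      nlinarith [mul_le_mul hmB k1 hk0 hB.le]
  have hQ0 : ∀ x, 0 ≤ 2 * Q x := by
    intro x
    rcases le_total Y |x| with hx | hx
    · have := hQlow x hx
      have hx0 : 0 < |x| := by linarith
      have hm : 0 < min A B := lt_min hA hB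
      exact le_trans (by positivity) this
    · rcases hx.eq_or_lt with hx | hx
      · have := hQlow x hx.ge
        have hx0 : 0 < |x| := by linarith
        have hm : 0 < min A B := lt_min hA hB
        exact le_trans (by positivity) this
      · have := abs_lt.1 hx
        simp only [hQ]
        rw [if_neg (by linarith), if_neg (by linarith)]
        norm_num
  refine ⟨Q, mQ, ?_, ?_, ?_⟩
  · exact moments_of_lower mQ (by have hm : 0 < min A B := lt_min hA hB; positivity)
      (by positivity) hY hQlow hQ0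
  · have : (fun _ : ℝ => (1 : ℝ)) =ᶠ[atTop] fun x => Q x / (A * x ^ α * L x ^ α) := by
      filter_upwards [eventually_ge_atTop Y] with x hx
      have hx0 : 0 < x := by linarith
      simp only [hQ]
      rw [if_pos hx, eL' x hx0]
      have := hL.pos x hx0
      exact (div_self (by positivity)).symm
    exact tendsto_const_nhds.congr' this
  · have : (fun _ : ℝ => (1 : ℝ)) =ᶠ[atBot] fun x => Q x / (B * |x| ^ α * L |x| ^ α) := by
      filter_upwards [eventually_le_atBot (-Y)] with x hx
      have hx0 : 0 < |x| := abs_pos.2 (by linarith)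
      simp only [hQ]
      rw [if_neg (by linarith), if_pos hx, eL' |x| hx0]
      have := hL.pos |x| hx0
      exact (div_self (by positivity)).symm
    exact tendsto_const_nhds.congr' this

end Pool.Agent.Helper93
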