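import Mathlib
import Pool.Agent.Helper93.OP

open Polynomial MeasureTheory Filter Topology

namespace Pool.Agent.Helper93

variable {w : ℝ → ℝ}

theorem ip_odd (hev : ∀ x, w (-x) = w x) (P : ℝ[X]) (s : ℝ) (hs : s ^ 2 = 1)
    (hP : ∀ x, P.eval (-x) = s * P.eval x) : ip w (X * P) P = 0 := by
  unfold ip
  have h1 := integral_neg_eq_self (fun x => (X * P).eval x * P.eval x * w x) volume
  have h2 : (fun x : ℝ => (X * P).eval (-x) * P.eval (-x) * w (-x)) =
      fun x => -((X * P).eval x * P.eval x * w x) := by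
    funext x
    simp only [eval_mul, eval_X, hP, hev]
    calc _ = -(s ^ 2 * (x * P.eval x * P.eval x * w x)) := by ring
      _ = _ := by rw [hs, one_mul]
  rw [h2, integral_neg] at h1
  linarith

theorem mop_parity (hev : ∀ x, w (-x) = w x) (n : ℕ) :
    ∀ x, (mop w n).eval (-x) = (-1) ^ n * (mop w n).eval x := by
  induction n using Nat.strong_induction_on with
  | _ n ih =>
    have hs : ∀ m : ℕ, ((-1 : ℝ) ^ m) ^ 2 = 1 := fun m => by
      rw [← pow_mul, mul_comm, pow_mul]; norm_num
    match n, ih with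
    | 0, _ => intro x; simp [mop]
    | 1, _ =>
      intro x
      have h0 : ip w (X * 1) 1 = 0 := ip_odd hev 1 1 (by norm_num) (fun x => by simp)
      rw [mop, h0]
      simp
    | (n + 2), ih =>
      intro x
      have h1 := ih (n + 1) (by omega)
      have h0 := ih n (by omega)
      rw [mop, ip_odd hev (mop w (n + 1)) _ (hs (n + 1)) h1]
      simp only [zero_div, C_0, sub_zero, eval_sub, eval_mul, eval_X, eval_C, h1, h0]
      ring

theorem onp_sq_even (hev : ∀ x, w (-x) = w x) (n : ℕ) (x : ℝ) :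
    (onp w n).eval (-x) ^ 2 = (onp w n).eval x ^ 2 := by
  unfold onp
  simp only [eval_mul, eval_C, mop_parity hev n x]
  have : ((-1 : ℝ) ^ n) ^ 2 = 1 := by rw [← pow_mul, mul_comm, pow_mul]; norm_num
  calc _ = ((-1 : ℝ) ^ n) ^ 2 * ((nrm w n)⁻¹ * (mop w n).eval x) ^ 2 := by ring
    _ = _ := by rw [this, one_mul]

end Pool.Agent.Helper93
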