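import Mathlib

/-!
# Weights with small leverage scores

`w : κ → Fin D → ℝ` spans.  If every proper set `X` of indices satisfies
`5 * (D - rank X) < 2 * (number of indices outside X)`, there are positive weights `lam` such that
with `A = ∑ lam k • w k (w k)ᵀ` all the numbers `lam k * (w k)ᵀ A⁻¹ (w k)` are at most `2 / 5`.
-/

namespace Pool.Agent.Helper93.Psd

set_option linter.unusedSectionVars false

open Finset Matrix

section layer

variable {κ : Type*} [Fintype κ] [DecidableEq κ]

theorem layer (c : κ → ℝ) : ∀ (m : ℕ) (τ : κ → ℝ), (∀ k, 0 ≤ τ k) →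
    (univ.filter fun k => 0 < τ k).card = m →
    (∀ s, 0 ≤ s → (univ.filter fun k => s < τ k).Nonempty →
      1 ≤ ∑ k ∈ univ.filter (fun k => s < τ k), c k) →
    ∀ k0, τ k0 ≤ ∑ k, c k * τ k := by
  intro m
  induction m using Nat.strong_induction_on with
  | _ m ih =>
  intro τ hτ hm hc k0
  rcases (univ.filter fun k => 0 < τ k).eq_empty_or_nonempty with h0 | hne
  · have h1 : ∀ k, τ k = 0 := by
      intro k
      by_contra hk
      have h2 : k ∈ (univ.filter fun k => 0 < τ k) :=
        Finset.mem_filter.2 ⟨Finset.mem_univ _, lt_of_le_of_ne (hτ k) (Ne.symm hk)⟩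
      rw [h0] at h2
      exact Finset.notMem_empty _ h2
    simp [h1]
  obtain ⟨k1, hk1, hmin⟩ := Finset.exists_min_image _ τ hne
  have hk1' : 0 < τ k1 := (Finset.mem_filter.1 hk1).2
  let τ' : κ → ℝ := fun k => if 0 < τ k then τ k - τ k1 else 0
  have hτ'0 : ∀ k, 0 ≤ τ' k := by
    intro k
    simp only [τ']
    split_ifs with h
    · exact sub_nonneg.2 (hmin k (Finset.mem_filter.2 ⟨Finset.mem_univ _, h⟩))
    · exact le_refl _
  have hset : ∀ s, 0 ≤ s → (univ.filter fun k => s < τ' k) = univ.filter fun k => s + τ k1 < τ k := by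
    intro s hs
    ext k
    simp only [Finset.mem_filter, Finset.mem_univ, true_and, τ']
    split_ifs with h
    · constructor <;> intro h2 <;> linarith
    · constructor
      · intro h2; linarith
      · intro h2; linarith
  have hcard : (univ.filter fun k => 0 < τ' k).card < m := by
    rw [← hm, hset 0 le_rfl]
    apply Finset.card_lt_card
    rw [Finset.ssubset_iff_of_subset]
    · exact ⟨k1, hk1, by simp⟩
    · intro k hk
      rw [Finset.mem_filter] at hk ⊢
      exact ⟨hk.1, by linarith [hk.2]⟩
  have hih := ih _ hcard τ' hτ'0 rfl (by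
    intro s hs hne'
    rw [hset s hs] at hne' ⊢
    exact hc _ (by linarith) hne') k0
  have hsum : ∑ k, c k * τ k = ∑ k, c k * τ' k + τ k1 * ∑ k ∈ univ.filter (fun k => 0 < τ k), c k := by
    rw [Finset.mul_sum, Finset.sum_filter, ← Finset.sum_add_distrib]
    refine Finset.sum_congr rfl fun k _ => ?_
    simp only [τ']
    split_ifs with h
    · ring
    · have h1 : τ k = 0 := le_antisymm (not_lt.1 h) (hτ k)
      rw [h1]; ring
  have h1 := hc 0 le_rfl hne
  have h2 : τ k1 * 1 ≤ τ k1 * ∑ k ∈ univ.filter (fun k => 0 < τ k), c k :=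
    mul_le_mul_of_nonneg_left h1 hk1'.le
  have h3 : τ k0 ≤ τ' k0 + τ k1 := by
    simp only [τ']
    split_ifs with h
    · linarith
    · linarith
  rw [hsum]
  linarith

end layer

section basis

variable {κ : Type*} [Fintype κ] [DecidableEq κ] {D : ℕ}

theorem exists_basis (w : κ → Fin D → ℝ) (hspan : Submodule.span ℝ (Set.range w) = ⊤) :
    ∃ B : Fin D → κ, (Matrix.of fun j => w (B j)).det ≠ 0 := by
  classical
  let B0 := Module.Basis.ofSpan hspan.ge
  have : Fintype (((linearIndepOn_empty ℝ (id : (Fin D → ℝ) → (Fin D → ℝ))).extend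
    (Set.empty_subset (Set.range w)))) := FiniteDimensional.fintypeBasisIndex B0
  have hcard : Fintype.card _ = D := (Module.finrank_eq_card_basis B0).symm.trans (by simp)
  let e := Fintype.equivFinOfCardEq hcard
  have hmem : ∀ j : Fin D, ∃ i, w i = B0.reindex e j := by
    intro j
    rw [Module.Basis.reindex_apply]
    exact Module.Basis.ofSpan_subset hspan.ge ⟨_, rfl⟩
  choose b hb using hmem
  refine ⟨b, ?_⟩
  have h1 : LinearIndependent ℝ (fun j => (Matrix.of fun j => w (b j)) j) := by
    have h2 : (fun j => (Matrix.of fun j => w (b j)) j) = B0.reindex e := by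
      funext j
      exact hb j
    rw [h2]
    exact (B0.reindex e).linearIndependent
  have h3 := Matrix.linearIndependent_rows_iff_isUnit.1 h1
  rw [Matrix.isUnit_iff_isUnit_det, isUnit_iff_ne_zero] at h3
  exact h3

/-- A basis of minimal weight: every `w k` is spanned by the basis vectors of weight at most
`τ k`. -/
theorem exists_min_basis (w : κ → Fin D → ℝ) (hspan : Submodule.span ℝ (Set.range w) = ⊤)
    (τ : κ → ℝ) :
    ∃ B : Fin D → κ, (Matrix.of fun j => w (B j)).det ≠ 0 ∧
      ∀ k, w k ∈ Submodule.span ℝ ((fun j => w (B j)) '' {j | τ (B j) ≤ τ k}) := by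
  classical
  obtain ⟨B1, hB1⟩ := exists_basis w hspan
  obtain ⟨B, hB, hmin⟩ := Finset.exists_min_image
    (univ.filter fun B : Fin D → κ => (Matrix.of fun j => w (B j)).det ≠ 0)
    (fun B => ∑ j, τ (B j)) ⟨B1, Finset.mem_filter.2 ⟨Finset.mem_univ _, hB1⟩⟩
  have hB' := (Finset.mem_filter.1 hB).2
  refine ⟨B, hB', fun k => ?_⟩
  let W : Matrix (Fin D) (Fin D) ℝ := Matrix.of fun j => w (B j)
  let c : Fin D → ℝ := w k ᵥ* W⁻¹
  have hc : w k = ∑ j, c j • w (B j) := by
    have h1 : c ᵥ* W = w k := by
      simp only [c]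
      rw [Matrix.vecMul_vecMul, Matrix.nonsing_inv_mul _ (isUnit_iff_ne_zero.2 hB'),
        Matrix.vecMul_one]
    rw [← h1]
    funext i
    simp [Matrix.vecMul, dotProduct, W]
  have hc0 : ∀ j, τ k < τ (B j) → c j = 0 := by
    intro j hj
    by_contra hcj
    have h1 : (Matrix.of fun j' => w (Function.update B j k j')) = W.updateRow j (∑ j, c j • W j) := by
      ext a b
      rw [Matrix.updateRow_apply, Matrix.of_apply]
      by_cases hab : a = j
      · subst hab
        rw [Function.update_self, if_pos rfl]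
        rw [hc]
        rfl
      · rw [Function.update_of_ne hab, if_neg hab]
        rfl
    have h2 : (Matrix.of fun j' => w (Function.update B j k j')).det ≠ 0 := by
      rw [h1, Matrix.det_updateRow_sum]
      exact mul_ne_zero hcj hB'
    have h3 := hmin _ (Finset.mem_filter.2 ⟨Finset.mem_univ _, h2⟩)
    have h4 : ∑ j', τ (Function.update B j k j') = ∑ j', τ (B j') - τ (B j) + τ k := by
      rw [← Finset.add_sum_erase _ _ (Finset.mem_univ j),
        ← Finset.add_sum_erase univ (fun j' => τ (B j')) (Finset.mem_univ j)]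
      rw [Function.update_self]
      have h5 : ∑ x ∈ univ.erase j, τ (Function.update B j k x) = ∑ x ∈ univ.erase j, τ (B x) := by
        refine Finset.sum_congr rfl fun x hx => ?_
        rw [Function.update_of_ne (Finset.ne_of_mem_erase hx)]
      rw [h5]; ring
    rw [h4] at h3
    linarith
  rw [hc]
  refine Submodule.sum_mem _ fun j _ => ?_
  by_cases hj : τ (B j) ≤ τ k
  · exact Submodule.smul_mem _ _ (Submodule.subset_span ⟨j, hj, rfl⟩)
  · rw [hc0 j (not_le.1 hj), zero_smul]
    exact Submodule.zero_mem _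

end basis

section frame

variable {κ : Type*} [Fintype κ] [DecidableEq κ] {D : ℕ}

/-- The frame operator of a set of indices. -/
noncomputable def fr (w : κ → Fin D → ℝ) (lam : κ → ℝ) (S : Finset κ) :
    Matrix (Fin D) (Fin D) ℝ :=
  ∑ k ∈ S, lam k • vecMulVec (w k) (w k)

theorem fr_posSemidef (w : κ → Fin D → ℝ) (lam : κ → ℝ) (hlam : ∀ k, 0 ≤ lam k) (S : Finset κ) :
    (fr w lam S).PosSemidef := by
  refine Matrix.posSemidef_sum _ fun k _ => ?_
  have h1 := (Matrix.posSemidef_vecMulVec_self_star (w k)).smul (hlam k)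
  simpa using h1

theorem det_rank_one {A : Matrix (Fin D) (Fin D) ℝ} (hA : A.det ≠ 0) (c : ℝ) (u : Fin D → ℝ) :
    (A + c • vecMulVec u u).det = A.det * (1 + c * (u ⬝ᵥ (A⁻¹ *ᵥ u))) := by
  have h1 : c • vecMulVec u u = replicateCol Unit (c • u) * replicateRow Unit u := by
    ext i j
    simp [vecMulVec_apply, Matrix.mul_apply, mul_assoc]
  rw [h1, Matrix.det_add_replicateCol_mul_replicateRow (isUnit_iff_ne_zero.2 hA)]
  congr 1
  rw [det_unique, Matrix.add_apply, Matrix.one_apply_eq]
  congr 1
  rw [Matrix.mul_assoc, Matrix.mul_apply]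
  simp only [Matrix.replicateRow_apply, Matrix.mul_apply, Matrix.replicateCol_apply, Pi.smul_apply,
    smul_eq_mul, dotProduct, mulVec, Finset.mul_sum]
  refine Finset.sum_congr rfl fun i _ => Finset.sum_congr rfl fun j _ => ?_
  ring

theorem quad_inv_nonneg {A : Matrix (Fin D) (Fin D) ℝ} (hA : A.PosDef) (u : Fin D → ℝ) :
    0 ≤ u ⬝ᵥ (A⁻¹ *ᵥ u) := by
  have h1 := hA.inv.posSemidef.dotProduct_mulVec_nonneg u
  simpa using h1

theorem det_fr_ge (w : κ → Fin D → ℝ) (lam : κ → ℝ) (hlam : ∀ k, 0 ≤ lam k) (S : Finset κ)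
    (hS : 0 < (fr w lam S).det) :
    ∀ T : Finset κ, Disjoint S T → (fr w lam S).det ≤ (fr w lam (S ∪ T)).det := by
  intro T
  induction T using Finset.induction_on with
  | empty => intro _; simp
  | insert k T hk ih =>
    intro hd
    rw [Finset.disjoint_insert_right] at hd
    have h1 := ih hd.2
    have h2 : fr w lam (S ∪ insert k T) = fr w lam (S ∪ T) + lam k • vecMulVec (w k) (w k) := by
      rw [Finset.union_insert, fr, Finset.sum_insert, add_comm]
      · rfl
      · simp [hk, hd.1]
    have h3 : 0 < (fr w lam (S ∪ T)).det := hS.trans_le h1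
    have h4 : (fr w lam (S ∪ T)).PosDef :=
      (fr_posSemidef w lam hlam _).posDef_iff_det_ne_zero.2 h3.ne'
    rw [h2, det_rank_one h3.ne']
    refine h1.trans ?_
    have h5 := mul_nonneg (hlam k) (quad_inv_nonneg h4 (w k))
    nlinarith

theorem det_fr_image (w : κ → Fin D → ℝ) (lam : κ → ℝ) (B : Fin D → κ)
    (hB : (Matrix.of fun j => w (B j)).det ≠ 0) :
    (fr w lam (univ.image B)).det = (∏ j, lam (B j)) * (Matrix.of fun j => w (B j)).det ^ 2 := by
  have hinj : Function.Injective B := by
    intro i j hij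
    by_contra hne
    apply hB
    refine Matrix.det_zero_of_row_eq hne ?_
    show w (B i) = w (B j)
    rw [hij]
  have h1 : fr w lam (univ.image B) =
      (Matrix.of fun j => w (B j))ᵀ * (Matrix.diagonal fun j => lam (B j)) *
        (Matrix.of fun j => w (B j)) := by
    rw [fr, Finset.sum_image (fun i _ j _ h => hinj h)]
    ext a b
    rw [Matrix.sum_apply, Matrix.mul_apply]
    refine Finset.sum_congr rfl fun j _ => ?_
    rw [Matrix.mul_diagonal, Matrix.smul_apply, vecMulVec_apply, Matrix.transpose_apply,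
      smul_eq_mul]
    show lam (B j) * (w (B j) a * w (B j) b) = w (B j) a * lam (B j) * w (B j) b
    ring
  rw [h1, Matrix.det_mul, Matrix.det_mul, Matrix.det_transpose, Matrix.det_diagonal]
  ring

theorem det_fr_univ_ge (w : κ → Fin D → ℝ) (lam : κ → ℝ) (hlam : ∀ k, 0 < lam k) (B : Fin D → κ)
    (hB : (Matrix.of fun j => w (B j)).det ≠ 0) :
    (∏ j, lam (B j)) * (Matrix.of fun j => w (B j)).det ^ 2 ≤ (fr w lam univ).det := by
  rw [← det_fr_image w lam B hB]
  have h1 : 0 < (fr w lam (univ.image B)).det := by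
    rw [det_fr_image w lam B hB]
    exact mul_pos (Finset.prod_pos fun j _ => hlam _) (by positivity)
  have h2 := det_fr_ge w lam (fun k => (hlam k).le) (univ.image B) h1 (univ \ univ.image B)
    Finset.disjoint_sdiff
  rwa [Finset.union_sdiff_of_subset (Finset.subset_univ _)] at h2

theorem det_fr_pos (w : κ → Fin D → ℝ) (hspan : Submodule.span ℝ (Set.range w) = ⊤)
    (lam : κ → ℝ) (hlam : ∀ k, 0 < lam k) : 0 < (fr w lam univ).det := by
  obtain ⟨B, hB⟩ := exists_basis w hspan
  exact (mul_pos (Finset.prod_pos fun j _ => hlam _) (by positivity)).trans_le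
    (det_fr_univ_ge w lam hlam B hB)

theorem fr_posDef (w : κ → Fin D → ℝ) (hspan : Submodule.span ℝ (Set.range w) = ⊤)
    (lam : κ → ℝ) (hlam : ∀ k, 0 < lam k) : (fr w lam univ).PosDef :=
  (fr_posSemidef w lam (fun k => (hlam k).le) _).posDef_iff_det_ne_zero.2
    (det_fr_pos w hspan lam hlam).ne'

/-- The potential. -/
noncomputable def pot (w : κ → Fin D → ℝ) (τ : κ → ℝ) : ℝ :=
  5 * Real.log (fr w (fun k => Real.exp (-τ k)) univ).det + 2 * ∑ k, τ k

theorem pot_ge (w : κ → Fin D → ℝ) (hspan : Submodule.span ℝ (Set.range w) = ⊤)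
    (hX : ∀ X : Finset κ, X ≠ univ →
      5 * ((D : ℤ) - Module.finrank ℝ (Submodule.span ℝ (w '' X))) < 2 * ((univ \ X).card : ℤ)) :
    ∃ C : ℝ, ∀ τ : κ → ℝ, (∀ k, 0 ≤ τ k) → ∀ k0, C + τ k0 ≤ pot w τ := by
  obtain ⟨C0, hC0⟩ := (Set.finite_range (fun B : Fin D → κ =>
    Real.log ((Matrix.of fun j => w (B j)).det ^ 2))).bddBelow
  refine ⟨5 * C0, fun τ hτ k0 => ?_⟩
  obtain ⟨B, hB, hBs⟩ := exists_min_basis w hspan τ
  have h1 := det_fr_univ_ge w (fun k => Real.exp (-τ k)) (fun k => Real.exp_pos _) B hB
  have h2 : (∏ j, Real.exp (-τ (B j))) = Real.exp (-∑ j, τ (B j)) := by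
    rw [← Real.exp_sum, Finset.sum_neg_distrib]
  rw [h2] at h1
  have h3 : -(∑ j, τ (B j)) + Real.log ((Matrix.of fun j => w (B j)).det ^ 2) ≤
      Real.log (fr w (fun k => Real.exp (-τ k)) univ).det := by
    rw [← Real.log_exp (-∑ j, τ (B j)), ← Real.log_mul (Real.exp_pos _).ne' (by positivity)]
    exact Real.log_le_log (mul_pos (Real.exp_pos _) (by positivity)) h1
  have h4 : C0 ≤ Real.log ((Matrix.of fun j => w (B j)).det ^ 2) := hC0 ⟨B, rfl⟩
  have h5 := layer (fun k => 2 - 5 * ((univ.filter fun j => B j = k).card : ℝ)) _ τ hτ rfl (by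
    intro s hs hne
    have e1 : ∑ k ∈ univ.filter (fun k => s < τ k), (2 - 5 * ((univ.filter fun j => B j = k).card : ℝ))
        = 2 * ((univ.filter (fun k => s < τ k)).card : ℝ) -
          5 * ((univ.filter fun j => s < τ (B j)).card : ℝ) := by
      rw [Finset.sum_sub_distrib, ← Finset.mul_sum, Finset.sum_const, nsmul_eq_mul, mul_comm]
      congr 2
      rw [← Nat.cast_sum]
      congr 1
      rw [Finset.card_eq_sum_card_fiberwise (f := B) (t := univ.filter (fun k => s < τ k))]
      · refine Finset.sum_congr rfl fun k hk => ?_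
        congr 1
        ext j
        simp only [Finset.mem_filter, Finset.mem_univ, true_and]
        constructor
        · rintro rfl
          exact ⟨(Finset.mem_filter.1 hk).2, rfl⟩
        · rintro ⟨_, h⟩
          exact h
      · intro j hj
        simpa using hj
    rw [e1]
    let X : Finset κ := univ.filter fun k => τ k ≤ s
    have hXc : univ \ X = univ.filter (fun k => s < τ k) := by
      ext k
      simp [X]
    have hXne : X ≠ univ := by
      intro h
      rw [h, Finset.sdiff_self] at hXc
      rw [← hXc] at hne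
      exact Finset.not_nonempty_empty hne
    have h6 := hX X hXne
    rw [hXc] at h6
    have h7 : Module.finrank ℝ (Submodule.span ℝ (w '' X)) ≤
        (univ.filter fun j => τ (B j) ≤ s).card := by
      have h8 : Submodule.span ℝ (w '' X) ≤
          Submodule.span ℝ (((univ.filter fun j => τ (B j) ≤ s).image fun j => w (B j) :
            Finset (Fin D → ℝ)) : Set (Fin D → ℝ)) := by
        rw [Submodule.span_le]
        rintro _ ⟨k, hk, rfl⟩
        have hk' : τ k ≤ s := by simpa [X] using hk
        refine Submodule.span_mono ?_ (hBs k)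
        rintro _ ⟨j, hj, rfl⟩
        have hj' : τ (B j) ≤ τ k := hj
        rw [Finset.coe_image]
        exact ⟨j, by simpa using hj'.trans hk', rfl⟩
      refine (Submodule.finrank_mono h8).trans ?_
      refine (finrank_span_finset_le_card _).trans ?_
      exact Finset.card_image_le
    have h9 : (univ.filter fun j => τ (B j) ≤ s).card + (univ.filter fun j => s < τ (B j)).card = D := by
      have h10 := Finset.card_filter_add_card_filter_not (s := (univ : Finset (Fin D)))
        (fun j => τ (B j) ≤ s)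
      simp only [not_le, Finset.card_univ, Fintype.card_fin] at h10
      exact h10
    have h11 : (1 : ℤ) ≤ 2 * ((univ.filter (fun k => s < τ k)).card : ℤ) -
          5 * ((univ.filter fun j => s < τ (B j)).card : ℤ) := by
      omega
    exact_mod_cast h11) k0
  have h12 : ∑ k, (2 - 5 * ((univ.filter fun j => B j = k).card : ℝ)) * τ k =
      2 * ∑ k, τ k - 5 * ∑ j, τ (B j) := by
    simp only [sub_mul]
    rw [Finset.sum_sub_distrib, ← Finset.mul_sum]
    congr 1
    simp only [mul_assoc]
    rw [← Finset.mul_sum]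
    congr 1
    rw [← Finset.sum_fiberwise_of_maps_to (s := univ) (t := univ) (g := B) (fun _ _ => Finset.mem_univ _)]
    refine Finset.sum_congr rfl fun k _ => ?_
    rw [Finset.sum_congr rfl (g := fun _ => τ k), Finset.sum_const, nsmul_eq_mul]
    intro j hj
    rw [(Finset.mem_filter.1 hj).2]
  rw [h12] at h5
  unfold pot
  linarith

theorem continuous_pot (w : κ → Fin D → ℝ) (hspan : Submodule.span ℝ (Set.range w) = ⊤) :
    Continuous (pot w) := by
  have h1 : Continuous fun τ : κ → ℝ => (fr w (fun k => Real.exp (-τ k)) univ).det := by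
    refine Continuous.matrix_det ?_
    unfold fr
    refine continuous_finsetSum _ fun k _ => ?_
    exact (Real.continuous_exp.comp (continuous_apply k).neg).smul continuous_const
  unfold pot
  refine (continuous_const.mul (h1.log fun τ => ?_)).add
    (continuous_const.mul (continuous_finsetSum _ fun k _ => continuous_apply k))
  exact (det_fr_pos w hspan _ fun k => Real.exp_pos _).ne'

/-- **Weights with leverage scores at most `2 / 5`.** -/
theorem exists_weights (w : κ → Fin D → ℝ) (hspan : Submodule.span ℝ (Set.range w) = ⊤)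
    (hX : ∀ X : Finset κ, X ≠ univ →
      5 * ((D : ℤ) - Module.finrank ℝ (Submodule.span ℝ (w '' X))) < 2 * ((univ \ X).card : ℤ)) :
    ∃ lam : κ → ℝ, (∀ k, 0 < lam k) ∧ (fr w lam univ).PosDef ∧
      ∀ k, lam k * (w k ⬝ᵥ ((fr w lam univ)⁻¹ *ᵥ w k)) ≤ 2 / 5 := by
  obtain ⟨C, hC⟩ := pot_ge w hspan hX
  let R : ℝ := max 0 (pot w 0 - C) + 1
  have hR : 0 < R := by
    have := le_max_left 0 (pot w 0 - C)
    simp only [R]; linarith
  obtain ⟨τ, hτ, hmin⟩ := (isCompact_Icc (a := (0 : κ → ℝ)) (b := fun _ => R)).exists_isMinOn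
    ⟨0, by simp, fun _ => hR.le⟩ (continuous_pot w hspan).continuousOn
  have hτ0 : ∀ k, 0 ≤ τ k := fun k => hτ.1 k
  have h0 : pot w τ ≤ pot w 0 := hmin (show (0 : κ → ℝ) ∈ Set.Icc _ _ from ⟨le_rfl, fun _ => hR.le⟩)
  have hτR : ∀ k, τ k + 1 ≤ R := by
    intro k
    have h1 := hC τ hτ0 k
    have h2 := le_max_right 0 (pot w 0 - C)
    simp only [R]; linarith
  let lam : κ → ℝ := fun k => Real.exp (-τ k)
  have hlam : ∀ k, 0 < lam k := fun k => Real.exp_pos _
  have hPD : (fr w lam univ).PosDef := fr_posDef w hspan lam hlam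
  have hdet : 0 < (fr w lam univ).det := det_fr_pos w hspan lam hlam
  refine ⟨lam, hlam, hPD, fun k => ?_⟩
  set ℓ : ℝ := lam k * (w k ⬝ᵥ ((fr w lam univ)⁻¹ *ᵥ w k)) with hℓ
  have hℓ0 : 0 ≤ ℓ := mul_nonneg (hlam k).le (quad_inv_nonneg hPD (w k))
  -- moving down
  have hstep : ∀ s : ℝ, 0 < s → s ≤ 1 → ℓ ≤ 2 / 5 * (1 + s) := by
    intro s hs hs1
    let τ' : κ → ℝ := Function.update τ k (τ k + s)
    have hτ' : τ' ∈ Set.Icc (0 : κ → ℝ) (fun _ => R) := by
      constructor
      · intro l
        simp only [τ']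
        by_cases hl : l = k
        · subst hl
          rw [Function.update_self]
          have := hτ0 l
          show (0 : ℝ) ≤ τ l + s
          linarith
        · rw [Function.update_of_ne hl]
          exact hτ0 l
      · intro l
        simp only [τ']
        by_cases hl : l = k
        · subst hl
          rw [Function.update_self]
          have := hτR l
          linarith
        · rw [Function.update_of_ne hl]
          have := hτR l
          linarith
    have h1 : pot w τ ≤ pot w τ' := hmin hτ'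
    have h2 : fr w (fun l => Real.exp (-τ' l)) univ =
        fr w lam univ + (-(lam k * (1 - Real.exp (-s)))) • vecMulVec (w k) (w k) := by
      unfold fr
      rw [← Finset.add_sum_erase univ _ (Finset.mem_univ k),
        ← Finset.add_sum_erase univ (fun l => lam l • vecMulVec (w l) (w l)) (Finset.mem_univ k)]
      have h3 : ∑ x ∈ univ.erase k, Real.exp (-τ' x) • vecMulVec (w x) (w x) =
          ∑ x ∈ univ.erase k, lam x • vecMulVec (w x) (w x) := by
        refine Finset.sum_congr rfl fun x hx => ?_
        simp only [τ', lam]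
        rw [Function.update_of_ne (Finset.ne_of_mem_erase hx)]
      rw [h3]
      have h4 : Real.exp (-τ' k) = lam k + -(lam k * (1 - Real.exp (-s))) := by
        simp only [τ', lam, Function.update_self]
        rw [neg_add, Real.exp_add]; ring
      show Real.exp (-τ' k) • vecMulVec (w k) (w k) + _ = _
      rw [h4, add_smul]
      abel
    have h3 : ∑ l, τ' l = ∑ l, τ l + s := by
      rw [← Finset.add_sum_erase univ _ (Finset.mem_univ k),
        ← Finset.add_sum_erase univ (fun l => τ l) (Finset.mem_univ k)]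
      have h3 : ∑ x ∈ univ.erase k, τ' x = ∑ x ∈ univ.erase k, τ x := by
        refine Finset.sum_congr rfl fun x hx => ?_
        simp only [τ']
        rw [Function.update_of_ne (Finset.ne_of_mem_erase hx)]
      rw [h3]
      simp only [τ', Function.update_self]
      ring
    have h4 : (fr w (fun l => Real.exp (-τ' l)) univ).det =
        (fr w lam univ).det * (1 - (1 - Real.exp (-s)) * ℓ) := by
      rw [h2, det_rank_one hdet.ne', hℓ]
      ring
    have h5 : 0 < (fr w (fun l => Real.exp (-τ' l)) univ).det :=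
      det_fr_pos w hspan _ fun l => Real.exp_pos _
    have h6 : 0 < 1 - (1 - Real.exp (-s)) * ℓ := by
      rw [h4] at h5
      exact (mul_pos_iff_of_pos_left hdet).1 h5
    unfold pot at h1
    rw [h3, h4, Real.log_mul hdet.ne' h6.ne'] at h1
    have h7 := Real.log_le_sub_one_of_pos h6
    have h8 : (fun k => Real.exp (-τ k)) = lam := rfl
    rw [h8] at h1
    have h9 : (1 - Real.exp (-s)) * ℓ ≤ 2 / 5 * s := by linarith
    have h10 : s / (1 + s) ≤ 1 - Real.exp (-s) := by
      have h11 := Real.add_one_le_exp s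
      have h12 : Real.exp (-s) ≤ 1 / (1 + s) := by
        rw [Real.exp_neg, ← one_div]
        exact one_div_le_one_div_of_le (by linarith) (by linarith)
      have h13 : s / (1 + s) = 1 - 1 / (1 + s) := by
        field_simp
        ring
      rw [h13]; linarith
    have h14 : s / (1 + s) * ℓ ≤ 2 / 5 * s := (mul_le_mul_of_nonneg_right h10 hℓ0).trans h9
    have h15 : s * ℓ ≤ s * (2 / 5 * (1 + s)) := by
      have h16 : s / (1 + s) * ℓ * (1 + s) ≤ 2 / 5 * s * (1 + s) :=
        mul_le_mul_of_nonneg_right h14 (by linarith)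
      have h17 : s / (1 + s) * ℓ * (1 + s) = s * ℓ := by
        field_simp
      rw [h17] at h16
      linarith
    exact le_of_mul_le_mul_left h15 hs
  by_contra hcon
  push Not at hcon
  have h1 := hstep (min 1 ((ℓ - 2 / 5) / 2)) (lt_min one_pos (by linarith)) (min_le_left _ _)
  have h2 := min_le_right 1 ((ℓ - 2 / 5) / 2)
  linarith

end frame

end Pool.Agent.Helper93.Psd
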