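import Mathlib
import Pool.Agent.Helper93.PsdWeights

/-!
# The trace inequality
-/

namespace Pool.Agent.Helper93.Psd

set_option linter.unusedSectionVars false

open Finset Matrix

section parseval

variable {κ : Type*} [Fintype κ] [DecidableEq κ] {E : Type*} [NormedAddCommGroup E]
  [InnerProductSpace ℝ E] [FiniteDimensional ℝ E]

theorem trace_ineq (u : κ → E) (hP : ∀ x y : E, ∑ k, inner ℝ (u k) x * inner ℝ (u k) y = inner ℝ x y)
    (T : Submodule ℝ E) (F : Finset κ) (hT : ∀ k, k ∉ F → ∀ x ∈ T, inner ℝ (u k) x = 0) :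
    (Module.finrank ℝ T : ℝ) ≤ ∑ k ∈ F, ∑ l ∈ F, inner ℝ (u k) (u l) ^ 2 := by
  let b := stdOrthonormalBasis ℝ T
  let t := Module.finrank ℝ T
  let e : Fin t → E := fun j => (b j : E)
  have he : ∀ i j, inner ℝ (e i) (e j) = if i = j then (1 : ℝ) else 0 := by
    intro i j
    have h1 := orthonormal_iff_ite.1 b.orthonormal i j
    rw [← h1]
    rfl
  let a : κ → Fin t → ℝ := fun k j => inner ℝ (u k) (e j)
  have ha0 : ∀ k, k ∉ F → ∀ j, a k j = 0 := fun k hk j => hT k hk _ (b j).2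
  -- Parseval with one argument in `T`
  have hPF : ∀ (x : E) (j : Fin t), ∑ k ∈ F, inner ℝ (u k) x * a k j = inner ℝ x (e j) := by
    intro x j
    rw [← hP x (e j)]
    refine Finset.sum_subset (Finset.subset_univ _) fun k _ hk => ?_
    rw [ha0 k hk j, mul_zero]
  have h1 : ∀ i j, ∑ k ∈ F, a k i * a k j = if i = j then (1 : ℝ) else 0 := by
    intro i j
    rw [← he i j, ← hPF (e i) j]
  let R : κ → κ → ℝ := fun k l => ∑ j, a k j * a l j
  have h2 : ∑ k ∈ F, ∑ l ∈ F, R k l * inner ℝ (u k) (u l) = (t : ℝ) := by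
    have e1 : ∀ k, ∑ l ∈ F, R k l * inner ℝ (u k) (u l) = ∑ j, a k j * a k j := by
      intro k
      simp only [R, Finset.sum_mul]
      rw [Finset.sum_comm]
      refine Finset.sum_congr rfl fun j _ => ?_
      have e2 := hPF (u k) j
      rw [show a k j = inner ℝ (u k) (e j) from rfl] 
      rw [← e2, Finset.mul_sum]
      refine Finset.sum_congr rfl fun l _ => ?_
      rw [real_inner_comm (u k) (u l)]
      ring
    rw [Finset.sum_congr rfl fun k _ => e1 k, Finset.sum_comm]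
    rw [Finset.sum_congr rfl fun j _ => h1 j j]
    simp
  have h3 : ∑ k ∈ F, ∑ l ∈ F, R k l ^ 2 = (t : ℝ) := by
    have e1 : ∀ k l, R k l ^ 2 = ∑ i, ∑ j, (a k i * a k j) * (a l i * a l j) := by
      intro k l
      rw [sq, Finset.sum_mul_sum]
      refine Finset.sum_congr rfl fun i _ => Finset.sum_congr rfl fun j _ => ?_
      ring
    have e2 : ∑ k ∈ F, ∑ l ∈ F, R k l ^ 2 = ∑ i : Fin t, ∑ j : Fin t,
        (∑ k ∈ F, a k i * a k j) * (∑ l ∈ F, a l i * a l j) := by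
      simp only [e1]
      rw [Finset.sum_congr rfl fun k _ => Finset.sum_comm, Finset.sum_comm]
      refine Finset.sum_congr rfl fun i _ => ?_
      rw [Finset.sum_congr rfl fun k _ => Finset.sum_comm, Finset.sum_comm]
      refine Finset.sum_congr rfl fun j _ => ?_
      rw [Finset.sum_mul_sum]
    rw [e2]
    simp [h1]
  have h4 : ((t : ℝ)) ^ 2 ≤ t * ∑ k ∈ F, ∑ l ∈ F, inner ℝ (u k) (u l) ^ 2 := by
    have h5 := Finset.sum_mul_sq_le_sq_mul_sq (F ×ˢ F) (fun p => R p.1 p.2)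
      (fun p => inner ℝ (u p.1) (u p.2))
    rw [Finset.sum_product, Finset.sum_product, Finset.sum_product] at h5
    rw [h2, h3] at h5
    exact h5
  rcases Nat.eq_zero_or_pos t with h0 | h0
  · rw [show Module.finrank ℝ T = 0 from h0, Nat.cast_zero]
    exact Finset.sum_nonneg fun k _ => Finset.sum_nonneg fun l _ => sq_nonneg _
  · have h5 : (0 : ℝ) < t := Nat.cast_pos.2 h0
    rw [sq] at h4
    exact le_of_mul_le_mul_left h4 h5

theorem sum_norm_sq (u : κ → E) (hP : ∀ x y : E, ∑ k, inner ℝ (u k) x * inner ℝ (u k) y = inner ℝ x y) :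
    ∑ k, inner ℝ (u k) (u k) = (Module.finrank ℝ E : ℝ) := by
  let b := stdOrthonormalBasis ℝ E
  have h1 : ∀ k, inner ℝ (u k) (u k) = ∑ j, inner ℝ (u k) (b j) * inner ℝ (u k) (b j) := by
    intro k
    have h2 := b.sum_inner_mul_inner (u k) (u k)
    rw [← h2]
    refine Finset.sum_congr rfl fun j _ => ?_
    rw [real_inner_comm (u k) (b j)]
  rw [Finset.sum_congr rfl fun k _ => h1 k, Finset.sum_comm,
    Finset.sum_congr rfl fun j _ => hP (b j) (b j)]
  simp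

theorem sum_sum_sq (u : κ → E) (hP : ∀ x y : E, ∑ k, inner ℝ (u k) x * inner ℝ (u k) y = inner ℝ x y) :
    ∑ k, ∑ l, inner ℝ (u k) (u l) ^ 2 = (Module.finrank ℝ E : ℝ) := by
  rw [← sum_norm_sq u hP]
  refine Finset.sum_congr rfl fun k _ => ?_
  rw [← hP (u k) (u k)]
  refine Finset.sum_congr rfl fun l _ => ?_
  rw [real_inner_comm (u l) (u k)]
  ring

/-- The averaged trace inequality for a Parseval frame with vectors of norm square at most `α`. -/
theorem avg_parseval {ι : Type*} [Fintype ι] (u : κ → E)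
    (hP : ∀ x y : E, ∑ k, inner ℝ (u k) x * inner ℝ (u k) y = inner ℝ x y) (α : ℝ) (hα : ∀ k, inner ℝ (u k) (u k) ≤ α)
    (T : ι → Submodule ℝ E) (F : ι → Finset κ)
    (hT : ∀ i k, k ∉ F i → ∀ x ∈ T i, inner ℝ (u k) x = 0) (N1 N2 : ℝ) (h12 : N2 ≤ N1)
    (hN1 : ∀ k, ((univ.filter fun i => k ∈ F i).card : ℝ) ≤ N1)
    (hN2 : ∀ k l, k ≠ l → ((univ.filter fun i => k ∈ F i ∧ l ∈ F i).card : ℝ) ≤ N2) :
    ∑ i, (Module.finrank ℝ (T i) : ℝ) ≤ Module.finrank ℝ E * (N2 + (N1 - N2) * α) := by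
  classical
  have h1 : ∑ i, (Module.finrank ℝ (T i) : ℝ) ≤
      ∑ i, ∑ k ∈ F i, ∑ l ∈ F i, inner ℝ (u k) (u l) ^ 2 :=
    Finset.sum_le_sum fun i _ => trace_ineq u hP (T i) (F i) (hT i)
  have h2 : ∑ i, ∑ k ∈ F i, ∑ l ∈ F i, inner ℝ (u k) (u l) ^ 2 =
      ∑ k, ∑ l, ((univ.filter fun i => k ∈ F i ∧ l ∈ F i).card : ℝ) * inner ℝ (u k) (u l) ^ 2 := by
    have e1 : ∀ i, ∑ k ∈ F i, ∑ l ∈ F i, inner ℝ (u k) (u l) ^ 2 =
        ∑ k, ∑ l, if k ∈ F i ∧ l ∈ F i then inner ℝ (u k) (u l) ^ 2 else 0 := by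
      intro i
      rw [← Finset.sum_subset (Finset.subset_univ (F i))]
      · refine Finset.sum_congr rfl fun k hk => ?_
        rw [← Finset.sum_subset (Finset.subset_univ (F i))]
        · refine Finset.sum_congr rfl fun l hl => ?_
          rw [if_pos ⟨hk, hl⟩]
        · intro l _ hl
          rw [if_neg fun h => hl h.2]
      · intro k _ hk
        refine Finset.sum_eq_zero fun l _ => ?_
        rw [if_neg fun h => hk h.1]
    rw [Finset.sum_congr rfl fun i _ => e1 i, Finset.sum_comm]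
    refine Finset.sum_congr rfl fun k _ => ?_
    rw [Finset.sum_comm]
    refine Finset.sum_congr rfl fun l _ => ?_
    rw [← Finset.sum_filter, Finset.sum_const, nsmul_eq_mul]
  have h3 : ∀ k l, ((univ.filter fun i => k ∈ F i ∧ l ∈ F i).card : ℝ) * inner ℝ (u k) (u l) ^ 2 ≤
      N2 * inner ℝ (u k) (u l) ^ 2 + if k = l then (N1 - N2) * α * inner ℝ (u k) (u k) else 0 := by
    intro k l
    by_cases hkl : k = l
    · subst hkl
      rw [if_pos rfl]
      have h4 : (univ.filter fun i => k ∈ F i ∧ k ∈ F i) = univ.filter fun i => k ∈ F i := by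
        ext i; simp
      rw [h4]
      have h5 := hN1 k
      have h6 : (0 : ℝ) ≤ inner ℝ (u k) (u k) := real_inner_self_nonneg
      have h7 : inner ℝ (u k) (u k) ^ 2 ≤ α * inner ℝ (u k) (u k) := by
        rw [sq]; exact mul_le_mul_of_nonneg_right (hα k) h6
      have h8 : ((univ.filter fun i => k ∈ F i).card : ℝ) * inner ℝ (u k) (u k) ^ 2 ≤
          N1 * inner ℝ (u k) (u k) ^ 2 := mul_le_mul_of_nonneg_right h5 (sq_nonneg _)
      have h9 : (N1 - N2) * inner ℝ (u k) (u k) ^ 2 ≤ (N1 - N2) * (α * inner ℝ (u k) (u k)) :=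
        mul_le_mul_of_nonneg_left h7 (sub_nonneg.2 h12)
      linarith
    · rw [if_neg hkl, add_zero]
      exact mul_le_mul_of_nonneg_right (hN2 k l hkl) (sq_nonneg _)
  have h4 : ∑ k, ∑ l, ((univ.filter fun i => k ∈ F i ∧ l ∈ F i).card : ℝ) * inner ℝ (u k) (u l) ^ 2 ≤
      ∑ k, ∑ l, (N2 * inner ℝ (u k) (u l) ^ 2 + if k = l then (N1 - N2) * α * inner ℝ (u k) (u k) else 0) :=
    Finset.sum_le_sum fun k _ => Finset.sum_le_sum fun l _ => h3 k l
  have h5 : ∑ k, ∑ l, (N2 * inner ℝ (u k) (u l) ^ 2 + if k = l then (N1 - N2) * α * inner ℝ (u k) (u k) else 0) =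
      Module.finrank ℝ E * (N2 + (N1 - N2) * α) := by
    simp only [Finset.sum_add_distrib, ← Finset.mul_sum, Finset.sum_ite_eq, Finset.mem_univ,
      if_true]
    rw [sum_sum_sq u hP, sum_norm_sq u hP]
    ring
  rw [h2] at h1
  rw [h5] at h4
  exact h1.trans h4

end parseval

section weights

open scoped MatrixOrder

variable {κ : Type*} [Fintype κ] [DecidableEq κ] {D : ℕ}

theorem fr_mulVec (w : κ → Fin D → ℝ) (lam : κ → ℝ) (x z : Fin D → ℝ) :
    x ⬝ᵥ (fr w lam univ *ᵥ z) = ∑ k, lam k * ((w k ⬝ᵥ x) * (w k ⬝ᵥ z)) := by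
  rw [fr, Matrix.sum_mulVec, dotProduct_sum]
  refine Finset.sum_congr rfl fun k _ => ?_
  rw [Matrix.smul_mulVec, Matrix.vecMulVec_mulVec, dotProduct_smul, smul_eq_mul]
  congr 1
  simp only [dotProduct, Finset.sum_mul, Pi.smul_apply, MulOpposite.smul_eq_mul_unop,
    MulOpposite.unop_op]
  refine Finset.sum_congr rfl fun i _ => ?_
  ring

/-- **The averaged trace inequality.** -/
theorem avg_finrank_le {ι : Type*} [Fintype ι] (w : κ → Fin D → ℝ)
    (hspan : Submodule.span ℝ (Set.range w) = ⊤)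
    (hX : ∀ X : Finset κ, X ≠ univ →
      5 * ((D : ℤ) - Module.finrank ℝ (Submodule.span ℝ (w '' X))) < 2 * ((univ \ X).card : ℤ))
    (T : ι → Submodule ℝ (Fin D → ℝ)) (F : ι → Finset κ)
    (hT : ∀ i k, k ∉ F i → ∀ x ∈ T i, w k ⬝ᵥ x = 0) (N1 N2 : ℝ) (h12 : N2 ≤ N1)
    (hN1 : ∀ k, ((univ.filter fun i => k ∈ F i).card : ℝ) ≤ N1)
    (hN2 : ∀ k l, k ≠ l → ((univ.filter fun i => k ∈ F i ∧ l ∈ F i).card : ℝ) ≤ N2) :
    ∑ i, (Module.finrank ℝ (T i) : ℝ) ≤ D * (N2 + (N1 - N2) * (2 / 5)) := by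
  obtain ⟨lam, hlam, hPD, hlev⟩ := exists_weights w hspan hX
  obtain ⟨y, hy⟩ := CStarAlgebra.nonneg_iff_eq_star_mul_self.mp hPD.posSemidef.nonneg
  have hy' : fr w lam univ = yᵀ * y := by
    rw [hy, Matrix.star_eq_conjTranspose, Matrix.conjTranspose_eq_transpose_of_trivial]
  have hdet : y.det ≠ 0 := by
    intro h0
    have h1 := hPD.det_pos
    rw [hy', Matrix.det_mul, h0, mul_zero] at h1
    exact lt_irrefl _ h1
  have hyu : IsUnit y.det := isUnit_iff_ne_zero.2 hdet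
  let E := EuclideanSpace ℝ (Fin D)
  let u : κ → E := fun k => WithLp.toLp 2 (Real.sqrt (lam k) • ((y⁻¹)ᵀ *ᵥ w k))
  have hin : ∀ (k : κ) (x : E), inner ℝ (u k) x = Real.sqrt (lam k) * (w k ⬝ᵥ (y⁻¹ *ᵥ x.ofLp)) := by
    intro k x
    rw [EuclideanSpace.inner_eq_star_dotProduct]
    simp only [u, star_trivial, dotProduct_smul, smul_eq_mul]
    congr 1
    rw [dotProduct_comm, Matrix.mulVec_transpose, ← Matrix.dotProduct_mulVec]
  have hP : ∀ x z : E, ∑ k, inner ℝ (u k) x * inner ℝ (u k) z = inner ℝ x z := by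
    intro x z
    have h1 : ∀ k, inner ℝ (u k) x * inner ℝ (u k) z =
        lam k * ((w k ⬝ᵥ (y⁻¹ *ᵥ x.ofLp)) * (w k ⬝ᵥ (y⁻¹ *ᵥ z.ofLp))) := by
      intro k
      rw [hin, hin]
      have h2 := Real.mul_self_sqrt (hlam k).le
      linear_combination ((w k ⬝ᵥ (y⁻¹ *ᵥ x.ofLp)) * (w k ⬝ᵥ (y⁻¹ *ᵥ z.ofLp))) * h2
    have h2 : ∀ z : Fin D → ℝ, y *ᵥ (y⁻¹ *ᵥ z) = z := by
      intro z
      rw [Matrix.mulVec_mulVec, Matrix.mul_nonsing_inv _ hyu, Matrix.one_mulVec]
    rw [Finset.sum_congr rfl fun k _ => h1 k, ← fr_mulVec, hy', ← Matrix.mulVec_mulVec, h2,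
      Matrix.dotProduct_mulVec, Matrix.vecMul_transpose, h2,
      EuclideanSpace.inner_eq_star_dotProduct]
    rw [star_trivial, dotProduct_comm]
  have hα : ∀ k, inner ℝ (u k) (u k) ≤ (2 / 5 : ℝ) := by
    intro k
    refine le_trans (le_of_eq ?_) (hlev k)
    rw [hin]
    simp only [u, Matrix.mulVec_smul, dotProduct_smul, smul_eq_mul]
    rw [hy', Matrix.mul_inv_rev, ← Matrix.mulVec_mulVec, ← Matrix.transpose_nonsing_inv]
    have h2 := Real.mul_self_sqrt (hlam k).le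
    linear_combination (w k ⬝ᵥ (y⁻¹ *ᵥ ((y⁻¹)ᵀ *ᵥ w k))) * h2
  let ψ : (Fin D → ℝ) →ₗ[ℝ] E :=
    ((WithLp.linearEquiv 2 ℝ (Fin D → ℝ)).symm.toLinearMap).comp y.mulVecLin
  have hψ : ∀ x, (ψ x).ofLp = y *ᵥ x := fun x => rfl
  have hψi : Function.Injective ψ := by
    intro a b hab
    have h1 : y *ᵥ a = y *ᵥ b := by rw [← hψ, ← hψ, hab]
    have h2 := congrArg (fun z => y⁻¹ *ᵥ z) h1
    simpa [Matrix.mulVec_mulVec, Matrix.nonsing_inv_mul _ hyu] using h2
  have h1 := avg_parseval u hP (2 / 5) hα (fun i => (T i).map ψ) F (by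
    rintro i k hk _ ⟨x, hx, rfl⟩
    rw [hin, hψ, Matrix.mulVec_mulVec, Matrix.nonsing_inv_mul _ hyu, Matrix.one_mulVec,
      hT i k hk x hx, mul_zero]) N1 N2 h12 hN1 hN2
  have h2 : ∀ i, Module.finrank ℝ ((T i).map ψ) = Module.finrank ℝ (T i) := fun i =>
    (Submodule.equivMapOfInjective ψ hψi (T i)).finrank_eq.symm
  simp only [h2] at h1
  have h3 : Module.finrank ℝ E = D := by simp [E]
  rwa [h3] at h1

end weights

end Pool.Agent.Helper93.Psd
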