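import Mathlib
import Pool.Agent.Helper93.PsdTrace

/-!
# Weights with prescribed upper bounds for the leverage scores, and a weighted trace inequality
-/

namespace Pool.Agent.Helper93.Psd

set_option linter.unusedSectionVars false

open Finset Matrix

section weights

variable {κ : Type*} [Fintype κ] [DecidableEq κ] {D : ℕ}

/-- The potential with target `p`. -/
noncomputable def potG (w : κ → Fin D → ℝ) (p τ : κ → ℝ) : ℝ :=
  Real.log (fr w (fun k => Real.exp (-τ k)) univ).det + ∑ k, p k * τ k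

theorem exists_gap (w : κ → Fin D → ℝ) (p : κ → ℝ)
    (hX : ∀ X : Finset κ, X ≠ univ →
      (D : ℝ) - Module.finrank ℝ (Submodule.span ℝ (w '' X)) < ∑ k ∈ univ \ X, p k) :
    ∃ δ : ℝ, 0 < δ ∧ ∀ X : Finset κ, X ≠ univ →
      (D : ℝ) - Module.finrank ℝ (Submodule.span ℝ (w '' X)) + δ ≤ ∑ k ∈ univ \ X, p k := by
  classical
  rcases (univ.filter fun X : Finset κ => X ≠ univ).eq_empty_or_nonempty with h0 | hne
  · refine ⟨1, one_pos, fun X hX' => ?_⟩
    have h1 : X ∈ (univ.filter fun X : Finset κ => X ≠ univ) :=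
      Finset.mem_filter.2 ⟨Finset.mem_univ _, hX'⟩
    rw [h0] at h1
    exact absurd h1 (Finset.notMem_empty _)
  obtain ⟨X0, hX0, hmin⟩ := Finset.exists_min_image _ (fun X : Finset κ =>
    ∑ k ∈ univ \ X, p k - ((D : ℝ) - Module.finrank ℝ (Submodule.span ℝ (w '' X)))) hne
  refine ⟨∑ k ∈ univ \ X0, p k - ((D : ℝ) - Module.finrank ℝ (Submodule.span ℝ (w '' X0))),
    sub_pos.2 (hX X0 (Finset.mem_filter.1 hX0).2), fun X hX' => ?_⟩
  have h1 := hmin X (Finset.mem_filter.2 ⟨Finset.mem_univ _, hX'⟩)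
  linarith

theorem potG_ge (w : κ → Fin D → ℝ) (hspan : Submodule.span ℝ (Set.range w) = ⊤) (p : κ → ℝ)
    (δ : ℝ) (hδ : 0 < δ)
    (hX : ∀ X : Finset κ, X ≠ univ →
      (D : ℝ) - Module.finrank ℝ (Submodule.span ℝ (w '' X)) + δ ≤ ∑ k ∈ univ \ X, p k) :
    ∃ C : ℝ, ∀ τ : κ → ℝ, (∀ k, 0 ≤ τ k) → ∀ k0, C + δ * τ k0 ≤ potG w p τ := by
  obtain ⟨C0, hC0⟩ := (Set.finite_range (fun B : Fin D → κ =>
    Real.log ((Matrix.of fun j => w (B j)).det ^ 2))).bddBelow
  refine ⟨C0, fun τ hτ k0 => ?_⟩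
  obtain ⟨B, hB, hBs⟩ := exists_min_basis w hspan τ
  have h1 := det_fr_univ_ge w (fun k => Real.exp (-τ k)) (fun k => Real.exp_pos _) B hB
  have h2 : (∏ j, Real.exp (-τ (B j))) = Real.exp (-∑ j, τ (B j)) := by
    rw [← Real.exp_sum, Finset.sum_neg_distrib]
  rw [h2] at h1
  have h3 : -(∑ j, τ (B j)) + Real.log ((Matrix.of fun j => w (B j)).det ^ 2) ≤
      Real.log (fr w (fun k => Real.exp (-τ k)) univ).det := by
    rw [← Real.log_exp (-∑ j, τ (B j)), ← Real.log_mul (Real.exp_pos _).ne' (by positivity)]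
    exact Real.log_le_log (mul_pos (Real.exp_pos _) (by positivity)) h1
  have h4 : C0 ≤ Real.log ((Matrix.of fun j => w (B j)).det ^ 2) := hC0 ⟨B, rfl⟩
  have h5 := layer (fun k => (p k - ((univ.filter fun j => B j = k).card : ℝ)) / δ) _ τ hτ rfl (by
    intro s hs hne
    rw [← Finset.sum_div, le_div_iff₀ hδ, one_mul]
    have e1 : ∑ k ∈ univ.filter (fun k => s < τ k), (p k - ((univ.filter fun j => B j = k).card : ℝ))
        = ∑ k ∈ univ.filter (fun k => s < τ k), p k -
          ((univ.filter fun j => s < τ (B j)).card : ℝ) := by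
      rw [Finset.sum_sub_distrib]
      congr 1
      rw [← Nat.cast_sum]
      congr 1
      rw [Finset.card_eq_sum_card_fiberwise (f := B) (t := univ.filter (fun k => s < τ k))]
      · refine Finset.sum_congr rfl fun k hk => ?_
        congr 1
        ext j
        simp only [Finset.mem_filter, Finset.mem_univ, true_and]
        constructor
        · rintro rfl
          exact ⟨(Finset.mem_filter.1 hk).2, rfl⟩
        · rintro ⟨_, h⟩
          exact h
      · intro j hj
        simpa using hj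
    rw [e1]
    let X : Finset κ := univ.filter fun k => τ k ≤ s
    have hXc : univ \ X = univ.filter (fun k => s < τ k) := by
      ext k
      simp [X]
    have hXne : X ≠ univ := by
      intro h
      rw [h, Finset.sdiff_self] at hXc
      rw [← hXc] at hne
      exact Finset.not_nonempty_empty hne
    have h6 := hX X hXne
    rw [hXc] at h6
    have h7 : Module.finrank ℝ (Submodule.span ℝ (w '' X)) ≤
        (univ.filter fun j => τ (B j) ≤ s).card := by
      have h8 : Submodule.span ℝ (w '' X) ≤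
          Submodule.span ℝ (((univ.filter fun j => τ (B j) ≤ s).image fun j => w (B j) :
            Finset (Fin D → ℝ)) : Set (Fin D → ℝ)) := by
        rw [Submodule.span_le]
        rintro _ ⟨k, hk, rfl⟩
        have hk' : τ k ≤ s := by simpa [X] using hk
        refine Submodule.span_mono ?_ (hBs k)
        rintro _ ⟨j, hj, rfl⟩
        have hj' : τ (B j) ≤ τ k := hj
        rw [Finset.coe_image]
        exact ⟨j, by simpa using hj'.trans hk', rfl⟩
      refine (Submodule.finrank_mono h8).trans ?_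
      refine (finrank_span_finset_le_card _).trans ?_
      exact Finset.card_image_le
    have h9 : (univ.filter fun j => τ (B j) ≤ s).card + (univ.filter fun j => s < τ (B j)).card = D := by
      have h10 := Finset.card_filter_add_card_filter_not (s := (univ : Finset (Fin D)))
        (fun j => τ (B j) ≤ s)
      simp only [not_le, Finset.card_univ, Fintype.card_fin] at h10
      exact h10
    have h11 : ((univ.filter fun j => s < τ (B j)).card : ℝ) ≤
        (D : ℝ) - Module.finrank ℝ (Submodule.span ℝ (w '' X)) := by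
      have h12 : (univ.filter fun j => s < τ (B j)).card +
        Module.finrank ℝ (Submodule.span ℝ (w '' X)) ≤ D := by omega
      have h13 : (((univ.filter fun j => s < τ (B j)).card +
        Module.finrank ℝ (Submodule.span ℝ (w '' X)) : ℕ) : ℝ) ≤ D := Nat.cast_le.2 h12
      push_cast at h13
      linarith
    linarith) k0
  have h12 : ∑ k, (p k - ((univ.filter fun j => B j = k).card : ℝ)) / δ * τ k =
      (∑ k, p k * τ k - ∑ j, τ (B j)) / δ := by
    have h13 : ∀ k, (p k - ((univ.filter fun j => B j = k).card : ℝ)) / δ * τ k =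
        (p k * τ k - ((univ.filter fun j => B j = k).card : ℝ) * τ k) / δ := by
      intro k; ring
    rw [Finset.sum_congr rfl fun k _ => h13 k, ← Finset.sum_div, Finset.sum_sub_distrib]
    congr 2
    rw [← Finset.sum_fiberwise_of_maps_to (s := univ) (t := univ) (g := B) (fun _ _ => Finset.mem_univ _)]
    refine Finset.sum_congr rfl fun k _ => ?_
    rw [Finset.sum_congr rfl (g := fun _ => τ k), Finset.sum_const, nsmul_eq_mul]
    intro j hj
    rw [(Finset.mem_filter.1 hj).2]
  rw [h12, le_div_iff₀ hδ] at h5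
  unfold potG
  linarith

theorem continuous_potG (w : κ → Fin D → ℝ) (hspan : Submodule.span ℝ (Set.range w) = ⊤)
    (p : κ → ℝ) : Continuous (potG w p) := by
  have h1 : Continuous fun τ : κ → ℝ => (fr w (fun k => Real.exp (-τ k)) univ).det := by
    refine Continuous.matrix_det ?_
    unfold fr
    refine continuous_finsetSum _ fun k _ => ?_
    exact (Real.continuous_exp.comp (continuous_apply k).neg).smul continuous_const
  unfold potG
  refine (h1.log fun τ => ?_).add
    (continuous_finsetSum _ fun k _ => continuous_const.mul (continuous_apply k))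
  exact (det_fr_pos w hspan _ fun k => Real.exp_pos _).ne'

/-- **Weights with prescribed bounds for the leverage scores.** -/
theorem exists_weights_gen (w : κ → Fin D → ℝ) (hspan : Submodule.span ℝ (Set.range w) = ⊤)
    (p : κ → ℝ)
    (hX : ∀ X : Finset κ, X ≠ univ →
      (D : ℝ) - Module.finrank ℝ (Submodule.span ℝ (w '' X)) < ∑ k ∈ univ \ X, p k) :
    ∃ lam : κ → ℝ, (∀ k, 0 < lam k) ∧ (fr w lam univ).PosDef ∧
      ∀ k, lam k * (w k ⬝ᵥ ((fr w lam univ)⁻¹ *ᵥ w k)) ≤ p k := by
  obtain ⟨δ, hδ, hXδ⟩ := exists_gap w p hX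
  obtain ⟨C, hC⟩ := potG_ge w hspan p δ hδ hXδ
  let R : ℝ := max 0 ((potG w p 0 - C) / δ) + 1
  have hR : 0 < R := by
    have := le_max_left 0 ((potG w p 0 - C) / δ)
    simp only [R]; linarith
  obtain ⟨τ, hτ, hmin⟩ := (isCompact_Icc (a := (0 : κ → ℝ)) (b := fun _ => R)).exists_isMinOn
    ⟨0, by simp, fun _ => hR.le⟩ (continuous_potG w hspan p).continuousOn
  have hτ0 : ∀ k, 0 ≤ τ k := fun k => hτ.1 k
  have h0 : potG w p τ ≤ potG w p 0 :=
    hmin (show (0 : κ → ℝ) ∈ Set.Icc _ _ from ⟨le_rfl, fun _ => hR.le⟩)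
  have hτR : ∀ k, τ k + 1 ≤ R := by
    intro k
    have h1 := hC τ hτ0 k
    have h2 := le_max_right 0 ((potG w p 0 - C) / δ)
    have h3 : τ k ≤ (potG w p 0 - C) / δ := by
      rw [le_div_iff₀ hδ]
      linarith
    simp only [R]; linarith
  let lam : κ → ℝ := fun k => Real.exp (-τ k)
  have hlam : ∀ k, 0 < lam k := fun k => Real.exp_pos _
  have hPD : (fr w lam univ).PosDef := fr_posDef w hspan lam hlam
  have hdet : 0 < (fr w lam univ).det := det_fr_pos w hspan lam hlam
  refine ⟨lam, hlam, hPD, fun k => ?_⟩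
  set ℓ : ℝ := lam k * (w k ⬝ᵥ ((fr w lam univ)⁻¹ *ᵥ w k)) with hℓ
  have hℓ0 : 0 ≤ ℓ := mul_nonneg (hlam k).le (quad_inv_nonneg hPD (w k))
  -- moving down
  have hstep : ∀ s : ℝ, 0 < s → s ≤ 1 → ℓ ≤ p k * (1 + s) := by
    intro s hs hs1
    let τ' : κ → ℝ := Function.update τ k (τ k + s)
    have hτ' : τ' ∈ Set.Icc (0 : κ → ℝ) (fun _ => R) := by
      constructor
      · intro l
        simp only [τ']
        by_cases hl : l = k
        · subst hl
          rw [Function.update_self]
          have := hτ0 l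
          show (0 : ℝ) ≤ τ l + s
          linarith
        · rw [Function.update_of_ne hl]
          exact hτ0 l
      · intro l
        simp only [τ']
        by_cases hl : l = k
        · subst hl
          rw [Function.update_self]
          have := hτR l
          linarith
        · rw [Function.update_of_ne hl]
          have := hτR l
          linarith
    have h1 : potG w p τ ≤ potG w p τ' := hmin hτ'
    have h2 : fr w (fun l => Real.exp (-τ' l)) univ =
        fr w lam univ + (-(lam k * (1 - Real.exp (-s)))) • vecMulVec (w k) (w k) := by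
      unfold fr
      rw [← Finset.add_sum_erase univ _ (Finset.mem_univ k),
        ← Finset.add_sum_erase univ (fun l => lam l • vecMulVec (w l) (w l)) (Finset.mem_univ k)]
      have h3 : ∑ x ∈ univ.erase k, Real.exp (-τ' x) • vecMulVec (w x) (w x) =
          ∑ x ∈ univ.erase k, lam x • vecMulVec (w x) (w x) := by
        refine Finset.sum_congr rfl fun x hx => ?_
        simp only [τ', lam]
        rw [Function.update_of_ne (Finset.ne_of_mem_erase hx)]
      rw [h3]
      have h4 : Real.exp (-τ' k) = lam k + -(lam k * (1 - Real.exp (-s))) := by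
        simp only [τ', lam, Function.update_self]
        rw [neg_add, Real.exp_add]; ring
      show Real.exp (-τ' k) • vecMulVec (w k) (w k) + _ = _
      rw [h4, add_smul]
      abel
    have h3 : ∑ l, p l * τ' l = ∑ l, p l * τ l + p k * s := by
      rw [← Finset.add_sum_erase univ _ (Finset.mem_univ k),
        ← Finset.add_sum_erase univ (fun l => p l * τ l) (Finset.mem_univ k)]
      have h3 : ∑ x ∈ univ.erase k, p x * τ' x = ∑ x ∈ univ.erase k, p x * τ x := by
        refine Finset.sum_congr rfl fun x hx => ?_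
        simp only [τ']
        rw [Function.update_of_ne (Finset.ne_of_mem_erase hx)]
      rw [h3]
      simp only [τ', Function.update_self]
      ring
    have h4 : (fr w (fun l => Real.exp (-τ' l)) univ).det =
        (fr w lam univ).det * (1 - (1 - Real.exp (-s)) * ℓ) := by
      rw [h2, det_rank_one hdet.ne', hℓ]
      ring
    have h5 : 0 < (fr w (fun l => Real.exp (-τ' l)) univ).det :=
      det_fr_pos w hspan _ fun l => Real.exp_pos _
    have h6 : 0 < 1 - (1 - Real.exp (-s)) * ℓ := by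
      rw [h4] at h5
      exact (mul_pos_iff_of_pos_left hdet).1 h5
    unfold potG at h1
    rw [h3, h4, Real.log_mul hdet.ne' h6.ne'] at h1
    have h7 := Real.log_le_sub_one_of_pos h6
    have h8 : (fun k => Real.exp (-τ k)) = lam := rfl
    rw [h8] at h1
    have h9 : (1 - Real.exp (-s)) * ℓ ≤ p k * s := by linarith
    have h10 : s / (1 + s) ≤ 1 - Real.exp (-s) := by
      have h11 := Real.add_one_le_exp s
      have h12 : Real.exp (-s) ≤ 1 / (1 + s) := by
        rw [Real.exp_neg, ← one_div]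
        exact one_div_le_one_div_of_le (by linarith) (by linarith)
      have h13 : s / (1 + s) = 1 - 1 / (1 + s) := by
        field_simp
        ring
      rw [h13]; linarith
    have h14 : s / (1 + s) * ℓ ≤ p k * s := (mul_le_mul_of_nonneg_right h10 hℓ0).trans h9
    have h15 : s * ℓ ≤ s * (p k * (1 + s)) := by
      have h16 : s / (1 + s) * ℓ * (1 + s) ≤ p k * s * (1 + s) :=
        mul_le_mul_of_nonneg_right h14 (by linarith)
      have h17 : s / (1 + s) * ℓ * (1 + s) = s * ℓ := by
        field_simp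
      rw [h17] at h16
      linarith
    exact le_of_mul_le_mul_left h15 hs
  by_contra hcon
  push Not at hcon
  have hp1 : 0 < |p k| + 1 := by positivity
  have hq : 0 < (ℓ - p k) / (2 * (|p k| + 1)) := div_pos (by linarith) (by positivity)
  have h1 := hstep (min 1 ((ℓ - p k) / (2 * (|p k| + 1)))) (lt_min one_pos hq) (min_le_left _ _)
  have h2 := min_le_right 1 ((ℓ - p k) / (2 * (|p k| + 1)))
  have h3 : 0 ≤ min 1 ((ℓ - p k) / (2 * (|p k| + 1))) := (lt_min one_pos hq).le
  have h4 : p k * min 1 ((ℓ - p k) / (2 * (|p k| + 1))) ≤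
      |p k| * ((ℓ - p k) / (2 * (|p k| + 1))) :=
    (mul_le_mul_of_nonneg_right (le_abs_self _) h3).trans
      (mul_le_mul_of_nonneg_left h2 (abs_nonneg _))
  have h5 : (|p k| + 1) * ((ℓ - p k) / (2 * (|p k| + 1))) = (ℓ - p k) / 2 := by
    field_simp
  nlinarith

end weights

section average

variable {κ : Type*} [Fintype κ] [DecidableEq κ] {D : ℕ}

section parseval

variable {E : Type*} [NormedAddCommGroup E] [InnerProductSpace ℝ E] [FiniteDimensional ℝ E]

/-- The weighted trace inequality for a Parseval frame. -/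
theorem avg_parseval_w {ι : Type*} [Fintype ι] (u : κ → E)
    (hP : ∀ x y : E, ∑ k, inner ℝ (u k) x * inner ℝ (u k) y = inner ℝ x y) (p : κ → ℝ)
    (hp : ∀ k, inner ℝ (u k) (u k) ≤ p k) (om : ι → ℝ) (hom : ∀ i, 0 ≤ om i)
    (T : ι → Submodule ℝ E) (F : ι → Finset κ)
    (hT : ∀ i k, k ∉ F i → ∀ x ∈ T i, inner ℝ (u k) x = 0) (N2 μ : ℝ) (hμ0 : 0 ≤ μ)
    (hN2 : ∀ k l, k ≠ l → ∑ i ∈ univ.filter (fun i => k ∈ F i ∧ l ∈ F i), om i ≤ N2)
    (hμ : ∀ k, p k * (∑ i ∈ univ.filter (fun i => k ∈ F i), om i - N2) ≤ μ) :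
    ∑ i, om i * (Module.finrank ℝ (T i) : ℝ) ≤ Module.finrank ℝ E * (N2 + μ) := by
  classical
  have h1 : ∑ i, om i * (Module.finrank ℝ (T i) : ℝ) ≤
      ∑ i, om i * ∑ k ∈ F i, ∑ l ∈ F i, inner ℝ (u k) (u l) ^ 2 :=
    Finset.sum_le_sum fun i _ => mul_le_mul_of_nonneg_left (trace_ineq u hP (T i) (F i) (hT i))
      (hom i)
  have h2 : ∑ i, om i * ∑ k ∈ F i, ∑ l ∈ F i, inner ℝ (u k) (u l) ^ 2 =
      ∑ k, ∑ l, (∑ i ∈ univ.filter (fun i => k ∈ F i ∧ l ∈ F i), om i) *
        inner ℝ (u k) (u l) ^ 2 := by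
    have e1 : ∀ i, om i * ∑ k ∈ F i, ∑ l ∈ F i, inner ℝ (u k) (u l) ^ 2 =
        ∑ k, ∑ l, if k ∈ F i ∧ l ∈ F i then om i * inner ℝ (u k) (u l) ^ 2 else 0 := by
      intro i
      rw [Finset.mul_sum, ← Finset.sum_subset (Finset.subset_univ (F i))]
      · refine Finset.sum_congr rfl fun k hk => ?_
        rw [Finset.mul_sum, ← Finset.sum_subset (Finset.subset_univ (F i))]
        · refine Finset.sum_congr rfl fun l hl => ?_
          rw [if_pos ⟨hk, hl⟩]
        · intro l _ hl
          rw [if_neg fun h => hl h.2]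
      · intro k _ hk
        refine Finset.sum_eq_zero fun l _ => ?_
        rw [if_neg fun h => hk h.1]
    rw [Finset.sum_congr rfl fun i _ => e1 i, Finset.sum_comm]
    refine Finset.sum_congr rfl fun k _ => ?_
    rw [Finset.sum_comm]
    refine Finset.sum_congr rfl fun l _ => ?_
    rw [← Finset.sum_filter, Finset.sum_mul]
  have h3 : ∀ k l, (∑ i ∈ univ.filter (fun i => k ∈ F i ∧ l ∈ F i), om i) *
      inner ℝ (u k) (u l) ^ 2 ≤
      N2 * inner ℝ (u k) (u l) ^ 2 + if k = l then μ * inner ℝ (u k) (u k) else 0 := by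
    intro k l
    by_cases hkl : k = l
    · subst hkl
      rw [if_pos rfl]
      have h4 : (univ.filter fun i => k ∈ F i ∧ k ∈ F i) = univ.filter fun i => k ∈ F i := by
        ext i; simp
      rw [h4]
      have h5 := hμ k
      have h6 : (0 : ℝ) ≤ inner ℝ (u k) (u k) := real_inner_self_nonneg
      set P : ℝ := ∑ i ∈ univ.filter (fun i => k ∈ F i), om i
      have h7 : (P - N2) * inner ℝ (u k) (u k) ≤ μ := by
        rcases le_total (P - N2) 0 with h8 | h8
        · exact (mul_nonpos_of_nonpos_of_nonneg h8 h6).trans hμ0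
        · refine le_trans ?_ h5
          rw [mul_comm]
          exact mul_le_mul_of_nonneg_right (hp k) h8
      have h9 := mul_le_mul_of_nonneg_right h7 h6
      nlinarith
    · rw [if_neg hkl, add_zero]
      exact mul_le_mul_of_nonneg_right (hN2 k l hkl) (sq_nonneg _)
  have h4 : ∑ k, ∑ l, (∑ i ∈ univ.filter (fun i => k ∈ F i ∧ l ∈ F i), om i) *
      inner ℝ (u k) (u l) ^ 2 ≤
      ∑ k, ∑ l, (N2 * inner ℝ (u k) (u l) ^ 2 + if k = l then μ * inner ℝ (u k) (u k) else 0) :=
    Finset.sum_le_sum fun k _ => Finset.sum_le_sum fun l _ => h3 k l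
  have h5 : ∑ k, ∑ l, (N2 * inner ℝ (u k) (u l) ^ 2 +
      if k = l then μ * inner ℝ (u k) (u k) else 0) = Module.finrank ℝ E * (N2 + μ) := by
    simp only [Finset.sum_add_distrib, ← Finset.mul_sum, Finset.sum_ite_eq, Finset.mem_univ,
      if_true]
    rw [sum_sum_sq u hP, sum_norm_sq u hP]
    ring
  rw [h2] at h1
  rw [h5] at h4
  exact h1.trans h4

end parseval

open scoped MatrixOrder

/-- **The weighted averaged trace inequality.** -/
theorem avg_finrank_le_w {ι : Type*} [Fintype ι] (w : κ → Fin D → ℝ)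
    (hspan : Submodule.span ℝ (Set.range w) = ⊤) (p : κ → ℝ)
    (hX : ∀ X : Finset κ, X ≠ univ →
      (D : ℝ) - Module.finrank ℝ (Submodule.span ℝ (w '' X)) < ∑ k ∈ univ \ X, p k)
    (om : ι → ℝ) (hom : ∀ i, 0 ≤ om i)
    (T : ι → Submodule ℝ (Fin D → ℝ)) (F : ι → Finset κ)
    (hT : ∀ i k, k ∉ F i → ∀ x ∈ T i, w k ⬝ᵥ x = 0) (N2 μ : ℝ) (hμ0 : 0 ≤ μ)
    (hN2 : ∀ k l, k ≠ l → ∑ i ∈ univ.filter (fun i => k ∈ F i ∧ l ∈ F i), om i ≤ N2)
    (hμ : ∀ k, p k * (∑ i ∈ univ.filter (fun i => k ∈ F i), om i - N2) ≤ μ) :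
    ∑ i, om i * (Module.finrank ℝ (T i) : ℝ) ≤ D * (N2 + μ) := by
  obtain ⟨lam, hlam, hPD, hlev⟩ := exists_weights_gen w hspan p hX
  obtain ⟨y, hy⟩ := CStarAlgebra.nonneg_iff_eq_star_mul_self.mp hPD.posSemidef.nonneg
  have hy' : fr w lam univ = yᵀ * y := by
    rw [hy, Matrix.star_eq_conjTranspose, Matrix.conjTranspose_eq_transpose_of_trivial]
  have hdet : y.det ≠ 0 := by
    intro h0
    have h1 := hPD.det_pos
    rw [hy', Matrix.det_mul, h0, mul_zero] at h1
    exact lt_irrefl _ h1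
  have hyu : IsUnit y.det := isUnit_iff_ne_zero.2 hdet
  let E := EuclideanSpace ℝ (Fin D)
  let u : κ → E := fun k => WithLp.toLp 2 (Real.sqrt (lam k) • ((y⁻¹)ᵀ *ᵥ w k))
  have hin : ∀ (k : κ) (x : E), inner ℝ (u k) x = Real.sqrt (lam k) * (w k ⬝ᵥ (y⁻¹ *ᵥ x.ofLp)) := by
    intro k x
    rw [EuclideanSpace.inner_eq_star_dotProduct]
    simp only [u, star_trivial, dotProduct_smul, smul_eq_mul]
    congr 1
    rw [dotProduct_comm, Matrix.mulVec_transpose, ← Matrix.dotProduct_mulVec]
  have hP : ∀ x z : E, ∑ k, inner ℝ (u k) x * inner ℝ (u k) z = inner ℝ x z := by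
    intro x z
    have h1 : ∀ k, inner ℝ (u k) x * inner ℝ (u k) z =
        lam k * ((w k ⬝ᵥ (y⁻¹ *ᵥ x.ofLp)) * (w k ⬝ᵥ (y⁻¹ *ᵥ z.ofLp))) := by
      intro k
      rw [hin, hin]
      have h2 := Real.mul_self_sqrt (hlam k).le
      linear_combination ((w k ⬝ᵥ (y⁻¹ *ᵥ x.ofLp)) * (w k ⬝ᵥ (y⁻¹ *ᵥ z.ofLp))) * h2
    have h2 : ∀ z : Fin D → ℝ, y *ᵥ (y⁻¹ *ᵥ z) = z := by
      intro z
      rw [Matrix.mulVec_mulVec, Matrix.mul_nonsing_inv _ hyu, Matrix.one_mulVec]
    rw [Finset.sum_congr rfl fun k _ => h1 k, ← fr_mulVec, hy', ← Matrix.mulVec_mulVec, h2,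
      Matrix.dotProduct_mulVec, Matrix.vecMul_transpose, h2,
      EuclideanSpace.inner_eq_star_dotProduct]
    rw [star_trivial, dotProduct_comm]
  have hα : ∀ k, inner ℝ (u k) (u k) ≤ p k := by
    intro k
    refine le_trans (le_of_eq ?_) (hlev k)
    rw [hin]
    simp only [u, Matrix.mulVec_smul, dotProduct_smul, smul_eq_mul]
    rw [hy', Matrix.mul_inv_rev, ← Matrix.mulVec_mulVec, ← Matrix.transpose_nonsing_inv]
    have h2 := Real.mul_self_sqrt (hlam k).le
    linear_combination (w k ⬝ᵥ (y⁻¹ *ᵥ ((y⁻¹)ᵀ *ᵥ w k))) * h2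
  let ψ : (Fin D → ℝ) →ₗ[ℝ] E :=
    ((WithLp.linearEquiv 2 ℝ (Fin D → ℝ)).symm.toLinearMap).comp y.mulVecLin
  have hψ : ∀ x, (ψ x).ofLp = y *ᵥ x := fun x => rfl
  have hψi : Function.Injective ψ := by
    intro a b hab
    have h1 : y *ᵥ a = y *ᵥ b := by rw [← hψ, ← hψ, hab]
    have h2 := congrArg (fun z => y⁻¹ *ᵥ z) h1
    simpa [Matrix.mulVec_mulVec, Matrix.nonsing_inv_mul _ hyu] using h2
  have h1 := avg_parseval_w u hP p hα om hom (fun i => (T i).map ψ) F (by
    rintro i k hk _ ⟨x, hx, rfl⟩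
    rw [hin, hψ, Matrix.mulVec_mulVec, Matrix.nonsing_inv_mul _ hyu, Matrix.one_mulVec,
      hT i k hk x hx, mul_zero]) N2 μ hμ0 hN2 hμ
  have h2 : ∀ i, Module.finrank ℝ ((T i).map ψ) = Module.finrank ℝ (T i) := fun i =>
    (Submodule.equivMapOfInjective ψ hψi (T i)).finrank_eq.symm
  simp only [h2] at h1
  have h3 : Module.finrank ℝ E = D := by simp [E]
  rwa [h3] at h1

end average

end Pool.Agent.Helper93.Psd
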