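import Mathlib
import Pool.Agent.Helper93.PsdWeightsG
import Pool.Agent.Helper73.PsdCountT

/-!
# Flats: common zero sets of linear forms

Linear algebra preparations for the induction over flats.
-/

namespace Pool.Agent.Helper93.Psd

set_option linter.unusedSectionVars false

open Finset Matrix
open Pool.Agent.Helper73.Psd (Tsub mem_Tsub)

section flats

/-- The common zeros of the forms `x i`, `i ∈ C`. -/
def fl {ι : Type*} {n : ℕ} (x : ι → Fin n → ℝ) (C : Finset ι) : Submodule ℝ (Fin n → ℝ) where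
  carrier := {z | ∀ i ∈ C, x i ⬝ᵥ z = 0}
  zero_mem' := fun i _ => dotProduct_zero _
  add_mem' := fun {z w} hz hw i hi => by rw [dotProduct_add, hz i hi, hw i hi, add_zero]
  smul_mem' := fun c z hz i hi => by rw [dotProduct_smul, hz i hi, smul_zero]

theorem mem_fl {ι : Type*} {n : ℕ} {x : ι → Fin n → ℝ} {C : Finset ι} {z : Fin n → ℝ} :
    z ∈ fl x C ↔ ∀ i ∈ C, x i ⬝ᵥ z = 0 := Iff.rfl

theorem fl_anti {ι : Type*} {n : ℕ} (x : ι → Fin n → ℝ) {C C' : Finset ι} (h : C ⊆ C') :
    fl x C' ≤ fl x C := fun _ hz i hi => hz i (h hi)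

theorem mem_fl_insert {ι : Type*} [DecidableEq ι] {n : ℕ} {x : ι → Fin n → ℝ} {C : Finset ι}
    {i : ι} {z : Fin n → ℝ} : z ∈ fl x (insert i C) ↔ z ∈ fl x C ∧ x i ⬝ᵥ z = 0 := by
  simp only [mem_fl, Finset.mem_insert, forall_eq_or_imp]
  tauto

/-- Rank plus dimension of the common zero space. -/
theorem finrank_fl {κ : Type*} {D : ℕ} (w : κ → Fin D → ℝ) (X : Finset κ) :
    Module.finrank ℝ (Submodule.span ℝ (w '' X)) + Module.finrank ℝ (fl w X) = D := by
  let M : Matrix X (Fin D) ℝ := Matrix.of fun k => w k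
  have h1 : M.rank = Module.finrank ℝ (Submodule.span ℝ (w '' X)) := by
    rw [Matrix.rank_eq_finrank_span_row]
    have h2 : Set.range M.row = w '' X := by
      ext z
      constructor
      · rintro ⟨k, rfl⟩
        exact ⟨k, k.2, rfl⟩
      · rintro ⟨k, hk, rfl⟩
        exact ⟨⟨k, hk⟩, rfl⟩
    rw [h2]
  have h2 : LinearMap.ker M.mulVecLin = fl w X := by
    ext z
    rw [LinearMap.mem_ker, Matrix.mulVecLin_apply, mem_fl]
    constructor
    · intro h k hk
      exact congrFun h ⟨k, hk⟩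
    · intro h
      funext k
      exact h k k.2
  have h3 := LinearMap.finrank_range_add_finrank_ker M.mulVecLin
  rw [h2] at h3
  have h4 : Module.finrank ℝ (LinearMap.range M.mulVecLin) = M.rank := rfl
  rw [h4, h1] at h3
  simpa using h3

theorem finrank_fl_insert {ι : Type*} [DecidableEq ι] {n : ℕ} (x : ι → Fin n → ℝ) (C : Finset ι)
    (i : ι) : Module.finrank ℝ (fl x C) ≤ Module.finrank ℝ (fl x (insert i C)) + 1 := by
  have h1 := finrank_fl x C
  have h2 := finrank_fl x (insert i C)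
  have h3 : Module.finrank ℝ (Submodule.span ℝ (x '' (insert i C : Finset ι))) ≤
      Module.finrank ℝ (Submodule.span ℝ (x '' C)) + 1 := by
    rw [Finset.coe_insert, Set.image_insert_eq, Submodule.span_insert]
    refine (Submodule.finrank_add_le_finrank_add_finrank _ _).trans ?_
    rw [add_comm]
    refine Nat.add_le_add_left ?_ _
    exact (finrank_span_le_card ({x i} : Set (Fin n → ℝ))).trans (by simp)
  omega

theorem finrank_fl_union {κ : Type*} [DecidableEq κ] {D : ℕ} (w : κ → Fin D → ℝ) (X : Finset κ) :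
    ∀ Y : Finset κ, Module.finrank ℝ (fl w X) ≤
      Module.finrank ℝ (fl w (X ∪ Y)) + (Y \ X).card := by
  intro Y
  induction Y using Finset.induction_on with
  | empty =>
    rw [Finset.union_empty]
    exact Nat.le_add_right _ _
  | insert k Y hk ih =>
    by_cases hkX : k ∈ X
    · have h1 : X ∪ insert k Y = X ∪ Y := by
        rw [Finset.union_insert, Finset.insert_eq_self]
        exact Finset.mem_union_left _ hkX
      have h2 : insert k Y \ X = Y \ X := Finset.insert_sdiff_of_mem _ hkX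
      rw [h1, h2]
      exact ih
    · have h1 : X ∪ insert k Y = insert k (X ∪ Y) := Finset.union_insert _ _ _
      have h2 : insert k Y \ X = insert k (Y \ X) := Finset.insert_sdiff_of_notMem _ hkX
      have h3 : k ∉ Y \ X := fun h => hk (Finset.mem_sdiff.1 h).1
      rw [h1, h2, Finset.card_insert_of_notMem h3]
      have h4 := finrank_fl_insert w (X ∪ Y) k
      omega

/-- The coordinates of the restriction of a form to a subspace. -/
noncomputable def res {n : ℕ} (W : Submodule ℝ (Fin n → ℝ)) (a : Fin n → ℝ) :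
    Fin (Module.finrank ℝ W) → ℝ :=
  fun j => a ⬝ᵥ ((Module.finBasis ℝ W j : W) : Fin n → ℝ)

theorem res_dot {n : ℕ} (W : Submodule ℝ (Fin n → ℝ)) (a : Fin n → ℝ) (z : W) :
    res W a ⬝ᵥ (Module.finBasis ℝ W).equivFun z = a ⬝ᵥ (z : Fin n → ℝ) := by
  have h1 : (z : Fin n → ℝ) = ∑ j, (Module.finBasis ℝ W).equivFun z j •
      ((Module.finBasis ℝ W j : W) : Fin n → ℝ) := by
    have h2 := (Module.finBasis ℝ W).sum_equivFun z
    conv_lhs => rw [← h2]
    rw [Submodule.coe_sum]
    rfl
  conv_rhs => rw [h1]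
  rw [dotProduct_sum, dotProduct]
  refine Finset.sum_congr rfl fun j _ => ?_
  rw [dotProduct_smul, smul_eq_mul, mul_comm]
  rfl

/-- A subspace of `W` in coordinates. -/
noncomputable def crd {n : ℕ} (W V : Submodule ℝ (Fin n → ℝ)) :
    Submodule ℝ (Fin (Module.finrank ℝ W) → ℝ) :=
  (V.comap W.subtype).map ((Module.finBasis ℝ W).equivFun : W →ₗ[ℝ] _)

theorem finrank_crd {n : ℕ} (W V : Submodule ℝ (Fin n → ℝ)) :
    Module.finrank ℝ (crd W V) = Module.finrank ℝ ↥(V ⊓ W) := by
  have h1 : Module.finrank ℝ (crd W V) = Module.finrank ℝ (V.comap W.subtype) :=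
    (Submodule.equivMapOfInjective _ (Module.finBasis ℝ W).equivFun.injective _).finrank_eq.symm
  rw [h1]
  have h2 : V.comap W.subtype = (V ⊓ W).comap W.subtype := by
    ext z
    simp
  rw [h2]
  exact (Submodule.comapSubtypeEquivOfLe inf_le_right).finrank_eq

theorem mem_crd {n : ℕ} {W V : Submodule ℝ (Fin n → ℝ)}
    {z : Fin (Module.finrank ℝ W) → ℝ} :
    z ∈ crd W V ↔ ∃ t : W, (t : Fin n → ℝ) ∈ V ∧ (Module.finBasis ℝ W).equivFun t = z := by
  constructor
  · rintro ⟨t, ht, rfl⟩
    exact ⟨t, ht, rfl⟩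
  · rintro ⟨t, ht, rfl⟩
    exact ⟨t, ht, rfl⟩

end flats

end Pool.Agent.Helper93.Psd
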