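import Mathlib
import Pool.Agent.Helper93.PsdWeightsG

/-!
# The sharp local inequality and its average

For a Parseval frame `u`, a subspace `T` orthogonal to the `u k`, `k ∉ F`, the orthogonal
projection `a` of `u k` to `T`, `r = |a|²`, `p = |u k|²` and `s = ∑_{l ∈ F, l ≠ k} ⟨u k, u l⟩²`:
`r * ((1 - p) ^ 2 + s) ≤ s`.
-/

namespace Pool.Agent.Helper93.Psd

set_option linter.unusedSectionVars false

open Finset Matrix

section sharp

variable {κ : Type*} [Fintype κ] [DecidableEq κ] {E : Type*} [NormedAddCommGroup E]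
  [InnerProductSpace ℝ E] [FiniteDimensional ℝ E]

/-- The local inequality. -/
theorem local_ineq (u : κ → E)
    (hP : ∀ x y : E, ∑ k, inner ℝ (u k) x * inner ℝ (u k) y = inner ℝ x y)
    (T : Submodule ℝ E) (F : Finset κ) (hT : ∀ k, k ∉ F → ∀ x ∈ T, inner ℝ (u k) x = 0)
    (k : κ) (hk : k ∈ F) (a : E) (haT : a ∈ T) (ha : ∀ z ∈ T, inner ℝ a z = inner ℝ (u k) z) :
    inner ℝ a a * ((1 - inner ℝ (u k) (u k)) ^ 2 + ∑ l ∈ F.erase k, inner ℝ (u k) (u l) ^ 2) ≤
      ∑ l ∈ F.erase k, inner ℝ (u k) (u l) ^ 2 := by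
  set r : ℝ := inner ℝ a a with hr
  set p : ℝ := inner ℝ (u k) (u k) with hp
  set s : ℝ := ∑ l ∈ F.erase k, inner ℝ (u k) (u l) ^ 2 with hs
  have hau : inner ℝ (u k) a = r := by rw [hr, ha a haT]
  have hau' : inner ℝ a (u k) = r := by rw [real_inner_comm, hau]
  -- Parseval on `F` with one argument in `T`
  have hPF : ∀ (x z : E), z ∈ T → ∑ l ∈ F, inner ℝ (u l) x * inner ℝ (u l) z = inner ℝ x z := by
    intro x z hz
    rw [← hP x z]
    refine Finset.sum_subset (Finset.subset_univ _) fun l _ hl => ?_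
    rw [hT l hl z hz, mul_zero]
  let b : E := u k - a
  have hb : inner ℝ b a = 0 := by
    simp only [b]
    rw [inner_sub_left, hau, ← hr, sub_self]
  have hbk : inner ℝ b (u k) = p - r := by
    simp only [b]
    rw [inner_sub_left, hau', ← hp]
  -- the sum over `F` of the squares
  have h1 : ∑ l ∈ F, inner ℝ (u k) (u l) ^ 2 = r + ∑ l ∈ F, inner ℝ (u l) b ^ 2 := by
    have e1 : ∀ l, inner ℝ (u k) (u l) ^ 2 = inner ℝ (u l) a * inner ℝ (u l) a +
        2 * (inner ℝ (u l) b * inner ℝ (u l) a) + inner ℝ (u l) b ^ 2 := by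
      intro l
      have e2 : inner ℝ (u k) (u l) = inner ℝ (u l) a + inner ℝ (u l) b := by
        rw [← inner_add_right]
        simp only [b]
        rw [add_sub_cancel, real_inner_comm]
      rw [e2]; ring
    rw [Finset.sum_congr rfl fun l _ => e1 l, Finset.sum_add_distrib, Finset.sum_add_distrib,
      hPF a a haT, ← Finset.mul_sum, hPF b a haT, hb]
    ring
  have h2 : ∑ l ∈ F, inner ℝ (u k) (u l) ^ 2 = p ^ 2 + s := by
    rw [hs, ← Finset.add_sum_erase F _ hk]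
  -- Cauchy-Schwarz
  have h3 : (p - r) ^ 2 ≤ (∑ l ∈ F, inner ℝ (u l) b ^ 2) * (1 - r) := by
    have e1 := Finset.sum_mul_sq_le_sq_mul_sq F (fun l => inner ℝ (u l) b)
      (fun l => (if l = k then (1 : ℝ) else 0) - inner ℝ (u l) a)
    have e2 : ∑ l ∈ F, inner ℝ (u l) b * ((if l = k then (1 : ℝ) else 0) - inner ℝ (u l) a) =
        p - r := by
      simp only [mul_sub, Finset.sum_sub_distrib]
      rw [hPF b a haT, hb, sub_zero]
      simp only [mul_ite, mul_one, mul_zero, Finset.sum_ite_eq', hk, if_true]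
      rw [real_inner_comm, hbk]
    have e3 : ∑ l ∈ F, ((if l = k then (1 : ℝ) else 0) - inner ℝ (u l) a) ^ 2 = 1 - r := by
      have e4 : ∀ l, ((if l = k then (1 : ℝ) else 0) - inner ℝ (u l) a) ^ 2 =
          (if l = k then (1 : ℝ) else 0) - 2 * (if l = k then inner ℝ (u l) a else 0) +
            inner ℝ (u l) a * inner ℝ (u l) a := by
        intro l
        split_ifs <;> ring
      rw [Finset.sum_congr rfl fun l _ => e4 l, Finset.sum_add_distrib, Finset.sum_sub_distrib,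
        ← Finset.mul_sum, hPF a a haT]
      simp only [Finset.sum_ite_eq', hk, if_true]
      rw [hau]
      ring
    rw [e2, e3] at e1
    exact e1
  have h4 : ∑ l ∈ F, inner ℝ (u l) b ^ 2 = p ^ 2 + s - r := by linarith
  rw [h4] at h3
  nlinarith

theorem local_lin (r p s c : ℝ) (hp : p < 1) (hr1 : r < 1) 
    (h : r * ((1 - p) ^ 2 + s) ≤ s) : r ≤ c ^ 2 + (1 - c) ^ 2 * s / (1 - p) ^ 2 := by
  have hq : 0 < (1 - p) ^ 2 := by
    have : 0 < 1 - p := by linarith
    positivity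
  have h1 : r * (1 - p) ^ 2 ≤ s * (1 - r) := by linarith
  have hr' : 0 < 1 - r := by linarith
  have h2 : r * (1 - p) ^ 2 / (1 - r) ≤ s := by
    rw [div_le_iff₀ hr']
    exact h1
  have h3 : c ^ 2 + (1 - c) ^ 2 * (r * (1 - p) ^ 2 / (1 - r)) / (1 - p) ^ 2 ≤
      c ^ 2 + (1 - c) ^ 2 * s / (1 - p) ^ 2 := by
    have h4 : (1 - c) ^ 2 * (r * (1 - p) ^ 2 / (1 - r)) ≤ (1 - c) ^ 2 * s :=
      mul_le_mul_of_nonneg_left h2 (sq_nonneg _)
    have h5 := div_le_div_of_nonneg_right h4 hq.le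
    linarith
  refine le_trans ?_ h3
  have h4 : (1 - c) ^ 2 * (r * (1 - p) ^ 2 / (1 - r)) / (1 - p) ^ 2 = (1 - c) ^ 2 * r / (1 - r) := by
    have hq' := hq.ne'
    rw [div_eq_div_iff hq' hr'.ne']
    have h7 : r * (1 - p) ^ 2 / (1 - r) * (1 - r) = r * (1 - p) ^ 2 := div_mul_cancel₀ _ hr'.ne'
    linear_combination (1 - c) ^ 2 * h7
  rw [h4]
  have h5 : c ^ 2 + (1 - c) ^ 2 * r / (1 - r) - r = (c - r) ^ 2 / (1 - r) := by
    field_simp
    ring
  have h6 : 0 ≤ (c - r) ^ 2 / (1 - r) := div_nonneg (sq_nonneg _) hr'.le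
  linarith

/-- The choice of `c`. -/
theorem choose_c (A N2 π p κ0 : ℝ) (hA : 0 ≤ A) (hN : 0 < N2) (hπ : 0 ≤ π) (hπp : π ≤ p)
    (hp : p < 1) (hκ0 : 0 ≤ κ0) (h : A ≤ (1 + κ0) * (A - p * (A - N2))) :
    ∃ c : ℝ, c ^ 2 * A + (1 - c) ^ 2 / (1 - π) ^ 2 * (N2 * (π - π ^ 2)) ≤
      π * (N2 * (1 + κ0)) := by
  have hπ1 : 0 < 1 - π := by linarith
  rcases hπ.eq_or_lt with h0 | h0
  · refine ⟨0, ?_⟩
    rw [← h0]
    norm_num
  · have hB : 0 < N2 * π / (1 - π) := by positivity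
    refine ⟨N2 * π / (A * (1 - π) + N2 * π), ?_⟩
    have hden : 0 < A * (1 - π) + N2 * π := by
      have : 0 ≤ A * (1 - π) := mul_nonneg hA hπ1.le
      have : 0 < N2 * π := mul_pos hN h0
      linarith
    have h1 : (N2 * π / (A * (1 - π) + N2 * π)) ^ 2 * A +
        (1 - N2 * π / (A * (1 - π) + N2 * π)) ^ 2 / (1 - π) ^ 2 * (N2 * (π - π ^ 2)) =
        A * N2 * π / (A * (1 - π) + N2 * π) := by
      field_simp
      ring
    rw [h1, div_le_iff₀ hden]
    have h2 : A ≤ (1 + κ0) * (A - π * (A - N2)) := by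
      rcases le_total (A - N2) 0 with h3 | h3
      · have h4 : 0 ≤ -(π * (A - N2)) := by
          have := mul_nonpos_of_nonneg_of_nonpos hπ h3
          linarith
        nlinarith
      · refine h.trans (mul_le_mul_of_nonneg_left ?_ (by linarith))
        have := mul_le_mul_of_nonneg_right hπp h3
        linarith
    have h3 : (1 + κ0) * (A - π * (A - N2)) = (1 + κ0) * (A * (1 - π) + N2 * π) := by ring
    rw [h3] at h2
    have h4 := mul_le_mul_of_nonneg_left h2 (mul_pos hN h0).le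
    nlinarith

/-- **The sharp weighted inequality for a Parseval frame.** -/
theorem avg_sharp {ι : Type*} [Fintype ι] (u : κ → E)
    (hP : ∀ x y : E, ∑ k, inner ℝ (u k) x * inner ℝ (u k) y = inner ℝ x y) (p : κ → ℝ)
    (hp : ∀ k, inner ℝ (u k) (u k) ≤ p k) (hp1 : ∀ k, p k < 1) (om : ι → ℝ) (hom : ∀ i, 0 ≤ om i)
    (T : ι → Submodule ℝ E) (F : ι → Finset κ)
    (hT : ∀ i k, k ∉ F i → ∀ x ∈ T i, inner ℝ (u k) x = 0) (N2 κ0 : ℝ) (hN0 : 0 < N2)
    (hκ0 : 0 ≤ κ0)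
    (hN2 : ∀ k l, k ≠ l → ∑ i ∈ univ.filter (fun i => k ∈ F i ∧ l ∈ F i), om i ≤ N2)
    (hκ : ∀ k, ∑ i ∈ univ.filter (fun i => k ∈ F i), om i ≤
      (1 + κ0) * (∑ i ∈ univ.filter (fun i => k ∈ F i), om i -
        p k * (∑ i ∈ univ.filter (fun i => k ∈ F i), om i - N2))) :
    ∑ i, om i * (Module.finrank ℝ (T i) : ℝ) ≤ Module.finrank ℝ E * (N2 * (1 + κ0)) := by
  classical
  let π : κ → ℝ := fun k => inner ℝ (u k) (u k)
  have hπ0 : ∀ k, 0 ≤ π k := fun k => real_inner_self_nonneg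
  have hπ1 : ∀ k, π k < 1 := fun k => (hp k).trans_lt (hp1 k)
  let A : κ → ℝ := fun k => ∑ i ∈ univ.filter (fun i => k ∈ F i), om i
  have hA : ∀ k, 0 ≤ A k := fun k => Finset.sum_nonneg fun i _ => hom i
  choose c hc using fun k => choose_c (A k) N2 (π k) (p k) κ0 (hA k) hN0 (hπ0 k) (hp k) (hp1 k)
    hκ0 (hκ k)
  -- the local bound
  have hloc : ∀ i, (Module.finrank ℝ (T i) : ℝ) ≤ ∑ k ∈ F i, (c k ^ 2 +
      (1 - c k) ^ 2 / (1 - π k) ^ 2 * ∑ l ∈ (F i).erase k, inner ℝ (u k) (u l) ^ 2) := by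
    intro i
    let b := stdOrthonormalBasis ℝ (T i)
    let t := Module.finrank ℝ (T i)
    let e : Fin t → E := fun j => (b j : E)
    have he : ∀ i j, inner ℝ (e i) (e j) = if i = j then (1 : ℝ) else 0 := by
      intro i j
      have h1 := orthonormal_iff_ite.1 b.orthonormal i j
      rw [← h1]
      rfl
    let a : κ → E := fun k => ∑ j, inner ℝ (u k) (e j) • e j
    have haT : ∀ k, a k ∈ T i := fun k =>
      Submodule.sum_mem _ fun j _ => Submodule.smul_mem _ _ (b j).2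
    have hae : ∀ k j, inner ℝ (a k) (e j) = inner ℝ (u k) (e j) := by
      intro k j
      simp only [a]
      rw [sum_inner]
      simp only [real_inner_smul_left, he]
      simp
    have ha : ∀ k, ∀ z ∈ T i, inner ℝ (a k) z = inner ℝ (u k) z := by
      intro k z hz
      have h1 : ∑ j, inner ℝ (e j) z • e j = z := by
        have h2 := b.sum_repr' ⟨z, hz⟩
        have h3 := congrArg (fun q : T i => (q : E)) h2
        simp only [Submodule.coe_sum, Submodule.coe_smul] at h3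
        exact h3
      rw [← h1, inner_sum, inner_sum]
      refine Finset.sum_congr rfl fun j _ => ?_
      rw [inner_smul_right, inner_smul_right, hae]
    have haa : ∀ k, inner ℝ (a k) (a k) = ∑ j, inner ℝ (u k) (e j) * inner ℝ (u k) (e j) := by
      intro k
      rw [ha k (a k) (haT k)]
      simp only [a]
      rw [inner_sum]
      refine Finset.sum_congr rfl fun j _ => ?_
      rw [inner_smul_right]
    have hsum : ∑ k ∈ F i, inner ℝ (a k) (a k) = (t : ℝ) := by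
      have h1 : ∑ k ∈ F i, inner ℝ (a k) (a k) = ∑ k, inner ℝ (a k) (a k) := by
        refine Finset.sum_subset (Finset.subset_univ _) fun k _ hk => ?_
        rw [haa]
        refine Finset.sum_eq_zero fun j _ => ?_
        rw [hT i k hk _ (b j).2, mul_zero]
      rw [h1, Finset.sum_congr rfl fun k _ => haa k, Finset.sum_comm,
        Finset.sum_congr rfl fun j _ => hP (e j) (e j),
        Finset.sum_congr rfl fun j _ => (he j j).trans (if_pos rfl)]
      simp
    have hr1 : ∀ k, inner ℝ (a k) (a k) < 1 := by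
      intro k
      refine lt_of_le_of_lt ?_ (hπ1 k)
      have h1 : (0 : ℝ) ≤ inner ℝ (u k - a k) (u k - a k) := real_inner_self_nonneg
      rw [inner_sub_left, inner_sub_right, inner_sub_right, ha k (a k) (haT k),
        real_inner_comm (u k) (a k)] at h1
      have h2 := ha k (a k) (haT k)
      simp only [π]
      linarith
    rw [show (Module.finrank ℝ (T i) : ℝ) = (t : ℝ) from rfl, ← hsum]
    refine Finset.sum_le_sum fun k hk => ?_
    have h1 := local_ineq u hP (T i) (F i) (hT i) k hk (a k) (haT k) (ha k)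
    have h2 := local_lin _ _ _ (c k) (hπ1 k) (hr1 k) h1
    refine h2.trans (le_of_eq ?_)
    simp only [π]
    ring
  have h1 : ∑ i, om i * (Module.finrank ℝ (T i) : ℝ) ≤ ∑ i, om i * ∑ k ∈ F i, (c k ^ 2 +
      (1 - c k) ^ 2 / (1 - π k) ^ 2 * ∑ l ∈ (F i).erase k, inner ℝ (u k) (u l) ^ 2) :=
    Finset.sum_le_sum fun i _ => mul_le_mul_of_nonneg_left (hloc i) (hom i)
  have h2 : ∑ i, om i * ∑ k ∈ F i, (c k ^ 2 +
      (1 - c k) ^ 2 / (1 - π k) ^ 2 * ∑ l ∈ (F i).erase k, inner ℝ (u k) (u l) ^ 2) =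
      ∑ k, (c k ^ 2 * A k + (1 - c k) ^ 2 / (1 - π k) ^ 2 * ∑ l ∈ univ.erase k,
        (∑ i ∈ univ.filter (fun i => k ∈ F i ∧ l ∈ F i), om i) * inner ℝ (u k) (u l) ^ 2) := by
    have e1 : ∀ i, om i * ∑ k ∈ F i, (c k ^ 2 +
        (1 - c k) ^ 2 / (1 - π k) ^ 2 * ∑ l ∈ (F i).erase k, inner ℝ (u k) (u l) ^ 2) =
        ∑ k, ((if k ∈ F i then c k ^ 2 * om i else 0) + (1 - c k) ^ 2 / (1 - π k) ^ 2 *
          ∑ l ∈ univ.erase k, if k ∈ F i ∧ l ∈ F i then om i * inner ℝ (u k) (u l) ^ 2 else 0) := by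
      intro i
      rw [Finset.mul_sum, ← Finset.sum_subset (Finset.subset_univ (F i))]
      · refine Finset.sum_congr rfl fun k hk => ?_
        rw [if_pos hk]
        have e2 : ∑ l ∈ univ.erase k, (if k ∈ F i ∧ l ∈ F i then om i * inner ℝ (u k) (u l) ^ 2
            else 0) = om i * ∑ l ∈ (F i).erase k, inner ℝ (u k) (u l) ^ 2 := by
          rw [Finset.mul_sum, ← Finset.sum_subset (Finset.erase_subset_erase k
            (Finset.subset_univ (F i)))]
          · refine Finset.sum_congr rfl fun l hl => ?_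
            rw [if_pos ⟨hk, Finset.mem_of_mem_erase hl⟩]
          · intro l hl hl'
            rw [if_neg fun h => hl' (Finset.mem_erase.2 ⟨(Finset.mem_erase.1 hl).1, h.2⟩)]
        rw [e2]
        ring
      · intro k _ hk
        rw [if_neg hk, zero_add]
        have e2 : ∑ l ∈ univ.erase k, (if k ∈ F i ∧ l ∈ F i then om i * inner ℝ (u k) (u l) ^ 2
            else 0) = 0 := Finset.sum_eq_zero fun l _ => if_neg fun h => hk h.1
        rw [e2, mul_zero]
    rw [Finset.sum_congr rfl fun i _ => e1 i, Finset.sum_comm]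
    refine Finset.sum_congr rfl fun k _ => ?_
    rw [Finset.sum_add_distrib]
    congr 1
    · rw [← Finset.sum_filter, ← Finset.mul_sum]
    · rw [← Finset.mul_sum, Finset.sum_comm]
      congr 1
      refine Finset.sum_congr rfl fun l _ => ?_
      rw [← Finset.sum_filter, Finset.sum_mul]
  have h3 : ∀ k, ∑ l ∈ univ.erase k,
      (∑ i ∈ univ.filter (fun i => k ∈ F i ∧ l ∈ F i), om i) * inner ℝ (u k) (u l) ^ 2 ≤
      N2 * (π k - π k ^ 2) := by
    intro k
    have e1 : ∑ l ∈ univ.erase k,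
      (∑ i ∈ univ.filter (fun i => k ∈ F i ∧ l ∈ F i), om i) * inner ℝ (u k) (u l) ^ 2 ≤
      ∑ l ∈ univ.erase k, N2 * inner ℝ (u k) (u l) ^ 2 :=
      Finset.sum_le_sum fun l hl => mul_le_mul_of_nonneg_right
        (hN2 k l (Finset.mem_erase.1 hl).1.symm) (sq_nonneg _)
    refine e1.trans (le_of_eq ?_)
    rw [← Finset.mul_sum]
    congr 1
    have e2 := hP (u k) (u k)
    rw [← Finset.add_sum_erase univ _ (Finset.mem_univ k)] at e2
    have e3 : ∑ l ∈ univ.erase k, inner ℝ (u k) (u l) ^ 2 =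
        ∑ l ∈ univ.erase k, inner ℝ (u l) (u k) * inner ℝ (u l) (u k) := by
      refine Finset.sum_congr rfl fun l _ => ?_
      rw [real_inner_comm (u l) (u k)]
      ring
    rw [e3]
    simp only [π]
    linarith
  have h4 : ∀ k, c k ^ 2 * A k + (1 - c k) ^ 2 / (1 - π k) ^ 2 * ∑ l ∈ univ.erase k,
        (∑ i ∈ univ.filter (fun i => k ∈ F i ∧ l ∈ F i), om i) * inner ℝ (u k) (u l) ^ 2 ≤
      π k * (N2 * (1 + κ0)) := by
    intro k
    refine le_trans ?_ (hc k)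
    have e1 : 0 ≤ (1 - c k) ^ 2 / (1 - π k) ^ 2 := div_nonneg (sq_nonneg _) (sq_nonneg _)
    have e2 := mul_le_mul_of_nonneg_left (h3 k) e1
    linarith
  rw [h2] at h1
  refine h1.trans ((Finset.sum_le_sum fun k _ => h4 k).trans (le_of_eq ?_))
  rw [← Finset.sum_mul]
  congr 1
  exact sum_norm_sq u hP

end sharp

section average

open scoped MatrixOrder

variable {κ : Type*} [Fintype κ] [DecidableEq κ] {D : ℕ}

/-- **The sharp weighted averaged inequality.** -/
theorem avg_finrank_sharp {ι : Type*} [Fintype ι] (w : κ → Fin D → ℝ)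
    (hspan : Submodule.span ℝ (Set.range w) = ⊤) (p : κ → ℝ)
    (hX : ∀ X : Finset κ, X ≠ univ →
      (D : ℝ) - Module.finrank ℝ (Submodule.span ℝ (w '' X)) < ∑ k ∈ univ \ X, p k)
    (hp1 : ∀ k, p k < 1) (om : ι → ℝ) (hom : ∀ i, 0 ≤ om i)
    (T : ι → Submodule ℝ (Fin D → ℝ)) (F : ι → Finset κ)
    (hT : ∀ i k, k ∉ F i → ∀ x ∈ T i, w k ⬝ᵥ x = 0) (N2 κ0 : ℝ) (hN0 : 0 < N2) (hκ0 : 0 ≤ κ0)
    (hN2 : ∀ k l, k ≠ l → ∑ i ∈ univ.filter (fun i => k ∈ F i ∧ l ∈ F i), om i ≤ N2)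
    (hκ : ∀ k, ∑ i ∈ univ.filter (fun i => k ∈ F i), om i ≤
      (1 + κ0) * (∑ i ∈ univ.filter (fun i => k ∈ F i), om i -
        p k * (∑ i ∈ univ.filter (fun i => k ∈ F i), om i - N2))) :
    ∑ i, om i * (Module.finrank ℝ (T i) : ℝ) ≤ D * (N2 * (1 + κ0)) := by
  obtain ⟨lam, hlam, hPD, hlev⟩ := exists_weights_gen w hspan p hX
  obtain ⟨y, hy⟩ := CStarAlgebra.nonneg_iff_eq_star_mul_self.mp hPD.posSemidef.nonneg
  have hy' : fr w lam univ = yᵀ * y := by
    rw [hy, Matrix.star_eq_conjTranspose, Matrix.conjTranspose_eq_transpose_of_trivial]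
  have hdet : y.det ≠ 0 := by
    intro h0
    have h1 := hPD.det_pos
    rw [hy', Matrix.det_mul, h0, mul_zero] at h1
    exact lt_irrefl _ h1
  have hyu : IsUnit y.det := isUnit_iff_ne_zero.2 hdet
  let E := EuclideanSpace ℝ (Fin D)
  let u : κ → E := fun k => WithLp.toLp 2 (Real.sqrt (lam k) • ((y⁻¹)ᵀ *ᵥ w k))
  have hin : ∀ (k : κ) (x : E), inner ℝ (u k) x = Real.sqrt (lam k) * (w k ⬝ᵥ (y⁻¹ *ᵥ x.ofLp)) := by
    intro k x
    rw [EuclideanSpace.inner_eq_star_dotProduct]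
    simp only [u, star_trivial, dotProduct_smul, smul_eq_mul]
    congr 1
    rw [dotProduct_comm, Matrix.mulVec_transpose, ← Matrix.dotProduct_mulVec]
  have hP : ∀ x z : E, ∑ k, inner ℝ (u k) x * inner ℝ (u k) z = inner ℝ x z := by
    intro x z
    have h1 : ∀ k, inner ℝ (u k) x * inner ℝ (u k) z =
        lam k * ((w k ⬝ᵥ (y⁻¹ *ᵥ x.ofLp)) * (w k ⬝ᵥ (y⁻¹ *ᵥ z.ofLp))) := by
      intro k
      rw [hin, hin]
      have h2 := Real.mul_self_sqrt (hlam k).le
      linear_combination ((w k ⬝ᵥ (y⁻¹ *ᵥ x.ofLp)) * (w k ⬝ᵥ (y⁻¹ *ᵥ z.ofLp))) * h2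
    have h2 : ∀ z : Fin D → ℝ, y *ᵥ (y⁻¹ *ᵥ z) = z := by
      intro z
      rw [Matrix.mulVec_mulVec, Matrix.mul_nonsing_inv _ hyu, Matrix.one_mulVec]
    rw [Finset.sum_congr rfl fun k _ => h1 k, ← fr_mulVec, hy', ← Matrix.mulVec_mulVec, h2,
      Matrix.dotProduct_mulVec, Matrix.vecMul_transpose, h2,
      EuclideanSpace.inner_eq_star_dotProduct]
    rw [star_trivial, dotProduct_comm]
  have hα : ∀ k, inner ℝ (u k) (u k) ≤ p k := by
    intro k
    refine le_trans (le_of_eq ?_) (hlev k)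
    rw [hin]
    simp only [u, Matrix.mulVec_smul, dotProduct_smul, smul_eq_mul]
    rw [hy', Matrix.mul_inv_rev, ← Matrix.mulVec_mulVec, ← Matrix.transpose_nonsing_inv]
    have h2 := Real.mul_self_sqrt (hlam k).le
    linear_combination (w k ⬝ᵥ (y⁻¹ *ᵥ ((y⁻¹)ᵀ *ᵥ w k))) * h2
  let ψ : (Fin D → ℝ) →ₗ[ℝ] E :=
    ((WithLp.linearEquiv 2 ℝ (Fin D → ℝ)).symm.toLinearMap).comp y.mulVecLin
  have hψ : ∀ x, (ψ x).ofLp = y *ᵥ x := fun x => rfl
  have hψi : Function.Injective ψ := by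
    intro a b hab
    have h1 : y *ᵥ a = y *ᵥ b := by rw [← hψ, ← hψ, hab]
    have h2 := congrArg (fun z => y⁻¹ *ᵥ z) h1
    simpa [Matrix.mulVec_mulVec, Matrix.nonsing_inv_mul _ hyu] using h2
  have h1 := avg_sharp u hP p hα hp1 om hom (fun i => (T i).map ψ) F (by
    rintro i k hk _ ⟨x, hx, rfl⟩
    rw [hin, hψ, Matrix.mulVec_mulVec, Matrix.nonsing_inv_mul _ hyu, Matrix.one_mulVec,
      hT i k hk x hx, mul_zero]) N2 κ0 hN0 hκ0 hN2 hκ
  have h2 : ∀ i, Module.finrank ℝ ((T i).map ψ) = Module.finrank ℝ (T i) := fun i =>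
    (Submodule.equivMapOfInjective ψ hψi (T i)).finrank_eq.symm
  simp only [h2] at h1
  have h3 : Module.finrank ℝ E = D := by simp [E]
  rwa [h3] at h1

end average

end Pool.Agent.Helper93.Psd
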