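import Mathlib
import Pool.Agent.Helper93.PsdFlatsA
import Pool.Agent.Helper93.PsdSharp

/-!
# The key inequality at one flat
-/

namespace Pool.Agent.Helper93.Psd

set_option linter.unusedSectionVars false

open Finset Matrix
open Pool.Agent.Helper73.Psd (Tsub mem_Tsub)

section key

variable {ι κ : Type*} [Fintype ι] [DecidableEq ι] [Fintype κ] {n : ℕ}

/-- The dimension of `T_v` inside a flat. -/
noncomputable def tt (x : ι → Fin n → ℝ) (y : κ → Fin n → ℝ) (C : Finset ι) (k : κ) : ℕ :=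
  Module.finrank ℝ ↥(Tsub x (y k) ⊓ fl x C)

open Classical in
/-- The summand of the generating function of a flat. -/
noncomputable def zt (x : ι → Fin n → ℝ) (y : κ → Fin n → ℝ) (C : Finset ι) (s : ℝ) (k : κ) : ℝ :=
  if y k ∈ fl x C then s ^ tt x y C k else 0

/-- The generating function of a flat. -/
noncomputable def ZZ (x : ι → Fin n → ℝ) (y : κ → Fin n → ℝ) (C : Finset ι) (s : ℝ) : ℝ :=
  ∑ k, zt x y C s k

theorem zt_nonneg (x : ι → Fin n → ℝ) (y : κ → Fin n → ℝ) (C : Finset ι) {s : ℝ} (hs : 0 ≤ s)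
    (k : κ) : 0 ≤ zt x y C s k := by
  unfold zt
  split_ifs
  · exact pow_nonneg hs _
  · exact le_rfl

theorem zt_of_mem (x : ι → Fin n → ℝ) (y : κ → Fin n → ℝ) (C : Finset ι) (s : ℝ)
    (k : κ) (hk : y k ∈ fl x C) : zt x y C s k = s ^ tt x y C k := if_pos hk

theorem zt_of_not_mem (x : ι → Fin n → ℝ) (y : κ → Fin n → ℝ) (C : Finset ι) (s : ℝ)
    (k : κ) (hk : y k ∉ fl x C) : zt x y C s k = 0 := if_neg hk

theorem tt_anti (x : ι → Fin n → ℝ) (y : κ → Fin n → ℝ) {C C' : Finset ι} (h : C ⊆ C') (k : κ) :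
    tt x y C' k ≤ tt x y C k :=
  Submodule.finrank_mono (inf_le_inf_left _ (fl_anti x h))

theorem zt_mono (x : ι → Fin n → ℝ) (y : κ → Fin n → ℝ) {C C' : Finset ι} (h : C ⊆ C') {s : ℝ}
    (hs : 0 < s) (hs1 : s ≤ 1) (k : κ) (hk : y k ∈ fl x C') : zt x y C s k ≤ zt x y C' s k := by
  rw [zt_of_mem x y C s k (fl_anti x h hk), zt_of_mem x y C' s k hk]
  exact pow_le_pow_of_le_one hs.le hs1 (tt_anti x y h k)

theorem zt_drop (x : ι → Fin n → ℝ) (y : κ → Fin n → ℝ) {C C' : Finset ι} (h : C ⊆ C') {s : ℝ}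
    (hs : 0 < s) (hs1 : s ≤ 1) (k : κ) (hk : y k ∈ fl x C')
    (ht : tt x y C' k + 1 ≤ tt x y C k) : zt x y C s k ≤ s * zt x y C' s k := by
  rw [zt_of_mem x y C s k (fl_anti x h hk), zt_of_mem x y C' s k hk, ← pow_succ']
  exact pow_le_pow_of_le_one hs.le hs1 ht

theorem exists_reps (x : ι → Fin n → ℝ) (y : κ → Fin n → ℝ) (C : Finset ι) :
    ∃ (ρ : Type) (_ : Fintype ρ) (_ : DecidableEq ρ) (idx : ρ → ι),
      (∀ H, fl x (insert (idx H) C) ≠ fl x C) ∧
      (∀ H H', H ≠ H' → fl x (insert (idx H) C) ≠ fl x (insert (idx H') C)) ∧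
      (∀ H, ∃ k, y k ∈ fl x (insert (idx H) C)) ∧
      ∀ i, (∃ k, y k ∈ fl x (insert i C)) → fl x (insert i C) ≠ fl x C →
        ∃ H, fl x (insert (idx H) C) = fl x (insert i C) := by
  classical
  let S : Finset (Submodule ℝ (Fin n → ℝ)) :=
    (univ.filter fun i => fl x (insert i C) ≠ fl x C ∧ ∃ k, y k ∈ fl x (insert i C)).image
      fun i => fl x (insert i C)
  have hS : ∀ H : {H // H ∈ S}, ∃ i, (fl x (insert i C) ≠ fl x C ∧ ∃ k, y k ∈ fl x (insert i C)) ∧
      fl x (insert i C) = H.1 := by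
    intro H
    obtain ⟨i, hi, hH⟩ := Finset.mem_image.1 H.2
    exact ⟨i, (Finset.mem_filter.1 hi).2, hH⟩
  choose idx hidx using hS
  refine ⟨{H // H ∈ S}, inferInstance, Classical.decEq _, idx, fun H => (hidx H).1.1, ?_,
    fun H => (hidx H).1.2, ?_⟩
  · intro H H' hne heq
    rw [(hidx H).2, (hidx H').2] at heq
    exact hne (Subtype.ext heq)
  · intro i hi1 hi2
    refine ⟨⟨fl x (insert i C), Finset.mem_image.2 ⟨i, Finset.mem_filter.2
      ⟨Finset.mem_univ _, hi2, hi1⟩, rfl⟩⟩, ?_⟩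
    rw [(hidx _).2]

theorem two_pow_mul_ge (r j : ℕ) (hj : 1 ≤ j) : r + j ≤ 2 ^ r * j := by
  have h1 : r + 1 ≤ 2 ^ r := Nat.lt_two_pow_self
  have h2 : (r + 1) * j ≤ 2 ^ r * j := Nat.mul_le_mul_right j h1
  have h3 : r + j ≤ (r + 1) * j := by nlinarith
  exact h3.trans h2

/-- **The key inequality.** -/
theorem key (x : ι → Fin n → ℝ) (y : κ → Fin n → ℝ)
    (hF1 : ∀ k z, (∀ i, x i ⬝ᵥ y k = 0 → x i ⬝ᵥ z = 0) → ∃ c : ℝ, z = c • y k)
    (C : Finset ι) (he : 3 ≤ Module.finrank ℝ (fl x C)) (ξ g κ0 : ℝ) (hξ0 : 0 < ξ) (hξ1 : ξ ≤ 1)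
    (hg : 2 ≤ g) (hκ0 : 0 ≤ κ0)
    (hε1 : (1 + 1 / ((Module.finrank ℝ (fl x C) : ℝ) - 2)) * (1 / g) < 1)
    (hK : ∀ a, 1 / g ≤ a → a ≤ 1 → a ≤ (1 + κ0) * (a -
      (1 + 1 / ((Module.finrank ℝ (fl x C) : ℝ) - 2)) * (1 / g * (1 - a * (1 - ξ))) * (a - 1 / g)))
    (hZ : 0 < ZZ x y C ξ)
    (hIH : ∀ C', Module.finrank ℝ (fl x C') < Module.finrank ℝ (fl x C) →
      ZZ x y C' ξ * g ^ (Module.finrank ℝ (fl x C) - Module.finrank ℝ (fl x C')) ≤ ZZ x y C ξ) :
    ∑ k, zt x y C ξ k * (tt x y C k : ℝ) ≤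
      ZZ x y C ξ * (Module.finrank ℝ (fl x C) * (ξ / g ^ 2 * (1 + κ0))) := by
  classical
  obtain ⟨ρ, instF, instD, idx, r1, r2, r3, r4⟩ := exists_reps x y C
  set Z : ℝ := ZZ x y C ξ with hZdef
  set e : ℕ := Module.finrank ℝ (fl x C) with hedef
  have hg0 : 0 < g := by linarith
  let Hs : ρ → Submodule ℝ (Fin n → ℝ) := fun H => fl x (insert (idx H) C)
  have hHW : ∀ H, Hs H ≤ fl x C := fun H => fl_anti x (Finset.subset_insert _ _)
  have hHlt : ∀ H, Hs H < fl x C := fun H => lt_of_le_of_ne (hHW H) (r1 H)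
  have hHrk : ∀ H, Module.finrank ℝ (Hs H) + 1 = e := by
    intro H
    have h1 := Submodule.finrank_lt_finrank_of_lt (hHlt H)
    have h2 := finrank_fl_insert x C (idx H)
    have h3 : Module.finrank ℝ (Hs H) = Module.finrank ℝ (fl x (insert (idx H) C)) := rfl
    omega
  let w : ρ → Fin e → ℝ := fun H => res (fl x C) (x (idx H))
  let φ := (Module.finBasis ℝ (fl x C)).equivFun
  have hw : ∀ H (t : fl x C), w H ⬝ᵥ φ t = x (idx H) ⬝ᵥ (t : Fin n → ℝ) :=
    fun H t => res_dot (fl x C) (x (idx H)) t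
  have hmemH : ∀ H (z : Fin n → ℝ), z ∈ Hs H ↔ z ∈ fl x C ∧ x (idx H) ⬝ᵥ z = 0 :=
    fun H z => mem_fl_insert
  let om : κ → ℝ := fun k => zt x y C ξ k / Z
  have hom : ∀ k, 0 ≤ om k := fun k => div_nonneg (zt_nonneg x y C hξ0.le k) hZ.le
  have hom0 : ∀ k, y k ∉ fl x C → om k = 0 := by
    intro k hk
    simp only [om]
    rw [zt_of_not_mem x y C ξ k hk, zero_div]
  have hsum : ∑ k, om k = 1 := by
    simp only [om]
    rw [← Finset.sum_div]
    exact div_self hZ.ne'
  let Fv : κ → Finset ρ := fun k => univ.filter fun H => y k ∈ Hs H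
  let Fp : κ → Finset ρ := fun k => univ.filter fun H => ¬ (Tsub x (y k) ⊓ fl x C ≤ Hs H)
  have hFp : ∀ k H, H ∈ Fp k ↔ ¬ (Tsub x (y k) ⊓ fl x C ≤ Hs H) := by
    intro k H; simp [Fp]
  have hFv : ∀ k H, H ∈ Fv k ↔ y k ∈ Hs H := by
    intro k H; simp [Fv]
  have hFpFv : ∀ k H, y k ∈ fl x C → H ∈ Fp k → y k ∈ Hs H := by
    intro k H hk hH
    by_contra hcon
    rw [hFp] at hH
    apply hH
    rintro z ⟨hz1, hz2⟩
    rw [hmemH]
    refine ⟨hz2, ?_⟩
    apply hz1
    intro h0
    exact hcon ((hmemH H (y k)).2 ⟨hk, h0⟩)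
  have hT : ∀ k H, H ∉ Fp k → ∀ z ∈ crd (fl x C) (Tsub x (y k)), w H ⬝ᵥ z = 0 := by
    intro k H hH z hz
    rw [hFp, not_not] at hH
    obtain ⟨t, ht, rfl⟩ := mem_crd.1 hz
    have h1 := hH ⟨ht, t.2⟩
    rw [hw H t]
    exact ((hmemH H _).1 h1).2
  -- flats in coordinates
  let CX : Finset ρ → Finset ι := fun X => C ∪ X.image idx
  have hCX : ∀ X (z : Fin n → ℝ), z ∈ fl x (CX X) ↔ z ∈ fl x C ∧ ∀ H ∈ X, z ∈ Hs H := by
    intro X z
    constructor
    · intro h
      have h1 : z ∈ fl x C := fl_anti x Finset.subset_union_left h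
      refine ⟨h1, fun H hH => (hmemH H z).2 ⟨h1, ?_⟩⟩
      exact h (idx H) (Finset.mem_union_right _ (Finset.mem_image_of_mem idx hH))
    · rintro ⟨h1, h2⟩ i hi
      rcases Finset.mem_union.1 hi with hi | hi
      · exact h1 i hi
      · obtain ⟨H, hH, rfl⟩ := Finset.mem_image.1 hi
        exact ((hmemH H z).1 (h2 H hH)).2
  have hflw : ∀ X, fl w X = crd (fl x C) (fl x (CX X)) := by
    intro X
    ext z
    rw [mem_crd]
    constructor
    · intro h
      refine ⟨φ.symm z, ?_, φ.apply_symm_apply z⟩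
      rw [hCX]
      refine ⟨(φ.symm z).2, fun H hH => (hmemH H _).2 ⟨(φ.symm z).2, ?_⟩⟩
      rw [← hw, φ.apply_symm_apply]
      exact h H hH
    · rintro ⟨t, ht, rfl⟩ H hH
      rw [hCX] at ht
      show w H ⬝ᵥ φ t = 0
      rw [hw]
      exact ((hmemH H _).1 (ht.2 H hH)).2
  have hflrk : ∀ X, Module.finrank ℝ (fl w X) = Module.finrank ℝ (fl x (CX X)) := by
    intro X
    rw [hflw, finrank_crd, inf_eq_left.2 (fl_anti x Finset.subset_union_left)]
  have hrk_le : ∀ X, Module.finrank ℝ (fl w X) ≤ e := by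
    intro X
    have := finrank_fl w X
    omega
  have hsub : ∀ k, y k ∈ fl x C → ∀ X : Finset ρ, Module.finrank ℝ (fl w X) ≤
      (if X ⊆ Fv k then 1 else 0) + (Fv k \ X).card := by
    intro k hk X
    refine (finrank_fl_union w X (Fv k)).trans (Nat.add_le_add_right ?_ _)
    have h1 : ∀ t : Fin n → ℝ, t ∈ fl x C → (∀ H ∈ X ∪ Fv k, t ∈ Hs H) → ∃ c : ℝ, t = c • y k := by
      intro t ht hH
      apply hF1
      intro i hi
      by_cases hi2 : fl x (insert i C) = fl x C
      · rw [← hi2] at ht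
        exact (mem_fl_insert.1 ht).2
      · obtain ⟨H, hH2⟩ := r4 i ⟨k, mem_fl_insert.2 ⟨hk, hi⟩⟩ hi2
        have h3 : y k ∈ Hs H := by
          show y k ∈ fl x (insert (idx H) C)
          rw [hH2]
          exact mem_fl_insert.2 ⟨hk, hi⟩
        have h4 : t ∈ Hs H := hH H (Finset.mem_union_right _ ((hFv k H).2 h3))
        have h5 : t ∈ fl x (insert i C) := by
          rw [← hH2]
          exact h4
        exact (mem_fl_insert.1 h5).2
    have h2 : ∀ z ∈ fl w (X ∪ Fv k), ∃ t : fl x C, z = φ t ∧ ∀ H ∈ X ∪ Fv k, (t : Fin n → ℝ) ∈ Hs H := by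
      intro z hz
      refine ⟨φ.symm z, (φ.apply_symm_apply z).symm, fun H hH => (hmemH H _).2
        ⟨(φ.symm z).2, ?_⟩⟩
      rw [← hw, φ.apply_symm_apply]
      exact hz H hH
    split_ifs with hXF
    · have h3 : fl w (X ∪ Fv k) ≤ Submodule.span ℝ {φ ⟨y k, hk⟩} := by
        intro z hz
        obtain ⟨t, rfl, ht⟩ := h2 z hz
        obtain ⟨c, hc⟩ := h1 t t.2 ht
        rw [Submodule.mem_span_singleton]
        refine ⟨c, ?_⟩
        rw [← map_smul]
        congr 1
        exact Subtype.ext hc.symm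
      exact (Submodule.finrank_mono h3).trans
        ((finrank_span_le_card ({φ ⟨y k, hk⟩} : Set (Fin e → ℝ))).trans (by simp))
    · obtain ⟨H, hHX, hHF⟩ := Finset.not_subset.1 hXF
      have h3 : fl w (X ∪ Fv k) = ⊥ := by
        rw [eq_bot_iff]
        intro z hz
        obtain ⟨t, rfl, ht⟩ := h2 z hz
        obtain ⟨c, hc⟩ := h1 t t.2 ht
        have h4 := ht H (Finset.mem_union_left _ hHX)
        have h5 : c = 0 := by
          by_contra hc0
          apply hHF
          rw [hFv]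
          have h6 : y k = c⁻¹ • (t : Fin n → ℝ) := by
            rw [hc, smul_smul, inv_mul_cancel₀ hc0, one_smul]
          rw [h6]
          exact Submodule.smul_mem _ _ h4
        rw [h5, zero_smul] at hc
        have h7 : t = 0 := Subtype.ext hc
        rw [h7, map_zero]
        exact Submodule.zero_mem _
      rw [h3, finrank_bot]
  -- probability of a flat
  have hPX : ∀ X : Finset ρ, ∑ k, om k * (if X ⊆ Fv k then 1 else 0) ≤
      (1 / 2 : ℝ) ^ (e - Module.finrank ℝ (fl w X)) := by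
    intro X
    rcases (hrk_le X).lt_or_eq with hlt | heq
    · have h1 := hIH (CX X) (by rw [← hflrk]; exact hlt)
      rw [← hflrk] at h1
      have h2 : ∑ k, om k * (if X ⊆ Fv k then 1 else 0) ≤ ZZ x y (CX X) ξ / Z := by
        rw [ZZ, Finset.sum_div]
        refine Finset.sum_le_sum fun k _ => ?_
        split_ifs with hXF
        · by_cases hk : y k ∈ fl x C
          · rw [mul_one]
            have h3 : y k ∈ fl x (CX X) := (hCX X _).2 ⟨hk, fun H hH => (hFv k H).1 (hXF hH)⟩
            exact div_le_div_of_nonneg_right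
              (zt_mono x y Finset.subset_union_left hξ0 hξ1 k h3) hZ.le
          · rw [hom0 k hk, zero_mul]
            exact div_nonneg (zt_nonneg x y _ hξ0.le k) hZ.le
        · rw [mul_zero]
          exact div_nonneg (zt_nonneg x y _ hξ0.le k) hZ.le
      refine h2.trans ?_
      rw [div_le_iff₀ hZ, one_div, inv_pow, ← div_eq_inv_mul, le_div_iff₀ (by positivity)]
      refine le_trans ?_ h1
      have h3 : 0 ≤ ZZ x y (CX X) ξ := Finset.sum_nonneg fun k _ => zt_nonneg x y _ hξ0.le k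
      exact mul_le_mul_of_nonneg_left (pow_le_pow_left₀ (by norm_num) hg _) h3
    · rw [heq, Nat.sub_self, pow_zero]
      refine le_trans (Finset.sum_le_sum fun k _ => ?_) hsum.le
      split_ifs
      · rw [mul_one]
      · rw [mul_zero]
        exact hom k
  let P : ρ → ℝ := fun H => ∑ k ∈ univ.filter (fun k => y k ∈ Hs H), om k
  have hPpos : ∀ H, 0 < P H := by
    intro H
    obtain ⟨k, hk⟩ := r3 H
    have h1 : y k ∈ fl x C := hHW H hk
    have h2 : 0 < om k := by
      simp only [om]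
      rw [zt_of_mem x y C ξ k h1]
      exact div_pos (pow_pos hξ0 _) hZ
    refine h2.trans_le ?_
    exact Finset.single_le_sum (f := om) (fun k _ => hom k)
      (Finset.mem_filter.2 ⟨Finset.mem_univ k, hk⟩)
  have hflat : ∀ X : Finset ρ, (Module.finrank ℝ (fl w X) : ℝ) -
      (1 / 2 : ℝ) ^ (e - Module.finrank ℝ (fl w X)) ≤ ∑ H ∈ univ \ X, P H := by
    intro X
    have h1 : ∑ H ∈ univ \ X, P H = ∑ k, om k * ((Fv k \ X).card : ℝ) := by
      have h2 : ∀ H, P H = ∑ k, if y k ∈ Hs H then om k else 0 := by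
        intro H
        simp only [P]
        rw [Finset.sum_filter]
      rw [Finset.sum_congr rfl fun H _ => h2 H, Finset.sum_comm]
      refine Finset.sum_congr rfl fun k _ => ?_
      rw [← Finset.sum_filter, Finset.sum_const, nsmul_eq_mul, mul_comm]
      congr 2
      congr 1
      ext H
      simp only [Finset.mem_filter, Finset.mem_sdiff, Finset.mem_univ, true_and, hFv]
      tauto
    rw [h1]
    have h2 : ∑ k, om k * ((Module.finrank ℝ (fl w X) : ℝ) - (if X ⊆ Fv k then 1 else 0)) ≤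
        ∑ k, om k * ((Fv k \ X).card : ℝ) := by
      refine Finset.sum_le_sum fun k _ => ?_
      by_cases hk : y k ∈ fl x C
      · refine mul_le_mul_of_nonneg_left ?_ (hom k)
        have h3 := hsub k hk X
        have h4 : (Module.finrank ℝ (fl w X) : ℝ) ≤
            (((if X ⊆ Fv k then 1 else 0) + (Fv k \ X).card : ℕ) : ℝ) := Nat.cast_le.2 h3
        push_cast at h4
        linarith
      · rw [hom0 k hk, zero_mul, zero_mul]
    refine le_trans ?_ h2
    simp only [mul_sub]
    rw [Finset.sum_sub_distrib, ← Finset.sum_mul, hsum, one_mul]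
    have := hPX X
    linarith
  have hspan : Submodule.span ℝ (Set.range w) = ⊤ := by
    have h1 := hflat univ
    rw [Finset.sdiff_self, Finset.sum_empty] at h1
    have h2 : Module.finrank ℝ (fl w univ) = 0 := by
      by_contra hj
      have h3 : 1 ≤ Module.finrank ℝ (fl w univ) := Nat.one_le_iff_ne_zero.2 hj
      have h4 : (1 : ℝ) ≤ Module.finrank ℝ (fl w univ) := by exact_mod_cast h3
      rcases Nat.eq_zero_or_pos (e - Module.finrank ℝ (fl w univ)) with h5 | h5
      · rw [h5, pow_zero] at h1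
        have h6 : 3 ≤ Module.finrank ℝ (fl w univ) := by omega
        have h7 : (3 : ℝ) ≤ Module.finrank ℝ (fl w univ) := by exact_mod_cast h6
        linarith
      · have h6 : (1 / 2 : ℝ) ^ (e - Module.finrank ℝ (fl w univ)) < 1 :=
          pow_lt_one₀ (by norm_num) (by norm_num) (by omega)
        linarith
    have h3 := finrank_fl w univ
    rw [h2, add_zero, Finset.coe_univ, Set.image_univ] at h3
    apply Submodule.eq_top_of_finrank_eq
    rw [h3]
    simp
  have heR : (3 : ℝ) ≤ e := by exact_mod_cast he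
  have hX : ∀ X : Finset ρ, X ≠ univ →
      (e : ℝ) - Module.finrank ℝ (Submodule.span ℝ (w '' X)) <
        ∑ H ∈ univ \ X, (1 + 1 / ((e : ℝ) - 2)) * P H := by
    intro X hXu
    have h1 := finrank_fl w X
    have h2 : (e : ℝ) - Module.finrank ℝ (Submodule.span ℝ (w '' X)) =
        Module.finrank ℝ (fl w X) := by
      have h3 : ((Module.finrank ℝ (Submodule.span ℝ (w '' X)) + Module.finrank ℝ (fl w X) : ℕ) : ℝ)
        = e := by rw [h1]
      push_cast at h3
      linarith
    rw [h2, ← Finset.mul_sum]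
    have hε : 0 < 1 + 1 / ((e : ℝ) - 2) := by
      have : 0 < (e : ℝ) - 2 := by linarith
      positivity
    rcases Nat.eq_zero_or_pos (Module.finrank ℝ (fl w X)) with h0 | h0
    · rw [h0, Nat.cast_zero]
      refine mul_pos hε (Finset.sum_pos (fun H _ => hPpos H) ?_)
      rw [Finset.sdiff_nonempty]
      intro h4
      exact hXu (Finset.univ_subset_iff.1 h4)
    · have h3 := hflat X
      refine lt_of_lt_of_le ?_ (mul_le_mul_of_nonneg_left h3 hε.le)
      set j : ℕ := Module.finrank ℝ (fl w X) with hj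
      have hje : j ≤ e := hrk_le X
      have h4 := two_pow_mul_ge (e - j) j h0
      have h5 : (e - j) + j = e := Nat.sub_add_cancel hje
      rw [h5] at h4
      have h6 : (e : ℝ) ≤ 2 ^ (e - j) * j := by exact_mod_cast h4
      have h7 : (e : ℝ) * (1 / 2) ^ (e - j) ≤ j := by
        have h8 : (1 / 2 : ℝ) ^ (e - j) * 2 ^ (e - j) = 1 := by
          rw [← mul_pow]; norm_num
        have h9 : (0 : ℝ) < (1 / 2) ^ (e - j) := by positivity
        have h10 := mul_le_mul_of_nonneg_left h6 h9.le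
        have h11 : (1 / 2 : ℝ) ^ (e - j) * (2 ^ (e - j) * j) = j := by
          rw [← mul_assoc, h8, one_mul]
        rw [h11] at h10
        linarith
      have h9 : (0 : ℝ) < (1 / 2) ^ (e - j) := by positivity
      have h12 : 0 < (e : ℝ) - 2 := by linarith
      have h13 : (1 + 1 / ((e : ℝ) - 2)) * ((j : ℝ) - (1 / 2) ^ (e - j)) =
          (((e : ℝ) - 1) * (j - (1 / 2) ^ (e - j))) / (e - 2) := by
        field_simp
        ring
      rw [h13, lt_div_iff₀ h12]
      nlinarith
  have hN2 : ∀ H H', H ≠ H' →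
      ∑ k ∈ univ.filter (fun k => H ∈ Fp k ∧ H' ∈ Fp k), om k ≤ ξ / g ^ 2 := by
    intro H H' hne
    let C2 : Finset ι := insert (idx H) (insert (idx H') C)
    have hC2 : ∀ z, z ∈ fl x C2 ↔ z ∈ Hs H' ∧ x (idx H) ⬝ᵥ z = 0 := fun z => mem_fl_insert
    have hC2H : fl x C2 ≤ Hs H := by
      intro z hz
      have h1 := (hC2 z).1 hz
      exact (hmemH H z).2 ⟨hHW H' h1.1, h1.2⟩
    have hCC2 : C ⊆ C2 := (Finset.subset_insert _ _).trans (Finset.subset_insert _ _)
    have hlt : fl x C2 < Hs H' := by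
      refine lt_of_le_of_ne (fl_anti x (Finset.subset_insert _ _)) ?_
      intro heq
      rw [heq] at hC2H
      have h1 : Module.finrank ℝ (fl x (insert (idx H) C)) + 1 = e := hHrk H
      have h2 : Module.finrank ℝ (fl x (insert (idx H') C)) + 1 = e := hHrk H'
      exact r2 H' H hne.symm (Submodule.eq_of_le_of_finrank_eq hC2H (by omega))
    have hrk2 : Module.finrank ℝ (fl x C2) + 2 = e := by
      have h1 := Submodule.finrank_lt_finrank_of_lt hlt
      have h2 := finrank_fl_insert x (insert (idx H') C) (idx H)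
      have h3 := hHrk H'
      have h4 : Module.finrank ℝ (Hs H') = Module.finrank ℝ (fl x (insert (idx H') C)) := rfl
      have h5 : Module.finrank ℝ (fl x C2) =
        Module.finrank ℝ (fl x (insert (idx H) (insert (idx H') C))) := rfl
      omega
    have h1 := hIH C2 (by omega)
    have h2 : e - Module.finrank ℝ (fl x C2) = 2 := by omega
    rw [h2] at h1
    have h3 : ∑ k ∈ univ.filter (fun k => H ∈ Fp k ∧ H' ∈ Fp k), om k ≤
        ∑ k, ξ / Z * zt x y C2 ξ k := by
      rw [Finset.sum_filter]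
      refine Finset.sum_le_sum fun k _ => ?_
      have hnn : 0 ≤ ξ / Z * zt x y C2 ξ k :=
        mul_nonneg (div_nonneg hξ0.le hZ.le) (zt_nonneg x y _ hξ0.le k)
      split_ifs with hc
      · by_cases hk : y k ∈ fl x C
        · have h4 := hFpFv k H hk hc.1
          have h5 := hFpFv k H' hk hc.2
          have h6 : y k ∈ fl x C2 := (hC2 _).2 ⟨h5, ((hmemH H _).1 h4).2⟩
          have h7 : tt x y C2 k + 1 ≤ tt x y C k := by
            refine Submodule.finrank_lt_finrank_of_lt ?_
            refine lt_of_le_of_ne (inf_le_inf_left _ (fl_anti x hCC2)) ?_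
            intro heq
            apply (hFp k H).1 hc.1
            rw [← heq]
            exact inf_le_right.trans hC2H
          have h8 := zt_drop x y hCC2 hξ0 hξ1 k h6 h7
          simp only [om]
          rw [div_le_iff₀ hZ]
          have h9 : ξ / Z * zt x y C2 ξ k * Z = ξ * zt x y C2 ξ k := by
            field_simp
          rw [h9]
          exact h8
        · rw [hom0 k hk]
          exact hnn
      · exact hnn
    refine h3.trans ?_
    rw [← Finset.mul_sum]
    show ξ / Z * ZZ x y C2 ξ ≤ ξ / g ^ 2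
    rw [div_mul_eq_mul_div, div_le_div_iff₀ hZ (by positivity)]
    have h4 := mul_le_mul_of_nonneg_left h1 hξ0.le
    linarith
  have hε : 0 < 1 + 1 / ((e : ℝ) - 2) := by
    have : 0 < (e : ℝ) - 2 := by linarith
    positivity
  have hPbd : ∀ H, P H + (1 / ξ - 1) * (∑ k ∈ univ.filter (fun k => H ∈ Fp k), om k) ≤ 1 / g := by
    intro H
    set Pp : ℝ := ∑ k ∈ univ.filter (fun k => H ∈ Fp k), om k with hPp
    have h1 := hIH (insert (idx H) C) (by have := hHrk H; show Module.finrank ℝ (Hs H) < e; omega)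
    have h2 : e - Module.finrank ℝ (fl x (insert (idx H) C)) = 1 := by
      have := hHrk H
      have h3 : Module.finrank ℝ (Hs H) = Module.finrank ℝ (fl x (insert (idx H) C)) := rfl
      omega
    rw [h2, pow_one] at h1
    have h3 : P H + (1 / ξ - 1) * Pp ≤ 1 / g := by
      have h4 : P H + (1 / ξ - 1) * Pp ≤ ZZ x y (insert (idx H) C) ξ / Z := by
        simp only [P]
        rw [hPp, Finset.mul_sum, Finset.sum_filter, Finset.sum_filter, ← Finset.sum_add_distrib, ZZ,
          Finset.sum_div]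
        refine Finset.sum_le_sum fun k _ => ?_
        by_cases hk : y k ∈ fl x C
        · by_cases hkH : y k ∈ Hs H
          · rw [if_pos hkH]
            by_cases hkp : H ∈ Fp k
            · rw [if_pos hkp]
              have h7 : tt x y (insert (idx H) C) k + 1 ≤ tt x y C k := by
                refine Submodule.finrank_lt_finrank_of_lt ?_
                refine lt_of_le_of_ne (inf_le_inf_left _ (hHW H)) ?_
                intro heq
                apply (hFp k H).1 hkp
                rw [← heq]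
                exact inf_le_right
              have h8 := zt_drop x y (Finset.subset_insert (idx H) C) hξ0 hξ1 k hkH h7
              have h9 : om k + (1 / ξ - 1) * om k = zt x y C ξ k / (ξ * Z) := by
                simp only [om]
                field_simp
                ring
              rw [h9, div_le_div_iff₀ (mul_pos hξ0 hZ) hZ]
              have h10 := mul_le_mul_of_nonneg_right h8 hZ.le
              linarith
            · rw [if_neg hkp, add_zero]
              exact div_le_div_of_nonneg_right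
                (zt_mono x y (Finset.subset_insert (idx H) C) hξ0 hξ1 k hkH) hZ.le
          · rw [if_neg hkH, if_neg fun h => hkH (hFpFv k H hk h), zero_add]
            exact div_nonneg (zt_nonneg x y _ hξ0.le k) hZ.le
        · rw [hom0 k hk]
          simp only [ite_self, mul_zero, add_zero]
          exact div_nonneg (zt_nonneg x y _ hξ0.le k) hZ.le
      refine h4.trans ?_
      rw [div_le_div_iff₀ hZ hg0]
      linarith
    exact h3
  have hp1 : ∀ H, (1 + 1 / ((e : ℝ) - 2)) * P H < 1 := by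
    intro H
    refine lt_of_le_of_lt (mul_le_mul_of_nonneg_left ?_ hε.le) hε1
    have h1 := hPbd H
    have h2 : 0 ≤ (1 / ξ - 1) * (∑ k ∈ univ.filter (fun k => H ∈ Fp k), om k) := by
      refine mul_nonneg ?_ (Finset.sum_nonneg fun k _ => hom k)
      rw [sub_nonneg, le_div_iff₀ hξ0]
      linarith
    linarith
  have hκ : ∀ H, ∑ k ∈ univ.filter (fun k => H ∈ Fp k), om k ≤
      (1 + κ0) * (∑ k ∈ univ.filter (fun k => H ∈ Fp k), om k -
        (1 + 1 / ((e : ℝ) - 2)) * P H *
          (∑ k ∈ univ.filter (fun k => H ∈ Fp k), om k - ξ / g ^ 2)) := by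
    intro H
    have h3 := hPbd H
    set Pp : ℝ := ∑ k ∈ univ.filter (fun k => H ∈ Fp k), om k with hPp
    have hPp0 : 0 ≤ Pp := Finset.sum_nonneg fun k _ => hom k
    have hP0 : Pp ≤ P H := by
      rw [hPp]
      simp only [P]
      rw [Finset.sum_filter, Finset.sum_filter]
      refine Finset.sum_le_sum fun k _ => ?_
      by_cases hk : y k ∈ fl x C
      · by_cases hkp : H ∈ Fp k
        · rw [if_pos hkp, if_pos (hFpFv k H hk hkp)]
        · rw [if_neg hkp]
          split_ifs
          · exact hom k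
          · exact le_rfl
      · rw [hom0 k hk]
        simp
    rcases le_total (Pp - ξ / g ^ 2) 0 with h4 | h4
    · have h5 : (1 + 1 / ((e : ℝ) - 2)) * P H * (Pp - ξ / g ^ 2) ≤ 0 :=
        mul_nonpos_of_nonneg_of_nonpos (mul_nonneg hε.le (hPpos H).le) h4
      have h6 : Pp ≤ Pp - (1 + 1 / ((e : ℝ) - 2)) * P H * (Pp - ξ / g ^ 2) := by linarith
      have h7 : 0 ≤ Pp - (1 + 1 / ((e : ℝ) - 2)) * P H * (Pp - ξ / g ^ 2) := hPp0.trans h6
      nlinarith
    · have ha0 : 1 / g ≤ g * Pp / ξ := by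
        rw [div_le_div_iff₀ hg0 hξ0]
        have h5 : ξ / g ^ 2 ≤ Pp := by linarith
        rw [div_le_iff₀ (by positivity)] at h5
        nlinarith
      have ha1 : g * Pp / ξ ≤ 1 := by
        rw [div_le_one hξ0]
        have h5 : Pp + (1 / ξ - 1) * Pp ≤ 1 / g := by linarith
        have h6 : Pp + (1 / ξ - 1) * Pp = Pp / ξ := by
          field_simp
          ring
        rw [h6, div_le_div_iff₀ hξ0 hg0] at h5
        linarith
      have h5 := hK (g * Pp / ξ) ha0 ha1
      have h6 : P H ≤ 1 / g * (1 - g * Pp / ξ * (1 - ξ)) := by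
        have h7 : 1 / g * (1 - g * Pp / ξ * (1 - ξ)) = 1 / g - (1 / ξ - 1) * Pp := by
          field_simp
        rw [h7]
        linarith
      have h8 : (1 + 1 / ((e : ℝ) - 2)) * P H * (Pp - ξ / g ^ 2) ≤
          (1 + 1 / ((e : ℝ) - 2)) * (1 / g * (1 - g * Pp / ξ * (1 - ξ))) * (Pp - ξ / g ^ 2) :=
        mul_le_mul_of_nonneg_right (mul_le_mul_of_nonneg_left h6 hε.le) h4
      have h9 : Pp ≤ (1 + κ0) * (Pp - (1 + 1 / ((e : ℝ) - 2)) *
          (1 / g * (1 - g * Pp / ξ * (1 - ξ))) * (Pp - ξ / g ^ 2)) := by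
        have h10 := mul_le_mul_of_nonneg_left h5 (div_pos hξ0 hg0).le
        have h11 : ξ / g * (g * Pp / ξ) = Pp := by field_simp
        have h12 : ξ / g * ((1 + κ0) * (g * Pp / ξ - (1 + 1 / ((e : ℝ) - 2)) *
            (1 / g * (1 - g * Pp / ξ * (1 - ξ))) * (g * Pp / ξ - 1 / g))) =
            (1 + κ0) * (ξ / g * (g * Pp / ξ) - (1 + 1 / ((e : ℝ) - 2)) *
            (1 / g * (1 - g * Pp / ξ * (1 - ξ))) * (ξ / g * (g * Pp / ξ) - ξ / g * (1 / g))) := by
          ring
        have h13 : ξ / g * (1 / g) = ξ / g ^ 2 := by field_simp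
        rw [h12, h11, h13] at h10
        exact h10
      refine h9.trans (mul_le_mul_of_nonneg_left ?_ (by linarith))
      linarith
  have hN0 : 0 < ξ / g ^ 2 := by positivity
  have hfin := avg_finrank_sharp w hspan (fun H => (1 + 1 / ((e : ℝ) - 2)) * P H) hX hp1 om hom
    (fun k => crd (fl x C) (Tsub x (y k))) Fp hT (ξ / g ^ 2) κ0 hN0 hκ0 hN2 hκ
  have hfin2 : ∑ k, om k * (tt x y C k : ℝ) ≤ (e : ℝ) * (ξ / g ^ 2 * (1 + κ0)) := by
    refine le_trans (le_of_eq ?_) hfin
    refine Finset.sum_congr rfl fun k _ => ?_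
    rw [tt, ← finrank_crd]
  have h1 : ∑ k, zt x y C ξ k * (tt x y C k : ℝ) = Z * ∑ k, om k * (tt x y C k : ℝ) := by
    rw [Finset.mul_sum]
    refine Finset.sum_congr rfl fun k _ => ?_
    simp only [om]
    field_simp
  rw [h1]
  exact mul_le_mul_of_nonneg_left hfin2 hZ.le

end key

end Pool.Agent.Helper93.Psd
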