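import Mathlib
import Pool.Agent.Helper93.PsdFlatsB
import Pool.Agent.Helper73.PsdSub

/-!
# The induction over flats
-/

namespace Pool.Agent.Helper93.Psd

set_option linter.unusedSectionVars false

open Finset Matrix
open Pool.Agent.Helper73.Psd (Tsub mem_Tsub)

theorem deriv_nonneg_of_left_max {F : ℝ → ℝ} {F' ξ : ℝ} (hξ : 0 < ξ) (hd : HasDerivAt F F' ξ)
    (hmax : ∀ s, 0 ≤ s → s < ξ → F s ≤ F ξ) : 0 ≤ F' := by
  have h1 : Filter.Tendsto (slope F ξ) (nhdsWithin ξ (Set.Iio ξ)) (nhds F') :=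
    (hasDerivWithinAt_iff_tendsto_slope' (by simp)).1 hd.hasDerivWithinAt
  refine ge_of_tendsto h1 ?_
  have h2 : Set.Ioo 0 ξ ∈ nhdsWithin ξ (Set.Iio ξ) := Ioo_mem_nhdsLT hξ
  filter_upwards [h2] with s hs
  rw [slope_def_field]
  exact div_nonneg_of_nonpos (by linarith [hmax s hs.1.le hs.2]) (by linarith [hs.2])

section flats

variable {ι κ : Type*} [Fintype ι] [DecidableEq ι] [Fintype κ] {n : ℕ}

theorem hasDerivAt_zt (x : ι → Fin n → ℝ) (y : κ → Fin n → ℝ) (C : Finset ι) (k : κ) (s : ℝ) :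
    ∃ z' : ℝ, HasDerivAt (fun s => zt x y C s k) z' s ∧
      s * z' = zt x y C s k * (tt x y C k : ℝ) := by
  by_cases hk : y k ∈ fl x C
  · refine ⟨(tt x y C k : ℝ) * s ^ (tt x y C k - 1), ?_, ?_⟩
    · have h1 : (fun s => zt x y C s k) = fun s => s ^ tt x y C k := by
        funext s
        exact zt_of_mem x y C s k hk
      rw [h1]
      exact hasDerivAt_pow _ _
    · rw [zt_of_mem x y C s k hk]
      rcases Nat.eq_zero_or_pos (tt x y C k) with h0 | h0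
      · rw [h0]; simp
      · obtain ⟨m, hm⟩ := Nat.exists_eq_succ_of_ne_zero h0.ne'
        rw [hm, Nat.succ_sub_one, pow_succ]
        ring
  · refine ⟨0, ?_, ?_⟩
    · have h1 : (fun s => zt x y C s k) = fun _ => (0 : ℝ) := by
        funext s
        exact zt_of_not_mem x y C s k hk
      rw [h1]
      exact hasDerivAt_const _ _
    · rw [zt_of_not_mem x y C s k hk]
      ring

theorem hasDerivAt_ZZ (x : ι → Fin n → ℝ) (y : κ → Fin n → ℝ) (C : Finset ι) (s : ℝ) :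
    ∃ Z' : ℝ, HasDerivAt (ZZ x y C) Z' s ∧
      s * Z' = ∑ k, zt x y C s k * (tt x y C k : ℝ) := by
  choose z' hz' using fun k => hasDerivAt_zt x y C k s
  refine ⟨∑ k, z' k, ?_, ?_⟩
  · have h1 : ZZ x y C = fun s => ∑ k, zt x y C s k := rfl
    rw [h1]
    exact HasDerivAt.fun_sum fun k _ => (hz' k).1
  · rw [Finset.mul_sum]
    exact Finset.sum_congr rfl fun k _ => (hz' k).2

theorem continuous_ZZ (x : ι → Fin n → ℝ) (y : κ → Fin n → ℝ) (C : Finset ι) :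
    Continuous (ZZ x y C) := by
  rw [continuous_iff_continuousAt]
  intro s
  obtain ⟨Z', hZ', -⟩ := hasDerivAt_ZZ x y C s
  exact hZ'.continuousAt

/-- **The bound for all flats.** -/
theorem flats_bound (x : ι → Fin n → ℝ) (y : κ → Fin n → ℝ)
    (hF1 : ∀ k z, (∀ i, x i ⬝ᵥ y k = 0 → x i ⬝ᵥ z = 0) → ∃ c : ℝ, z = c • y k)
    (hA : ∀ (W : Submodule ℝ (Fin n → ℝ)) (S : Finset κ), (∀ k ∈ S, y k ∈ W) → ∀ a : ℝ, 0 < a →
      2 * ∑ k ∈ S, a ^ Module.finrank ℝ ↥(Tsub x (y k) ⊓ W) + a ^ Module.finrank ℝ W ≤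
        (2 + a) ^ Module.finrank ℝ W)
    (G G' κ0 : ℝ → ℝ) (e0 : ℕ) (he0 : 3 ≤ e0)
    (hGd : ∀ s, HasDerivAt G (G' s) s) (hG2 : ∀ s, 0 ≤ s → s ≤ 1 → 2 ≤ G s)
    (hκ0 : ∀ s, 0 < s → s ≤ 1 → 0 ≤ κ0 s)
    (hε1 : ∀ s, 0 < s → s ≤ 1 → (1 + 1 / ((e0 : ℝ) - 2)) * (1 / G s) < 1)
    (hK : ∀ s, 0 < s → s ≤ 1 → ∀ a, 1 / G s ≤ a → a ≤ 1 → a ≤ (1 + κ0 s) * (a -
      (1 + 1 / ((e0 : ℝ) - 2)) * (1 / G s * (1 - a * (1 - s))) * (a - 1 / G s)))
    (hODE : ∀ s, 0 < s → s ≤ 1 → 1 + κ0 s < G s * G' s) :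
    ∀ (e : ℕ) (C : Finset ι), Module.finrank ℝ (fl x C) = e → ∀ s, 0 ≤ s → s ≤ 1 →
      ZZ x y C s ≤ 3 ^ e0 * G s ^ e := by
  classical
  -- step A
  have hA1 : ∀ C s, 0 < s → 2 * ZZ x y C s ≤ (2 + s) ^ Module.finrank ℝ (fl x C) := by
    intro C s hs
    have h1 := hA (fl x C) (univ.filter fun k => y k ∈ fl x C)
      (fun k hk => (Finset.mem_filter.1 hk).2) s hs
    have h2 : ZZ x y C s = ∑ k ∈ univ.filter (fun k => y k ∈ fl x C),
        s ^ Module.finrank ℝ ↥(Tsub x (y k) ⊓ fl x C) := by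
      rw [ZZ, Finset.sum_filter]
      refine Finset.sum_congr rfl fun k _ => ?_
      by_cases hk : y k ∈ fl x C
      · rw [zt_of_mem x y C s k hk, if_pos hk]
        rfl
      · rw [zt_of_not_mem x y C s k hk, if_neg hk]
    rw [← h2] at h1
    have h3 : 0 < s ^ Module.finrank ℝ (fl x C) := pow_pos hs _
    linarith
  have hA0 : ∀ C s, 0 ≤ s → 2 * ZZ x y C s ≤ (2 + s) ^ Module.finrank ℝ (fl x C) := by
    intro C s hs
    rcases hs.lt_or_eq with h0 | h0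
    · exact hA1 C s h0
    · subst h0
      have hc : Continuous fun s => (2 + s) ^ Module.finrank ℝ (fl x C) - 2 * ZZ x y C s :=
        ((continuous_const.add continuous_id).pow _).sub (continuous_const.mul (continuous_ZZ x y C))
      have h1 : Filter.Tendsto (fun s => (2 + s) ^ Module.finrank ℝ (fl x C) - 2 * ZZ x y C s)
          (nhdsWithin 0 (Set.Ioi 0)) (nhds ((2 + 0) ^ Module.finrank ℝ (fl x C) -
            2 * ZZ x y C 0)) := (hc.tendsto 0).mono_left nhdsWithin_le_nhds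
      have h2 : 0 ≤ (2 + 0) ^ Module.finrank ℝ (fl x C) - 2 * ZZ x y C 0 := by
        refine ge_of_tendsto h1 ?_
        filter_upwards [self_mem_nhdsWithin] with s hs
        exact sub_nonneg.2 (hA1 C s hs)
      linarith
  intro e
  induction e using Nat.strong_induction_on with
  | _ e ih =>
  intro C he s0 hs0 hs01
  have hGpos : ∀ s, 0 ≤ s → s ≤ 1 → 0 < G s := fun s h1 h2 => by
    have := hG2 s h1 h2
    linarith
  rcases lt_or_ge e e0 with hlt | hge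
  · -- small flats
    have h1 := hA0 C s0 hs0
    rw [he] at h1
    have h2 : (2 + s0) ^ e ≤ 3 ^ e := pow_le_pow_left₀ (by linarith) (by linarith) _
    have h3 : (3 : ℝ) ^ e ≤ 3 ^ e0 := pow_le_pow_right₀ (by norm_num) hlt.le
    have h4 : (1 : ℝ) ≤ G s0 ^ e := one_le_pow₀ (by linarith [hG2 s0 hs0 hs01])
    have h5 : (3 : ℝ) ^ e0 * 1 ≤ 3 ^ e0 * G s0 ^ e := mul_le_mul_of_nonneg_left h4 (by positivity)
    have h6 : (0 : ℝ) ≤ 3 ^ e0 := by positivity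
    linarith
  -- large flats
  by_contra hcon
  push Not at hcon
  let F : ℝ → ℝ := fun s => ZZ x y C s / G s ^ e
  have hGc : Continuous G := by
    rw [continuous_iff_continuousAt]
    exact fun s => (hGd s).continuousAt
  have hFc : ContinuousOn F (Set.Icc 0 1) := by
    refine (continuous_ZZ x y C).continuousOn.div (hGc.pow e).continuousOn ?_
    intro s hs
    exact pow_ne_zero _ (hGpos s hs.1 hs.2).ne'
  obtain ⟨ξ, hξ, hmax⟩ := (isCompact_Icc (a := (0 : ℝ)) (b := 1)).exists_isMaxOn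
    ⟨0, by simp⟩ hFc
  have hFξ : 3 ^ e0 < F ξ := by
    have h1 : F s0 ≤ F ξ := hmax ⟨hs0, hs01⟩
    refine lt_of_lt_of_le ?_ h1
    simp only [F]
    rw [lt_div_iff₀ (pow_pos (hGpos s0 hs0 hs01) _)]
    exact hcon
  have hξ1 : ξ ≤ 1 := hξ.2
  have hgpos : 0 < G ξ := hGpos ξ hξ.1 hξ.2
  have hg2 : 2 ≤ G ξ := hG2 ξ hξ.1 hξ.2
  have hξ0 : 0 < ξ := by
    rcases hξ.1.lt_or_eq with h0 | h0
    · exact h0
    · exfalso
      rw [← h0] at hFξ
      have h1 := hA0 C 0 le_rfl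
      rw [he, add_zero] at h1
      have h2 : (2 : ℝ) ^ e ≤ G 0 ^ e := pow_le_pow_left₀ (by norm_num) (hG2 0 le_rfl zero_le_one) _
      have h3 : F 0 ≤ 1 := by
        simp only [F]
        rw [div_le_one (pow_pos (hGpos 0 le_rfl zero_le_one) _)]
        have h4 : (0 : ℝ) < 2 ^ e := by positivity
        linarith
      have h4 : (1 : ℝ) ≤ 3 ^ e0 := one_le_pow₀ (by norm_num)
      linarith
  have hgpow : 0 < G ξ ^ e := pow_pos hgpos _
  have hZ : 3 ^ e0 * G ξ ^ e < ZZ x y C ξ := by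
    simp only [F] at hFξ
    rwa [lt_div_iff₀ hgpow] at hFξ
  have hZ0 : 0 < ZZ x y C ξ := (mul_pos (by positivity) hgpow).trans hZ
  have hIH : ∀ C', Module.finrank ℝ (fl x C') < Module.finrank ℝ (fl x C) →
      ZZ x y C' ξ * G ξ ^ (Module.finrank ℝ (fl x C) - Module.finrank ℝ (fl x C')) ≤
        ZZ x y C ξ := by
    intro C' hC'
    have h1 := ih _ (by rw [← he]; exact hC') C' rfl ξ hξ0.le hξ1
    have h2 := mul_le_mul_of_nonneg_right h1
      (pow_pos hgpos (Module.finrank ℝ (fl x C) - Module.finrank ℝ (fl x C'))).le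
    refine h2.trans ?_
    rw [mul_assoc, ← pow_add, Nat.add_sub_cancel' hC'.le, he]
    exact hZ.le
  have heR : (3 : ℝ) ≤ e0 := by exact_mod_cast he0
  have hee : (e0 : ℝ) ≤ e := by exact_mod_cast hge
  have hεle : 1 + 1 / ((Module.finrank ℝ (fl x C) : ℝ) - 2) ≤ 1 + 1 / ((e0 : ℝ) - 2) := by
    rw [he]
    have h1 : 0 < (e0 : ℝ) - 2 := by linarith
    have h2 : 1 / ((e : ℝ) - 2) ≤ 1 / ((e0 : ℝ) - 2) :=
      one_div_le_one_div_of_le h1 (by linarith)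
    linarith
  have hε0 : 0 ≤ 1 + 1 / ((Module.finrank ℝ (fl x C) : ℝ) - 2) := by
    rw [he]
    have h1 : 0 < (e : ℝ) - 2 := by linarith
    positivity
  have hkey := key x y hF1 C (by omega) ξ (G ξ) (κ0 ξ) hξ0 hξ1 hg2 (hκ0 ξ hξ0 hξ1)
    (lt_of_le_of_lt (mul_le_mul_of_nonneg_right hεle (by positivity)) (hε1 ξ hξ0 hξ1))
    (by
      intro a ha1 ha2
      refine (hK ξ hξ0 hξ1 a ha1 ha2).trans (mul_le_mul_of_nonneg_left ?_
        (by linarith [hκ0 ξ hξ0 hξ1]))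
      have h1 : 0 ≤ 1 / G ξ * (1 - a * (1 - ξ)) * (a - 1 / G ξ) := by
        have h2 : 0 ≤ 1 - a * (1 - ξ) := by nlinarith
        have h3 : 0 ≤ a - 1 / G ξ := by linarith
        positivity
      have h2 := mul_le_mul_of_nonneg_right hεle h1
      linarith)
    hZ0 hIH
  obtain ⟨Z', hZ', hZ'2⟩ := hasDerivAt_ZZ x y C ξ
  have hFd : HasDerivAt F ((Z' * G ξ ^ e - ZZ x y C ξ * ((e : ℝ) * G ξ ^ (e - 1) * G' ξ)) /
      (G ξ ^ e) ^ 2) ξ := hZ'.div ((hGd ξ).pow e) hgpow.ne'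
  have h1 := deriv_nonneg_of_left_max hξ0 hFd (fun s hs1 hs2 => hmax ⟨hs1, hs2.le.trans hξ1⟩)
  have h2 : 0 ≤ Z' * G ξ ^ e - ZZ x y C ξ * ((e : ℝ) * G ξ ^ (e - 1) * G' ξ) := by
    have h3 : 0 < (G ξ ^ e) ^ 2 := by positivity
    have h4 := mul_nonneg h1 h3.le
    rwa [div_mul_cancel₀ _ h3.ne'] at h4
  have he1 : 1 ≤ e := by omega
  have h3 : G ξ ^ e = G ξ * G ξ ^ (e - 1) := by
    rw [← pow_succ']
    congr 1
    omega
  have h4 : 0 ≤ Z' * G ξ - ZZ x y C ξ * ((e : ℝ) * G' ξ) := by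
    rw [h3] at h2
    have h5 : 0 < G ξ ^ (e - 1) := pow_pos hgpos _
    have h6 : Z' * (G ξ * G ξ ^ (e - 1)) - ZZ x y C ξ * ((e : ℝ) * G ξ ^ (e - 1) * G' ξ) =
        (Z' * G ξ - ZZ x y C ξ * ((e : ℝ) * G' ξ)) * G ξ ^ (e - 1) := by ring
    rw [h6] at h2
    exact nonneg_of_mul_nonneg_left h2 h5
  rw [← hZ'2, he] at hkey
  have h5 := hODE ξ hξ0 hξ1
  have heR1 : (1 : ℝ) ≤ e := by exact_mod_cast he1
  -- contradiction
  have h6 : ξ * (ZZ x y C ξ * ((e : ℝ) * G' ξ)) ≤ ξ * (Z' * G ξ) :=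
    mul_le_mul_of_nonneg_left (by linarith) hξ0.le
  have h7 : ξ * (Z' * G ξ) ≤ ZZ x y C ξ * ((e : ℝ) * (ξ / G ξ ^ 2 * (1 + κ0 ξ))) * G ξ := by
    have h8 := mul_le_mul_of_nonneg_right hkey hgpos.le
    linarith
  have h8 : ZZ x y C ξ * ((e : ℝ) * (ξ / G ξ ^ 2 * (1 + κ0 ξ))) * G ξ * G ξ =
      ZZ x y C ξ * (e : ℝ) * ξ * (1 + κ0 ξ) := by
    field_simp
  have h9 : ZZ x y C ξ * (e : ℝ) * ξ * (G ξ * G' ξ) ≤ ZZ x y C ξ * (e : ℝ) * ξ * (1 + κ0 ξ) := by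
    rw [← h8]
    have h10 := mul_le_mul_of_nonneg_right (h6.trans h7) hgpos.le
    linarith
  have h10 : 0 < ZZ x y C ξ * (e : ℝ) * ξ := by positivity
  have h11 := le_of_mul_le_mul_left h9 h10
  linarith

end flats

end Pool.Agent.Helper93.Psd
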