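import Mathlib

/-!
# The numerical inequality for the linear function `2 + (21/40) s`
-/

namespace Pool.Agent.Helper93.Psd

/-- The comparison function. -/
noncomputable def GG (s : ℝ) : ℝ := 2 + 21 / 40 * s

/-- The quotient of the ODE, minus one. -/
noncomputable def KK (s : ℝ) : ℝ := 21 / 40 * (2 + 21 / 40 * s) - 1 - 1 / 1000

theorem quad_small (s b : ℝ) (hs0 : 0 ≤ s) (hs1 : s ≤ 3 / 5) :
    0 ≤ (1 + KK s) * (1001 / 1000) * (1 - s) * b ^ 2 -
      ((1 + KK s) * (1001 / 1000) * (GG s + 1 - s) - KK s * GG s ^ 2) * b +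
      (1 + KK s) * (1001 / 1000) * GG s := by
  set ρ : ℝ := (1 + KK s) * (1001 / 1000) with hρ
  set T : ℝ := ρ * (GG s + 1 - s) - KK s * GG s ^ 2 with hT
  have hρ0 : 0 < ρ := by
    rw [hρ]
    unfold KK
    linarith
  have hG0 : 0 < GG s := by
    unfold GG
    linarith
  have hdisc : T ^ 2 ≤ 4 * ρ ^ 2 * (GG s * (1 - s)) := by
    have h2 : s ^ 2 ≤ 3 / 5 * s := by nlinarith
    have h3 : s ^ 3 ≤ 9 / 25 * s := by
      have : s ^ 3 = s * s ^ 2 := by ring
      rw [this]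
      nlinarith
    have h4 : s ^ 4 ≤ 27 / 125 * s := by
      have : s ^ 4 = s * s ^ 3 := by ring
      rw [this]
      nlinarith
    have h5 : s ^ 5 ≤ 81 / 625 * s := by
      have : s ^ 5 = s * s ^ 4 := by ring
      rw [this]
      nlinarith
    have h6 : s ^ 6 ≤ 243 / 3125 * s := by
      have : s ^ 6 = s * s ^ 5 := by ring
      rw [this]
      nlinarith
    rw [hT, hρ]
    unfold KK GG
    nlinarith
  have hα : 0 < ρ * (1 - s) := mul_pos hρ0 (by linarith)
  have h1 : 0 ≤ 4 * (ρ * (1 - s)) * (ρ * (1 - s) * b ^ 2 - T * b + ρ * GG s) := by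
    have h2 : 4 * (ρ * (1 - s)) * (ρ * (1 - s) * b ^ 2 - T * b + ρ * GG s) =
        (2 * (ρ * (1 - s)) * b - T) ^ 2 + (4 * ρ ^ 2 * (GG s * (1 - s)) - T ^ 2) := by ring
    rw [h2]
    have := sq_nonneg (2 * (ρ * (1 - s)) * b - T)
    linarith
  exact nonneg_of_mul_nonneg_right h1 (by linarith)

theorem quad_large (s b : ℝ) (hs0 : 1 / 2 ≤ s) (hs1 : s ≤ 1) (hb0 : 0 ≤ b) (hb : b ≤ GG s)
    (hc : (1 - s) * GG s ≤ 1) :
    0 ≤ (1 + KK s) * (1001 / 1000) * (1 - s) * b ^ 2 -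
      ((1 + KK s) * (1001 / 1000) * (GG s + 1 - s) - KK s * GG s ^ 2) * b +
      (1 + KK s) * (1001 / 1000) * GG s := by
  set ρ : ℝ := (1 + KK s) * (1001 / 1000) with hρ
  have hρ0 : 0 < ρ := by
    rw [hρ]
    unfold KK
    linarith
  have hG0 : 0 < GG s := by
    unfold GG
    linarith
  have h1 : 0 ≤ KK s * GG s ^ 2 - ρ * s * (GG s - 1) := by
    have h2 : s ^ 2 ≤ s := by nlinarith
    have h3 : s ^ 3 ≤ s := by
      have : s ^ 3 = s * s ^ 2 := by ring
      rw [this]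
      nlinarith
    rw [hρ]
    unfold KK GG
    nlinarith
  have h2 : ρ * (1 - s) * b ^ 2 - (ρ * (GG s + 1 - s) - KK s * GG s ^ 2) * b + ρ * GG s =
      b * (KK s * GG s ^ 2 - ρ * s * (GG s - 1)) + (GG s - b) * (ρ * (1 - (1 - s) * b)) := by
    ring
  rw [h2]
  have h3 : 0 ≤ GG s - b := by linarith
  have h4 : 0 ≤ 1 - (1 - s) * b := by
    have h5 : (1 - s) * b ≤ (1 - s) * GG s := mul_le_mul_of_nonneg_left hb (by linarith)
    linarith
  positivity

theorem num_key (s : ℝ) (hs0 : 0 < s) (hs1 : s ≤ 1) (a : ℝ) (ha0 : 1 / GG s ≤ a) (ha1 : a ≤ 1) :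
    a ≤ (1 + KK s) * (a -
      (1001 / 1000) * (1 / GG s * (1 - a * (1 - s))) * (a - 1 / GG s)) := by
  have hG0 : 0 < GG s := by
    unfold GG
    linarith
  have hG1 : 1 ≤ GG s := by
    unfold GG
    linarith
  have ha : 0 < a := (one_div_pos.2 hG0).trans_le ha0
  have hb1 : a * GG s ≤ GG s := by nlinarith
  have hq : 0 ≤ (1 + KK s) * (1001 / 1000) * (1 - s) * (a * GG s) ^ 2 -
      ((1 + KK s) * (1001 / 1000) * (GG s + 1 - s) - KK s * GG s ^ 2) * (a * GG s) +
      (1 + KK s) * (1001 / 1000) * GG s := by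
    rcases le_total s (3 / 5) with h | h
    · exact quad_small s _ hs0.le h
    · refine quad_large s _ (by linarith) hs1 (by positivity) hb1 ?_
      unfold GG
      nlinarith
  have h1 : GG s ^ 3 * ((1 + KK s) * (a -
      (1001 / 1000) * (1 / GG s * (1 - a * (1 - s))) * (a - 1 / GG s)) - a) =
      (1 + KK s) * (1001 / 1000) * (1 - s) * (a * GG s) ^ 2 -
      ((1 + KK s) * (1001 / 1000) * (GG s + 1 - s) - KK s * GG s ^ 2) * (a * GG s) +
      (1 + KK s) * (1001 / 1000) * GG s := by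
    field_simp
    ring
  rw [← h1] at hq
  have h2 := nonneg_of_mul_nonneg_right hq (by positivity)
  linarith

end Pool.Agent.Helper93.Psd
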