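import Mathlib
import Pool.Agent.Helper93.PsdFlatsC
import Pool.Agent.Helper93.PsdNum
import Pool.Agent.Helper16.PsdPowerAd

/-!
# The abstract exponential bound with base `101 / 40`
-/

namespace Pool.Agent.Helper93.Psd

open Finset Matrix
open Pool.Agent.Helper73.Psd (Tsub mem_Tsub sum_pow_finrank_le_sub)

theorem hasDerivAt_GG (s : ℝ) : HasDerivAt GG (21 / 40) s := by
  have h1 : HasDerivAt (fun s : ℝ => 2 + 21 / 40 * s) (21 / 40 * 1) s :=
    ((hasDerivAt_id s).const_mul (21 / 40)).const_add 2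
  rw [mul_one] at h1
  exact h1

/-- **The asymptotic bound.** -/
theorem card_le_const (ι κ : Type) [Fintype ι] [Fintype κ] (n : ℕ) (E : Type) [AddCommGroup E]
    [Module ℝ E] (v : ι → E) (h : κ → Module.Dual ℝ E)
    (hfac : ∀ k (g : Module.Dual ℝ E), (∀ i, h k (v i) = 0 → g (v i) = 0) →
      ∃ c : ℝ, ∀ i, g (v i) = c * h k (v i))
    (hinj : ∀ k l, (∀ i, h k (v i) = 0 ↔ h l (v i) = 0) → k = l)
    (hne : ∀ k, ∃ i, h k (v i) ≠ 0)
    (x : ι → Fin n → ℝ) (y : κ → Fin n → ℝ)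
    (hS : ∀ i k, h k (v i) = (x i ⬝ᵥ y k) ^ 2)
    (hspan : Submodule.span ℝ (Set.range x) = ⊤)
    (hF1 : ∀ k z, (∀ i, x i ⬝ᵥ y k = 0 → x i ⬝ᵥ z = 0) → ∃ c : ℝ, z = c • y k) :
    (Fintype.card κ : ℝ) ≤ 3 ^ 1002 * (101 / 40) ^ n := by
  classical
  have hcast : (1 + 1 / (((1002 : ℕ) : ℝ) - 2)) = 1001 / 1000 := by norm_num
  have hmain := flats_bound x y hF1
    (fun W S hW a ha => sum_pow_finrank_le_sub v h hfac hinj hne x y hS hspan W S hW a ha)
    GG (fun _ => 21 / 40) KK 1002 (by norm_num) hasDerivAt_GG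
    (fun s hs _ => by unfold GG; linarith)
    (fun s hs _ => by unfold KK; linarith)
    (fun s hs hs1 => by
      rw [hcast]
      have h1 : 0 < GG s := by unfold GG; linarith
      rw [mul_one_div, div_lt_one h1]
      unfold GG
      linarith)
    (fun s hs hs1 a ha0 ha1 => by
      rw [hcast]
      exact num_key s hs hs1 a ha0 ha1)
    (fun s hs hs1 => by unfold KK GG; linarith)
    n ∅ (by
      have h1 : fl x ∅ = ⊤ := by
        rw [eq_top_iff]
        intro z _ i hi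
        exact absurd hi (Finset.notMem_empty i)
      rw [h1, finrank_top]
      simp) 1 zero_le_one le_rfl
  have h1 : ZZ x y ∅ 1 = Fintype.card κ := by
    have h2 : ∀ k, zt x y ∅ 1 k = 1 := by
      intro k
      rw [zt_of_mem x y ∅ 1 k (fun i hi => absurd hi (Finset.notMem_empty i)), one_pow]
    rw [ZZ, Finset.sum_congr rfl fun k _ => h2 k]
    simp
  have h2 : GG 1 = 101 / 40 := by
    unfold GG
    norm_num
  rw [h1, h2] at hmain
  exact hmain

/-- **The exact bound.** -/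
theorem card_le_exact (ι κ : Type) [Fintype ι] [Fintype κ] (n : ℕ) (E : Type) [AddCommGroup E]
    [Module ℝ E] (v : ι → E) (h : κ → Module.Dual ℝ E)
    (hfac : ∀ k (g : Module.Dual ℝ E), (∀ i, h k (v i) = 0 → g (v i) = 0) →
      ∃ c : ℝ, ∀ i, g (v i) = c * h k (v i))
    (hinj : ∀ k l, (∀ i, h k (v i) = 0 ↔ h l (v i) = 0) → k = l)
    (hne : ∀ k, ∃ i, h k (v i) ≠ 0)
    (x : ι → Fin n → ℝ) (y : κ → Fin n → ℝ)
    (hS : ∀ i k, h k (v i) = (x i ⬝ᵥ y k) ^ 2)
    (hspan : Submodule.span ℝ (Set.range x) = ⊤)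
    (hF1 : ∀ k z, (∀ i, x i ⬝ᵥ y k = 0 → x i ⬝ᵥ z = 0) → ∃ c : ℝ, z = c • y k) :
    (Fintype.card κ : ℝ) ≤ ((101 / 40) ^ n - 1) / (101 / 40 - 1) :=
  Pool.Agent.Helper16.PsdPower.card_mul_le_coord (by norm_num)
    (Pool.Agent.Helper16.PsdPower.bound_of_coord
      (C := 3 ^ 1002) (a := 101 / 40) fun ι κ _ _ n E _ _ v h h1 h2 h3 x y h4 h5 h6 =>
        card_le_const ι κ n E v h h1 h2 h3 x y h4 h5 h6)
    v h hfac hinj hne x y hS hspan hF1

end Pool.Agent.Helper93.Psd
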